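import Pool.Agent.Lib.MP_a5a771_alC.Defs

/-!
# Leaf AF
-/

set_option autoImplicit false

noncomputable section

open Module PBWB

namespace MP_a5a771_alC

attribute [local instance 100] LieRing.ofAssociativeRing

/-- Values of linear forms can be prescribed on a subset of a given set of forms with the same common kernel.
Proof. `T` a maximal linearly independent subset of `S` (`exists_linearIndependent`); its span contains `S`. The map
`L → (T → F)`, `l ↦ (r l)_r`, is onto because `T` is linearly independent (and finite, `L` is finite-dimensional). -/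
theorem exists_values {F L : Type*} [Field F] [AddCommGroup L] [Module F L] [FiniteDimensional F L]
    (S : Set (L →ₗ[F] F)) : ∃ T ⊆ S, (∀ l : L, (∀ r ∈ T, r l = 0) → ∀ r ∈ S, r l = 0) ∧
      ∀ c : (L →ₗ[F] F) → F, ∃ l : L, ∀ r ∈ T, r l = c r := by
  obtain ⟨T, hTS, hspan, hT0⟩ := exists_linearIndependent F S
  have hT : LinearIndepOn F id T := hT0
  refine ⟨T, hTS, ?_, ?_⟩
  · intro l hl r hr
    have h1 : T ⊆ ↑(LinearMap.ker (Module.Dual.eval F L l)) := by
      intro r' hr'
      show (Module.Dual.eval F L l) r' = 0
      rw [Module.Dual.eval_apply]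
      exact hl r' hr'
    have h2 : Submodule.span F S ≤ LinearMap.ker (Module.Dual.eval F L l) := by
      rw [← hspan]
      exact Submodule.span_le.2 h1
    have h3 : (Module.Dual.eval F L l) r = 0 := h2 (Submodule.subset_span hr)
    rwa [Module.Dual.eval_apply] at h3
  · intro c
    let b := Basis.extend hT
    let φ : Module.Dual F (Module.Dual F L) := b.constr F fun x => c x
    refine ⟨(Module.evalEquiv F L).symm φ, fun r hr => ?_⟩
    have h1 : r ∈ hT.extend (Set.subset_univ T) := hT.subset_extend (Set.subset_univ T) hr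
    have h2 : φ r = c r := by
      have h3 := b.constr_basis F (fun x => c x) ⟨r, h1⟩
      have h4 : b ⟨r, h1⟩ = r := Basis.extend_apply_self hT ⟨r, h1⟩
      rw [h4] at h3
      exact h3
    rw [← h2]
    have h5 : (Module.evalEquiv F L) ((Module.evalEquiv F L).symm φ) = φ := LinearEquiv.apply_symm_apply _ _
    have h6 := congrArg (fun ψ : Module.Dual F (Module.Dual F L) => ψ r) h5
    exact h6

/-- An element of a domain over an algebraically closed field which is algebraic is a scalar.
Proof. `Q` splits: `Q = c * ∏ (X - z i)`; `∏ (a - z i) = 0` in the domain. -/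
theorem scalar_of_aeval {F R : Type*} [Field F] [IsAlgClosed F] [CommRing R] [IsDomain R] [Algebra F R] (a : R)
    (Q : Polynomial F) (hQ : Q ≠ 0) (h : Polynomial.aeval a Q = 0) :
    ∃ z : F, a = algebraMap F R z ∧ Q.eval z = 0 := by
  have h1 : IsIntegral F a := isAlgebraic_iff_isIntegral.1 ⟨Q, hQ, h⟩
  have h2 := IsAlgClosed.degree_eq_one_of_irreducible F (minpoly.irreducible h1)
  obtain ⟨z, hz⟩ := minpoly.mem_range_of_degree_eq_one F a h2
  refine ⟨z, hz.symm, ?_⟩
  rw [← hz, Polynomial.aeval_algebraMap_apply, Polynomial.coe_aeval_eq_eval] at h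
  exact (map_eq_zero_iff _ (algebraMap F R).injective).1 h

end MP_a5a771_alC
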