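import Pool.Agent.Lib.MP_a5a771_alC.LT1

/-!
# Leaf NB: the ad-nilpotent elements and the extension of scalars
-/

set_option autoImplicit false

noncomputable section

open Module PBWB
open scoped TensorProduct

namespace MP_a5a771_alC

/-- The line spanned by a common eigenvector is a Lie submodule. -/
private def NB_line {F L : Type*} [Field F] [LieRing L] [LieAlgebra F L] {V : Type*} [AddCommGroup V] [Module F V]
    [LieRingModule L V] [LieModule F L V] (v : V) (chi : L → F) (h : ∀ x : L, ⁅x, v⁆ = chi x • v) :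
    LieSubmodule F L V where
  toSubmodule := F ∙ v
  lie_mem := by
    intro x m hm
    obtain ⟨c, rfl⟩ := Submodule.mem_span_singleton.1 hm
    rw [lie_smul, h x, smul_smul]
    exact Submodule.smul_mem _ _ (Submodule.mem_span_singleton_self v)

private theorem NB_mem_line {F L : Type*} [Field F] [LieRing L] [LieAlgebra F L] {V : Type*} [AddCommGroup V]
    [Module F V] [LieRingModule L V] [LieModule F L V] (v : V) (chi : L → F) (h : ∀ x : L, ⁅x, v⁆ = chi x • v)
    (m : V) : m ∈ NB_line v chi h ↔ ∃ c : F, c • v = m :=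
  Submodule.mem_span_singleton

private theorem NB_pow_mk {F L : Type*} [Field F] [LieRing L] [LieAlgebra F L] {V : Type*} [AddCommGroup V]
    [Module F V] [LieRingModule L V] [LieModule F L V] (N : LieSubmodule F L V) (l : L) (k : ℕ) (w : V) :
    (LieModule.toEnd F L (V ⧸ N) l ^ k) (LieSubmodule.Quotient.mk' N w) =
      LieSubmodule.Quotient.mk' N ((LieModule.toEnd F L V l ^ k) w) := by
  induction k with
  | zero => simp
  | succ k ih =>
    rw [pow_succ', pow_succ', Module.End.mul_apply, Module.End.mul_apply, ih]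
    rfl

private theorem NB_pow_eig {F L : Type*} [Field F] [LieRing L] [LieAlgebra F L] {V : Type*} [AddCommGroup V]
    [Module F V] [LieRingModule L V] [LieModule F L V] (v : V) (chi : L → F) (h : ∀ x : L, ⁅x, v⁆ = chi x • v)
    (l : L) (k : ℕ) : (LieModule.toEnd F L V l ^ k) v = chi l ^ k • v := by
  induction k with
  | zero => simp
  | succ k ih =>
    rw [pow_succ', Module.End.mul_apply, ih, map_smul, LieModule.toEnd_apply_apply, h, smul_smul, pow_succ]

private theorem NB_pow_mk' {F L : Type*} [Field F] [LieRing L] [LieAlgebra F L] {V : Type*} [AddCommGroup V]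
    [Module F V] [LieRingModule L V] [LieModule F L V] (N : LieSubmodule F L V) (z y : L) (k m : ℕ) (w : V) :
    ((LieModule.toEnd F L (V ⧸ N) z * LieModule.toEnd F L (V ⧸ N) y ^ k) ^ m) (LieSubmodule.Quotient.mk' N w) =
      LieSubmodule.Quotient.mk' N
        (((LieModule.toEnd F L V z * LieModule.toEnd F L V y ^ k) ^ m) w) := by
  induction m with
  | zero => simp
  | succ m ih =>
    rw [pow_succ', pow_succ', Module.End.mul_apply, Module.End.mul_apply, ih, Module.End.mul_apply,
      Module.End.mul_apply, NB_pow_mk]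
    rfl

private theorem NB_main {F L : Type*} [Field F] [IsAlgClosed F] [CharZero F] [LieRing L] [LieAlgebra F L]
    [FiniteDimensional F L] [LieAlgebra.IsSolvable L] (n : ℕ) : ∀ (V : Type*) [AddCommGroup V] [Module F V]
    [LieRingModule L V] [LieModule F L V] [FiniteDimensional F V], finrank F V = n →
    ∀ (z y : L) (k : ℕ), IsNilpotent (LieModule.toEnd F L V z) →
      IsNilpotent (LieModule.toEnd F L V z * LieModule.toEnd F L V y ^ k) := by
  induction n with
  | zero =>
    intro V _ _ _ _ _ hn z y k _
    have hs : Subsingleton V := finrank_zero_iff.1 hn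
    refine ⟨1, ?_⟩
    exact LinearMap.ext fun w => Subsingleton.elim _ _
  | succ n ih =>
    intro V _ _ _ _ _ hn z y k hz
    have hnt : Nontrivial V := by
      apply nontrivial_of_finrank_pos (R := F)
      omega
    obtain ⟨chi, hchi⟩ := LieModule.exists_nontrivial_weightSpace_of_isSolvable F L V
    obtain ⟨⟨v, hv⟩, hv0⟩ := exists_ne (0 : LieModule.weightSpace V chi)
    have hv1 : v ≠ 0 := fun h0 => hv0 (Subtype.ext h0)
    have h : ∀ x : L, ⁅x, v⁆ = chi x • v := (LieModule.mem_weightSpace chi v).1 hv
    have hdim : finrank F (V ⧸ NB_line v chi h) = n := by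
      have h1 := Submodule.finrank_quotient_add_finrank (F ∙ v)
      rw [finrank_span_singleton hv1] at h1
      have h2 : finrank F (V ⧸ NB_line v chi h) = finrank F (V ⧸ (F ∙ v)) := rfl
      omega
    obtain ⟨k', hk'⟩ := hz
    have h0 : chi z = 0 := by
      have h1 := NB_pow_eig v chi h z k'
      rw [hk', LinearMap.zero_apply] at h1
      exact eq_zero_of_pow_eq_zero ((smul_eq_zero.1 h1.symm).resolve_right hv1)
    have hq : IsNilpotent (LieModule.toEnd F L (V ⧸ NB_line v chi h) z) := by
      refine ⟨k', LinearMap.ext fun q => ?_⟩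
      obtain ⟨w, rfl⟩ := LieSubmodule.Quotient.surjective_mk' (NB_line v chi h) q
      rw [NB_pow_mk, hk', LinearMap.zero_apply, LinearMap.zero_apply, map_zero]
    obtain ⟨m, hm⟩ := ih (V ⧸ NB_line v chi h) hdim z y k hq
    refine ⟨m + 1, LinearMap.ext fun w => ?_⟩
    have h1 := NB_pow_mk' (NB_line v chi h) z y k m w
    rw [hm, LinearMap.zero_apply] at h1
    obtain ⟨c, hc⟩ := (NB_mem_line v chi h _).1 ((LieSubmodule.Quotient.mk_eq_zero _).1 h1.symm)
    rw [pow_succ', Module.End.mul_apply, ← hc, map_smul, Module.End.mul_apply, NB_pow_eig v chi h, map_smul,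
      LieModule.toEnd_apply_apply, h, h0, zero_smul, smul_zero, smul_zero, LinearMap.zero_apply]

/-- An endomorphism is nilpotent if the traces of its powers are zero (characteristic zero). -/
private theorem NB_trace {F V : Type*} [Field F] [CharZero F] [AddCommGroup V] [Module F V] [FiniteDimensional F V]
    (f : Module.End F V) (h : ∀ k : ℕ, LinearMap.trace F V (f ^ (k + 1)) = 0) : IsNilpotent f := by
  have hint : IsIntegral F f := Algebra.IsIntegral.isIntegral f
  have hp0 : minpoly F f ≠ 0 := minpoly.ne_zero hint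
  obtain ⟨q, hq, hnd⟩ := Polynomial.exists_eq_pow_rootMultiplicity_mul_and_not_dvd (minpoly F f) hp0 0
  rw [Polynomial.C_0, sub_zero] at hq hnd
  set a := Polynomial.rootMultiplicity 0 (minpoly F f) with ha
  have hcop : IsCoprime (Polynomial.X ^ (a + 1) : Polynomial F) q :=
    IsCoprime.pow_left ((Polynomial.prime_X.irreducible.coprime_iff_not_dvd).2 hnd)
  obtain ⟨u, v, huv⟩ := hcop
  set e : Module.End F V := Polynomial.aeval f (u * Polynomial.X ^ (a + 1)) with he
  have hid : IsIdempotentElem e := by
    have h1 : e * (1 - e) = 0 := by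
      have h2 : (1 : Module.End F V) - e = Polynomial.aeval f (v * q) := by
        have h3 : v * q = 1 - u * Polynomial.X ^ (a + 1) := by
          rw [← huv]
          ring
        rw [he, h3, map_sub, map_one]
      rw [h2, he, ← map_mul]
      have h3 : u * Polynomial.X ^ (a + 1) * (v * q) = (u * v * Polynomial.X) * minpoly F f := by
        conv_rhs => rw [hq]
        ring
      rw [h3, map_mul, minpoly.aeval, mul_zero]
    rw [mul_sub, mul_one, sub_eq_zero] at h1
    exact h1.symm
  have htr : LinearMap.trace F V e = 0 := by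
    have h1 : ∀ p : Polynomial F, LinearMap.trace F V (Polynomial.aeval f (p * Polynomial.X)) = 0 := by
      intro p
      rw [map_mul, Polynomial.aeval_X, Polynomial.aeval_eq_sum_range, Finset.sum_mul, map_sum]
      refine Finset.sum_eq_zero fun i _ => ?_
      rw [smul_mul_assoc, ← pow_succ, map_smul, h, smul_zero]
    rw [he, pow_succ, ← mul_assoc]
    exact h1 _
  have he0 : e = 0 := by
    have h1 := (LinearMap.isProj_range_iff_isIdempotentElem e).2 hid
    have h2 := h1.trace
    rw [htr] at h2
    have h3 : finrank F (LinearMap.range e) = 0 := by exact_mod_cast h2.symm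
    rw [Submodule.finrank_eq_zero, LinearMap.range_eq_bot] at h3
    exact h3
  have hone : Polynomial.aeval f (q * v) = (1 : Module.End F V) := by
    have h1 : Polynomial.aeval f (u * Polynomial.X ^ (a + 1) + v * q) = (1 : Module.End F V) := by
      rw [huv, map_one]
    rw [map_add, ← he, he0, zero_add, mul_comm] at h1
    exact h1
  refine ⟨a, ?_⟩
  have h1 : Polynomial.aeval f (Polynomial.X ^ a * (q * v)) = 0 := by
    rw [← mul_assoc, ← hq, map_mul, minpoly.aeval, zero_mul]
  rw [map_mul, hone, mul_one, map_pow, Polynomial.aeval_X] at h1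
  exact h1

/-- The ad-nilpotent elements of `K ⊗ L`, `K` the algebraic closure, are the span of the ad-nilpotent elements of `L`.
Proof. `ad z * (ad y) ^ k` is nilpotent for all `y` (`NB_main`, a flag of Lie submodules), so its trace is `0`. Write
`z = ∑ B j ⊗ l j` with a basis `B` of `K` over `F`: for `y` in `L` the trace is `∑ B j * tr (ad (l j) * (ad y) ^ k)`, so
`tr (ad (l j) * (ad y) ^ k) = 0` for all `j`; `y = l j`: the traces of the powers of `ad (l j)` are `0`, so it is nilpotent. -/
theorem nil_base_change (F L : Type*) [Field F] [CharZero F] [LieRing L] [LieAlgebra F L] [FiniteDimensional F L]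
    [LieAlgebra.IsSolvable L] (z : AlgebraicClosure F ⊗[F] L)
    (hz : IsNilpotent (LieAlgebra.ad (AlgebraicClosure F) (AlgebraicClosure F ⊗[F] L) z)) :
    z ∈ Submodule.span (AlgebraicClosure F)
      ((fun l : L => (1 : AlgebraicClosure F) ⊗ₜ[F] l) '' {l | IsNilpotent (LieAlgebra.ad F L l)}) := by
  have had : ∀ (c : AlgebraicClosure F) (l : L), LieAlgebra.ad (AlgebraicClosure F) (AlgebraicClosure F ⊗[F] L)
      (c ⊗ₜ[F] l) = c • (LieAlgebra.ad F L l).baseChange (AlgebraicClosure F) := by
    intro c l
    have h1 : c ⊗ₜ[F] l = c • ((1 : AlgebraicClosure F) ⊗ₜ[F] l) := by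
      rw [TensorProduct.smul_tmul', smul_eq_mul, mul_one]
    rw [h1, map_smul]
    congr 1
    exact LieModule.toEnd_baseChange F (AlgebraicClosure F) L L l
  have htr : ∀ (y : L) (k : ℕ), LinearMap.trace (AlgebraicClosure F) (AlgebraicClosure F ⊗[F] L)
      (LieAlgebra.ad (AlgebraicClosure F) (AlgebraicClosure F ⊗[F] L) z *
        (LieAlgebra.ad (AlgebraicClosure F) (AlgebraicClosure F ⊗[F] L) (1 ⊗ₜ[F] y)) ^ k) = 0 := by
    intro y k
    exact (LinearMap.isNilpotent_trace_of_isNilpotent
      (NB_main (F := AlgebraicClosure F) (L := AlgebraicClosure F ⊗[F] L) _ (AlgebraicClosure F ⊗[F] L) rfl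
        z (1 ⊗ₜ[F] y) k hz)).eq_zero
  let B := Basis.ofVectorSpace F (AlgebraicClosure F)
  obtain ⟨l, hl⟩ := TensorProduct.eq_repr_basis_left B z
  have hzero : ∀ j (y : L) (k : ℕ), LinearMap.trace F L (LieAlgebra.ad F L (l j) * LieAlgebra.ad F L y ^ k) = 0 := by
    intro j y k
    have h1 := htr y k
    rw [had, one_smul, ← hl, Finsupp.sum, map_sum, Finset.sum_mul, map_sum] at h1
    have h2 : ∀ i, LinearMap.trace (AlgebraicClosure F) (AlgebraicClosure F ⊗[F] L)
        (LieAlgebra.ad (AlgebraicClosure F) (AlgebraicClosure F ⊗[F] L) (B i ⊗ₜ[F] l i) *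
          ((LieAlgebra.ad F L y).baseChange (AlgebraicClosure F)) ^ k) =
        LinearMap.trace F L (LieAlgebra.ad F L (l i) * LieAlgebra.ad F L y ^ k) • B i := by
      intro i
      rw [had, smul_mul_assoc, map_smul, ← LinearMap.baseChange_pow, ← LinearMap.baseChange_mul,
        LinearMap.trace_baseChange, smul_eq_mul, mul_comm, Algebra.smul_def]
    rw [Finset.sum_congr rfl fun i _ => h2 i] at h1
    have h3 := (linearIndependent_iff'.1 B.linearIndependent) _ _ h1 j
    by_cases hj : j ∈ l.support
    · exact h3 hj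
    · rw [Finsupp.notMem_support_iff.1 hj, map_zero, zero_mul, map_zero]
  have hnil : ∀ j, IsNilpotent (LieAlgebra.ad F L (l j)) := by
    intro j
    apply NB_trace
    intro k
    rw [pow_succ']
    exact hzero j (l j) k
  rw [← hl, Finsupp.sum]
  refine Submodule.sum_mem _ fun j _ => ?_
  have h1 : B j ⊗ₜ[F] l j = B j • ((1 : AlgebraicClosure F) ⊗ₜ[F] l j) := by
    rw [TensorProduct.smul_tmul', smul_eq_mul, mul_one]
  rw [h1]
  exact Submodule.smul_mem _ _ (Submodule.subset_span ⟨l j, hnil j, rfl⟩)

end MP_a5a771_alC
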