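import Pool.Agent.Lib.MP_a5a771_alC.LTF
import Pool.Agent.Lib.MP_a5a771_alC.NB

/-!
# Leaf DB: an adapted basis over the ground field
-/

set_option autoImplicit false

noncomputable section

open Module PBWB
open scoped TensorProduct

namespace MP_a5a771_alC

section

variable {F K L : Type*} [Field F] [Field K] [Algebra F K] [LieRing L] [LieAlgebra F L]

private theorem DB_inj {M : Type*} [AddCommGroup M] [Module F M] {x : M} (h : (1 : K) ⊗ₜ[F] x = 0) : x = 0 := by
  let b := Basis.ofVectorSpace F M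
  apply b.repr.injective
  ext i
  have h1 := congrArg (fun z => (b.baseChange K).repr z i) h
  simp only [Basis.baseChange_repr_tmul, map_zero, Finsupp.coe_zero, Pi.zero_apply] at h1
  rw [← Algebra.algebraMap_eq_smul_one] at h1
  rw [map_zero, Finsupp.coe_zero, Pi.zero_apply]
  exact (algebraMap F K).injective (by rw [h1, map_zero])

private theorem DB_nil (l : L) : IsNilpotent (LieAlgebra.ad K (K ⊗[F] L) ((1 : K) ⊗ₜ[F] l)) ↔
    IsNilpotent (LieAlgebra.ad F L l) := by
  have h1 : LieAlgebra.ad K (K ⊗[F] L) ((1 : K) ⊗ₜ[F] l) = (LieAlgebra.ad F L l).baseChange K :=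
    LieModule.toEnd_baseChange (R := F) (A := K) (L := L) (M := L) l
  have h2 : ∀ N : ℕ, (LieAlgebra.ad K (K ⊗[F] L) ((1 : K) ⊗ₜ[F] l)) ^ N = (LieAlgebra.ad F L l ^ N).baseChange K := by
    intro N
    rw [h1, LinearMap.baseChange_pow]
  constructor
  · rintro ⟨N, hN⟩
    refine ⟨N, LinearMap.ext fun x => ?_⟩
    have h3 := congrArg (fun f : Module.End K (K ⊗[F] L) => f ((1 : K) ⊗ₜ[F] x)) hN
    rw [h2] at h3
    exact DB_inj (K := K) h3
  · rintro ⟨N, hN⟩
    refine ⟨N, ?_⟩
    rw [h2, hN, LinearMap.baseChange_zero]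

/-- the extension of a subspace -/
private def DB_B (K : Type*) [Field K] [Algebra F K] (p : Submodule F L) : Submodule K (K ⊗[F] L) :=
  Submodule.span K ((fun l : L => (1 : K) ⊗ₜ[F] l) '' (p : Set L))

private theorem DB_mem {p : Submodule F L} {l : L} (h : l ∈ p) : (1 : K) ⊗ₜ[F] l ∈ DB_B K p :=
  Submodule.subset_span ⟨l, h, rfl⟩

private theorem DB_top : DB_B K (⊤ : Submodule F L) = ⊤ := by
  rw [eq_top_iff]
  intro z _
  induction z using TensorProduct.induction_on with
  | zero => exact zero_mem _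
  | add x y hx hy => exact add_mem (hx Submodule.mem_top) (hy Submodule.mem_top)
  | tmul k l =>
    have h1 : k ⊗ₜ[F] l = k • ((1 : K) ⊗ₜ[F] l) := by
      rw [TensorProduct.smul_tmul', smul_eq_mul, mul_one]
    rw [h1]
    exact Submodule.smul_mem _ _ (DB_mem Submodule.mem_top)

private theorem DB_lie {p q r : Submodule F L} (h : ∀ x ∈ p, ∀ y ∈ q, ⁅x, y⁆ ∈ r) {x y : K ⊗[F] L}
    (hx : x ∈ DB_B K p) (hy : y ∈ DB_B K q) : ⁅x, y⁆ ∈ DB_B K r := by
  induction hx using Submodule.span_induction with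
  | mem x hx =>
    obtain ⟨x, hx, rfl⟩ := hx
    induction hy using Submodule.span_induction with
    | mem y hy =>
      obtain ⟨y, hy, rfl⟩ := hy
      have h1 : ⁅(1 : K) ⊗ₜ[F] x, (1 : K) ⊗ₜ[F] y⁆ = (1 : K) ⊗ₜ[F] ⁅x, y⁆ := by
        rw [LieAlgebra.ExtendScalars.bracket_tmul, mul_one]
      change ⁅(1 : K) ⊗ₜ[F] x, (1 : K) ⊗ₜ[F] y⁆ ∈ DB_B K r
      rw [h1]
      exact DB_mem (h x hx y hy)
    | zero => rw [lie_zero]; exact zero_mem _
    | add y y' _ _ hy hy' => rw [lie_add]; exact add_mem hy hy'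
    | smul c y _ hy => rw [lie_smul]; exact Submodule.smul_mem _ _ hy
  | zero => rw [zero_lie]; exact zero_mem _
  | add x x' _ _ hx hx' => rw [add_lie]; exact add_mem hx hx'
  | smul c x _ hx => rw [smul_lie]; exact Submodule.smul_mem _ _ hx

private theorem DB_le {p : Submodule F L} {P : Submodule K (K ⊗[F] L)} (h : ∀ l ∈ p, (1 : K) ⊗ₜ[F] l ∈ P) :
    DB_B K p ≤ P := by
  refine Submodule.span_le.2 ?_
  rintro z ⟨l, hl, rfl⟩
  exact h l hl

private theorem DB_gam (n0 : Submodule F L) (nK : Submodule K (K ⊗[F] L)) (h : nK = DB_B K n0) (a : ℕ) :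
    gam nK a = DB_B K (gam n0 a) := by
  induction a with
  | zero => exact DB_top.symm
  | succ a ih =>
    rcases a with _ | a
    · exact h
    · refine le_antisymm ?_ ?_
      · refine Submodule.span_le.2 ?_
        rintro z ⟨x, hx, y, hy, rfl⟩
        rw [h] at hx
        rw [ih] at hy
        refine DB_lie (r := gam n0 (a + 1 + 1)) ?_ hx hy
        intro x hx y hy
        exact Submodule.subset_span ⟨x, hx, y, hy, rfl⟩
      · refine DB_le fun l hl => ?_
        induction hl using Submodule.span_induction with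
        | mem l hl =>
          obtain ⟨x, hx, y, hy, rfl⟩ := hl
          have h1 : ⁅(1 : K) ⊗ₜ[F] x, (1 : K) ⊗ₜ[F] y⁆ = (1 : K) ⊗ₜ[F] ⁅x, y⁆ := by
            rw [LieAlgebra.ExtendScalars.bracket_tmul, mul_one]
          refine Submodule.subset_span ⟨(1 : K) ⊗ₜ[F] x, ?_, (1 : K) ⊗ₜ[F] y, ?_, h1.symm⟩
          · rw [h]; exact DB_mem hx
          · rw [ih]; exact DB_mem hy
        | zero => rw [TensorProduct.tmul_zero]; exact zero_mem _
        | add x y _ _ hx hy => rw [TensorProduct.tmul_add]; exact add_mem hx hy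
        | smul c x _ hx =>
          have h1 : (1 : K) ⊗ₜ[F] (c • x) = algebraMap F K c • ((1 : K) ⊗ₜ[F] x) := by
            rw [TensorProduct.smul_tmul', smul_eq_mul, mul_one, TensorProduct.tmul_smul, TensorProduct.smul_tmul',
              Algebra.algebraMap_eq_smul_one]
          rw [h1]
          exact Submodule.smul_mem _ _ hx

private theorem DB_Gw {m : ℕ} (b : Basis (Fin m) F L) (wt : Fin m → ℕ) (a : ℕ) :
    Gw (b.baseChange K) wt a = DB_B K (Gw b wt a) := by
  refine le_antisymm ?_ ?_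
  · intro z hz
    rw [← (b.baseChange K).sum_repr z]
    refine sum_mem fun i _ => ?_
    by_cases h : (b.baseChange K).repr z i = 0
    · rw [h, zero_smul]
      exact zero_mem _
    · refine Submodule.smul_mem _ _ ?_
      rw [Basis.baseChange_apply]
      exact DB_mem (Gw_anti b wt (hz i h) (b_mem_Gw b wt i))
  · refine DB_le fun l hl => ?_
    intro i hi
    refine hl i fun h => hi ?_
    rw [Basis.baseChange_repr_tmul, h, zero_smul]

end

/-- A solvable Lie algebra over a field of characteristic zero has a basis whose extension to the algebraic closure has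
the properties of `Data`.
Proof. `K ⊗ L` is solvable (Mathlib); `exists_nil` gives `nK`. Let `n₀ = {l | 1 ⊗ l ∈ nK}` (= the ad-nilpotent elements of `L`, a
subspace which contains the brackets). By `nil_base_change` `nK` is the `K`-span of `1 ⊗ n₀`, and by induction on `a` `gam nK a` is the
`K`-span of `1 ⊗ gam n₀ a`. `exists_adapted` for `gam n₀` over `F` (finite by `gam_fin`) gives `b`, `wt`; `Gw (b.baseChange K) wt a` is the span of the
`1 ⊗ b i`, `a ≤ wt i`, so it is `gam nK a`; `data_of_gam`. -/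
theorem exists_data_base (F L : Type*) [Field F] [CharZero F] [LieRing L] [LieAlgebra F L] [FiniteDimensional F L]
    [LieAlgebra.IsSolvable L] :
    ∃ (m : ℕ) (b : Basis (Fin m) F L) (wt : Fin m → ℕ), Data (b.baseChange (AlgebraicClosure F)) wt := by
  obtain ⟨nK, hnK, hLK⟩ := exists_nil (AlgebraicClosure F) (AlgebraicClosure F ⊗[F] L)
  let n0 : Submodule F L := (nK.restrictScalars F).comap (TensorProduct.mk F (AlgebraicClosure F) L 1)
  have hn0 : ∀ l, l ∈ n0 ↔ (1 : AlgebraicClosure F) ⊗ₜ[F] l ∈ nK := fun l => Iff.rfl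
  have hnil : ∀ l, l ∈ n0 ↔ IsNilpotent (LieAlgebra.ad F L l) := fun l => by
    rw [hn0, hnK, DB_nil]
  have hL : ∀ x y : L, ⁅x, y⁆ ∈ n0 := by
    intro x y
    rw [hn0]
    have h1 : ⁅(1 : AlgebraicClosure F) ⊗ₜ[F] x, (1 : AlgebraicClosure F) ⊗ₜ[F] y⁆ =
        (1 : AlgebraicClosure F) ⊗ₜ[F] ⁅x, y⁆ := by
      rw [LieAlgebra.ExtendScalars.bracket_tmul, mul_one]
    rw [← h1]
    exact hLK _ _
  have hid : ∀ x : L, ∀ y ∈ n0, ⁅x, y⁆ ∈ n0 := fun x y _ => hL x y
  have hB : nK = DB_B (AlgebraicClosure F) n0 := by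
    refine le_antisymm ?_ (DB_le fun l hl => hl)
    intro z hz
    refine Submodule.span_mono ?_ (nil_base_change F L z ((hnK z).1 hz))
    rintro w ⟨l, hl, rfl⟩
    exact ⟨l, (hnil l).2 hl, rfl⟩
  obtain ⟨m, b, wt, hmono, hG⟩ := exists_adapted (gam n0) rfl (gam_anti n0 hid) (gam_fin n0 hid fun x hx => (hnil x).1 hx)
  refine ⟨m, b, wt, data_of_gam (b.baseChange (AlgebraicClosure F)) wt nK hnK hLK hmono fun a => ?_⟩
  rw [DB_Gw, hG, DB_gam n0 nK hB]

end MP_a5a771_alC
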