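import Mathlib

/-!
# Isomorphic Lie algebras: enveloping algebras and derived lengths
-/

set_option autoImplicit false

noncomputable section

namespace MP_a5a771_alC

attribute [local instance 100] LieRing.ofAssociativeRing

variable {F L H : Type*} [Field F] [LieRing L] [LieAlgebra F L] [LieRing H] [LieAlgebra F H]

theorem derivedSeries_bot_of_equiv (e : L ≃ₗ⁅F⁆ H) (k : ℕ) (h : LieAlgebra.derivedSeries F L k = ⊥) :
    LieAlgebra.derivedSeries F H k = ⊥ := by
  rw [← LieIdeal.derivedSeries_map_eq (f := e.toLieHom) k e.surjective, h]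
  rw [eq_bot_iff, LieIdeal.map_le_iff_le_comap]
  exact bot_le

theorem derivedLength_eq_of_equiv (e : L ≃ₗ⁅F⁆ H) :
    LieAlgebra.derivedLength F L = LieAlgebra.derivedLength F H := by
  have h : {k | LieAlgebra.derivedSeriesOfIdeal F L k ⊤ = ⊥} = {k | LieAlgebra.derivedSeriesOfIdeal F H k ⊤ = ⊥} := by
    ext k
    exact ⟨fun h => derivedSeries_bot_of_equiv e k h, fun h => derivedSeries_bot_of_equiv e.symm k h⟩
  unfold LieAlgebra.derivedLength LieAlgebra.derivedLengthOfIdeal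
  rw [h]

theorem isSolvable_of_equiv (e : L ≃ₗ⁅F⁆ H) [LieAlgebra.IsSolvable L] : LieAlgebra.IsSolvable H := by
  obtain ⟨k, hk⟩ := LieAlgebra.IsSolvable.solvable F L
  exact LieAlgebra.IsSolvable.mk (derivedSeries_bot_of_equiv e k hk)

/-- The homomorphism of enveloping algebras given by a homomorphism of Lie algebras. -/
def ueaMap (f : L →ₗ⁅F⁆ H) : UniversalEnvelopingAlgebra F L →ₐ[F] UniversalEnvelopingAlgebra F H :=
  UniversalEnvelopingAlgebra.lift F ((UniversalEnvelopingAlgebra.ι F : H →ₗ⁅F⁆ UniversalEnvelopingAlgebra F H).comp f)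

theorem ueaMap_iota (f : L →ₗ⁅F⁆ H) (x : L) :
    ueaMap f (UniversalEnvelopingAlgebra.ι F x) = UniversalEnvelopingAlgebra.ι F (f x) :=
  UniversalEnvelopingAlgebra.lift_ι_apply F _ x

theorem ueaMap_comp (f : L →ₗ⁅F⁆ H) (g : H →ₗ⁅F⁆ L) (h : ∀ x, g (f x) = x) :
    (ueaMap g).comp (ueaMap f) = AlgHom.id F _ := by
  refine UniversalEnvelopingAlgebra.hom_ext F (LieHom.ext fun x => ?_)
  show ueaMap g (ueaMap f (UniversalEnvelopingAlgebra.ι F x)) = UniversalEnvelopingAlgebra.ι F x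
  rw [ueaMap_iota, ueaMap_iota, h]

/-- Isomorphic Lie algebras have isomorphic enveloping algebras. -/
theorem uea_of_equiv (e : L ≃ₗ⁅F⁆ H) :
    Nonempty (UniversalEnvelopingAlgebra F L ≃ₐ[F] UniversalEnvelopingAlgebra F H) :=
  ⟨AlgEquiv.ofAlgHom (ueaMap e.toLieHom) (ueaMap e.symm.toLieHom)
    (ueaMap_comp _ _ fun x => e.apply_symm_apply x) (ueaMap_comp _ _ fun x => e.symm_apply_apply x)⟩

end MP_a5a771_alC
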