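import Pool.Agent.Lib.PBWB.Basis

/-!
# Symbols of the enveloping algebra of a solvable Lie algebra: definitions

`b` is a basis of the Lie algebra `L` with weights `wt`. The letters of weight `0` are a basis of `t = L / n`, the
letters of weight `1` a basis of `W = n / [n, n]`. `P = MvPolynomial I F`; `TT l` is multiplication by the part of
weight `0` of `l` plus the derivation `Ad l`, `MM p` multiplication by `p`; `BB` is the algebra generated by the
`TT l` and the `MM w`, `w ∈ W`. `tau rho` shifts the letters of weight `0` by `rho`.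
-/

set_option autoImplicit false

noncomputable section

open Module PBWB

namespace MP_a5a771_alC

attribute [local instance 100] LieRing.ofAssociativeRing

section

variable {F L I : Type*} [Field F] [LieRing L] [LieAlgebra F L] (b : Basis I F L) (wt : I → ℕ)

/-- The part of weight `0` of an element, as a linear polynomial. -/
def tl : L →ₗ[F] MvPolynomial I F := b.constr F fun i => if wt i = 0 then MvPolynomial.X i else 0

/-- The part of weight `1` of an element, as a linear polynomial. -/
def wl : L →ₗ[F] MvPolynomial I F := b.constr F fun i => if wt i = 1 then MvPolynomial.X i else 0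

/-- The derivation of the polynomial ring given by `ad l` on the letters of weight `1`. -/
def Ad (l : L) : Derivation F (MvPolynomial I F) (MvPolynomial I F) :=
  MvPolynomial.mkDerivation F fun j => if wt j = 1 then wl b wt ⁅l, b j⁆ else 0

/-- The symbol of the multiplication by `l`. -/
def TT (l : L) : Module.End F (MvPolynomial I F) :=
  LinearMap.mulLeft F (tl b wt l) + (Ad b wt l : MvPolynomial I F →ₗ[F] MvPolynomial I F)

/-- Multiplication by a polynomial. -/
def MM (p : MvPolynomial I F) : Module.End F (MvPolynomial I F) := LinearMap.mulLeft F p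

/-- The algebra of the symbols. -/
def BB : Subalgebra F (Module.End F (MvPolynomial I F)) :=
  Algebra.adjoin F (Set.range (TT b wt) ∪ Set.range fun l => MM (wl b wt l))

/-- The shift of the letters of weight `0` by a linear form. -/
def tau (rho : L →ₗ[F] F) : MvPolynomial I F →ₐ[F] MvPolynomial I F :=
  MvPolynomial.aeval fun i => if wt i = 0 then MvPolynomial.X i + MvPolynomial.C (rho (b i)) else MvPolynomial.X i

/-- The letters of weight `0` are replaced by `0`. -/
def ev0 (F : Type*) [Field F] : MvPolynomial I F →ₐ[F] MvPolynomial I F :=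
  MvPolynomial.aeval fun i => if wt i = 0 then 0 else MvPolynomial.X i

/-- The polynomials in the letters of weight `0`. -/
def PT (F : Type*) [Field F] : Subalgebra F (MvPolynomial I F) := MvPolynomial.supported F {i | wt i = 0}

/-- The linear polynomials in the letters of weight `1`. -/
def W0 : Submodule F (MvPolynomial I F) := LinearMap.range (wl b wt)

/-- The span of the products of linear polynomials in the letters of weight `1` and polynomials in the letters of
weight `0`. -/
def PW : Submodule F (MvPolynomial I F) :=
  Submodule.span F {p | ∃ w ∈ W0 b wt, ∃ q ∈ PT wt F, p = w * q}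

/-- The linear form is zero on the letters of positive weight. -/
def Kills (rho : L →ₗ[F] F) : Prop := ∀ i, wt i ≠ 0 → rho (b i) = 0

/-- `L / n` is abelian. -/
def HA : Prop := ∀ i j k, b.repr ⁅b i, b j⁆ k ≠ 0 → 1 ≤ wt k

/-- The polynomial is an eigenvector of all the derivations `Ad l`. -/
def IsEig (rho : L →ₗ[F] F) (q : MvPolynomial I F) : Prop := ∀ l, Ad b wt l q = rho l • q

/-- The elements of weight at least `a`. -/
def Gw (a : ℕ) : Submodule F L where
  carrier := {x | ∀ i, b.repr x i ≠ 0 → a ≤ wt i}
  add_mem' := by
    intro x y hx hy i hi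
    by_contra h
    apply hi
    rw [map_add, Finsupp.add_apply, not_ne_iff.1 fun h1 => h (hx i h1), not_ne_iff.1 fun h1 => h (hy i h1), add_zero]
  zero_mem' := by
    intro i hi
    simp at hi
  smul_mem' := by
    intro c x hx i hi
    by_contra h
    apply hi
    rw [map_smul, Finsupp.smul_apply, not_ne_iff.1 fun h1 => h (hx i h1), smul_zero]

/-- The symbol maps. -/
structure IsSym (sg : ℕ → UniversalEnvelopingAlgebra F L →ₗ[F] Module.End F (MvPolynomial I F)) : Prop where
  mul : ∀ {k l : ℕ} {u v : UniversalEnvelopingAlgebra F L}, u ∈ UG b wt k → v ∈ UG b wt l →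
    sg (k + l) (u * v) = sg k u * sg l v
  zero : ∀ {k : ℕ} {u : UniversalEnvelopingAlgebra F L}, u ∈ UG b wt (k + 1) → sg k u = 0
  mem : ∀ {k : ℕ} {u : UniversalEnvelopingAlgebra F L}, u ∈ UG b wt k → sg k u ∈ BB b wt
  one : sg 0 1 = 1
  iota0 : ∀ l : L, sg 0 (UniversalEnvelopingAlgebra.ι F l) = TT b wt l
  iota1 : ∀ l : L, l ∈ Gw b wt 1 → sg 1 (UniversalEnvelopingAlgebra.ι F l) = MM (wl b wt l)
  mem0 : ∀ u, sg 0 u 1 ∈ PT wt F
  inj0 : ∀ u, sg 0 u 1 = 0 → u ∈ UG b wt 1
  mem1 : ∀ u, u ∈ UG b wt 1 → sg 1 u 1 ∈ PW b wt
  inj1 : ∀ u, u ∈ UG b wt 1 → sg 1 u 1 = 0 → u ∈ UG b wt 2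

end

section

variable {F A : Type*} [Field F] [Ring A] [Algebra F A]

variable (F) in
/-- The commutator with `x`. -/
def dd (x : A) : A →ₗ[F] A := LinearMap.mulLeft F x - LinearMap.mulRight F x

theorem dd_apply (x y : A) : dd F x y = x * y - y * x := rfl

end

end MP_a5a771_alC
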