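import Pool.Agent.Lib.MP_a5a771_alC.Defs

/-!
# Elementary facts about the symbols
-/

set_option autoImplicit false

noncomputable section

open Module PBWB

namespace MP_a5a771_alC

attribute [local instance 100] LieRing.ofAssociativeRing

variable {F L I : Type*} [Field F] [LieRing L] [LieAlgebra F L] (b : Basis I F L) (wt : I → ℕ)

theorem tl_b (i : I) : tl b wt (b i) = if wt i = 0 then MvPolynomial.X i else 0 := by
  simp [tl]

theorem wl_b (i : I) : wl b wt (b i) = if wt i = 1 then MvPolynomial.X i else 0 := by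
  simp [wl]

theorem Ad_X (l : L) (j : I) : Ad b wt l (MvPolynomial.X j) = if wt j = 1 then wl b wt ⁅l, b j⁆ else 0 := by
  simp [Ad]

theorem TT_apply (l : L) (p : MvPolynomial I F) : TT b wt l p = tl b wt l * p + Ad b wt l p := rfl

theorem MM_apply (p q : MvPolynomial I F) : MM p q = p * q := rfl

theorem TT_one (l : L) : TT b wt l 1 = tl b wt l := by
  rw [TT_apply, mul_one, Derivation.map_one_eq_zero, add_zero]

theorem MM_mul (p q : MvPolynomial I F) : MM (p * q) = MM p * MM q := by
  refine LinearMap.ext fun r => ?_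
  simp [MM_apply, mul_assoc]

theorem MM_add (p q : MvPolynomial I F) : MM (p + q) = MM p + MM q := by
  refine LinearMap.ext fun r => ?_
  simp [MM_apply, add_mul]

theorem MM_sub (p q : MvPolynomial I F) : MM (p - q) = MM p - MM q := by
  refine LinearMap.ext fun r => ?_
  simp [MM_apply, sub_mul]

theorem MM_smul (c : F) (p : MvPolynomial I F) : MM (c • p) = c • MM p := by
  refine LinearMap.ext fun r => ?_
  simp [MM_apply]

theorem MM_one : MM (1 : MvPolynomial I F) = 1 := by
  refine LinearMap.ext fun r => ?_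
  simp [MM_apply]

theorem Ad_add (l l' : L) (p : MvPolynomial I F) : Ad b wt (l + l') p = Ad b wt l p + Ad b wt l' p := by
  have h : Ad b wt (l + l') = Ad b wt l + Ad b wt l' := by
    refine MvPolynomial.derivation_ext fun j => ?_
    rw [Derivation.add_apply, Ad_X, Ad_X, Ad_X]
    split_ifs
    · rw [add_lie, map_add]
    · rw [add_zero]
  rw [h, Derivation.add_apply]

theorem Ad_smul (c : F) (l : L) (p : MvPolynomial I F) : Ad b wt (c • l) p = c • Ad b wt l p := by
  have h : Ad b wt (c • l) = c • Ad b wt l := by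
    refine MvPolynomial.derivation_ext fun j => ?_
    rw [Derivation.smul_apply, Ad_X, Ad_X]
    split_ifs
    · rw [smul_lie, map_smul]
    · rw [smul_zero]
  rw [h, Derivation.smul_apply]

/-- The derivations are zero on the polynomials in the letters of weight `0`. -/
theorem Ad_PT (l : L) {q : MvPolynomial I F} (hq : q ∈ PT wt F) : Ad b wt l q = 0 := by
  have h : q ∈ Algebra.adjoin F (MvPolynomial.X '' {i : I | wt i = 0}) := by
    rw [← MvPolynomial.supported_eq_adjoin_X]
    exact hq
  clear hq
  induction h using Algebra.adjoin_induction with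
  | mem x hx =>
    obtain ⟨i, hi, rfl⟩ := hx
    rw [Ad_X, if_neg]
    intro h1
    rw [Set.mem_ofPred_eq] at hi
    omega
  | algebraMap r => exact Derivation.map_algebraMap _ r
  | add x y hx hy h1 h2 => rw [map_add, h1, h2, add_zero]
  | mul x y hx hy h1 h2 => rw [Derivation.leibniz, h1, h2, smul_zero, smul_zero, add_zero]

theorem tl_mem_PT (l : L) : tl b wt l ∈ PT wt F := by
  rw [← b.linearCombination_repr l, Finsupp.linearCombination_apply, Finsupp.sum, map_sum]
  refine sum_mem fun i _ => ?_
  rw [map_smul, tl_b]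
  refine Subalgebra.smul_mem _ ?_ _
  split_ifs with h
  · exact MvPolynomial.X_mem_supported.2 h
  · exact zero_mem _

theorem wl_mem_W0 (l : L) : wl b wt l ∈ W0 b wt := ⟨l, rfl⟩

theorem tau_tl {rho : L →ₗ[F] F} (hr : Kills b wt rho) (l : L) :
    tau b wt rho (tl b wt l) = tl b wt l + MvPolynomial.C (rho l) := by
  have h : (tau b wt rho).toLinearMap ∘ₗ tl b wt = tl b wt +
      (Algebra.linearMap F (MvPolynomial I F)) ∘ₗ rho := by
    refine b.ext fun i => ?_
    rw [LinearMap.comp_apply, LinearMap.add_apply, LinearMap.comp_apply, tl_b]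
    by_cases h : wt i = 0
    · simp [h, tau, MvPolynomial.algebraMap_eq]
    · simp [h, hr i h]
  exact congrArg (fun f => f l) h

theorem tau_wl (rho : L →ₗ[F] F) (l : L) : tau b wt rho (wl b wt l) = wl b wt l := by
  have h : (tau b wt rho).toLinearMap ∘ₗ wl b wt = wl b wt := by
    refine b.ext fun i => ?_
    rw [LinearMap.comp_apply, wl_b]
    by_cases h : wt i = 1
    · simp [h, tau]
    · simp [h]
  exact congrArg (fun f => f l) h

theorem tau_W0 (rho : L →ₗ[F] F) {w : MvPolynomial I F} (hw : w ∈ W0 b wt) : tau b wt rho w = w := by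
  obtain ⟨l, rfl⟩ := hw
  exact tau_wl b wt rho l

/-- The shifts commute with the derivations. -/
theorem Ad_tau (rho : L →ₗ[F] F) (l : L) (p : MvPolynomial I F) :
    Ad b wt l (tau b wt rho p) = tau b wt rho (Ad b wt l p) := by
  induction p using MvPolynomial.induction_on with
  | C a =>
    have h1 : (MvPolynomial.C a : MvPolynomial I F) = algebraMap F _ a := rfl
    rw [h1, AlgHom.commutes, Derivation.map_algebraMap, map_zero]
  | add p q hp hq => rw [map_add, map_add, map_add, map_add, hp, hq]
  | mul_X p i hp =>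
    rw [map_mul, Derivation.leibniz, Derivation.leibniz, hp, map_add, smul_eq_mul, smul_eq_mul, smul_eq_mul,
      smul_eq_mul, map_mul, map_mul]
    have h1 : Ad b wt l (tau b wt rho (MvPolynomial.X i)) = tau b wt rho (Ad b wt l (MvPolynomial.X i)) := by
      rw [Ad_X]
      by_cases h : wt i = 1
      · have h2 : tau b wt rho (MvPolynomial.X i) = (MvPolynomial.X i : MvPolynomial I F) := by simp [tau, h]
        rw [h2, Ad_X, if_pos h, tau_wl]
      · rw [if_neg h, map_zero]
        by_cases h0 : wt i = 0
        · have h2 : tau b wt rho (MvPolynomial.X i) =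
              (MvPolynomial.X i + MvPolynomial.C (rho (b i)) : MvPolynomial I F) := by simp [tau, h0]
          have h3 : (MvPolynomial.C (rho (b i)) : MvPolynomial I F) = algebraMap F _ (rho (b i)) := rfl
          rw [h2, map_add, Ad_X, if_neg h, h3, Derivation.map_algebraMap, add_zero]
        · have h2 : tau b wt rho (MvPolynomial.X i) = (MvPolynomial.X i : MvPolynomial I F) := by simp [tau, h0]
          rw [h2, Ad_X, if_neg h]
    rw [h1]

theorem tau_tau (rho rho' : L →ₗ[F] F) (p : MvPolynomial I F) :
    tau b wt rho (tau b wt rho' p) = tau b wt (rho + rho') p := by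
  have h : (tau b wt rho).comp (tau b wt rho') = tau b wt (rho + rho') := by
    refine MvPolynomial.algHom_ext fun i => ?_
    by_cases h : wt i = 0
    · simp only [AlgHom.comp_apply, tau, MvPolynomial.aeval_X, h, if_true, map_add, LinearMap.add_apply]
      have h3 : (MvPolynomial.C (rho' (b i)) : MvPolynomial I F) = algebraMap F _ (rho' (b i)) := rfl
      rw [h3, AlgHom.commutes]
      rw [← h3]
      ring
    · simp [tau, h]
  exact congrArg (fun f => f p) h

theorem tau_zero (p : MvPolynomial I F) : tau b wt 0 p = p := by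
  have h : tau b wt (0 : L →ₗ[F] F) = AlgHom.id F _ := by
    refine MvPolynomial.algHom_ext fun i => ?_
    simp [tau]
  rw [h, AlgHom.id_apply]

theorem tau_inj (rho : L →ₗ[F] F) : Function.Injective (tau b wt rho) := by
  intro p q h
  have h1 := congrArg (tau b wt (-rho)) h
  rwa [tau_tau, tau_tau, neg_add_cancel, tau_zero, tau_zero] at h1

theorem tau_C (rho : L →ₗ[F] F) (c : F) : tau b wt rho (MvPolynomial.C c) = MvPolynomial.C c :=
  AlgHom.commutes _ c

theorem tau_PT (rho : L →ₗ[F] F) {q : MvPolynomial I F} (hq : q ∈ PT wt F) : tau b wt rho q ∈ PT wt F := by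
  have h : q ∈ Algebra.adjoin F (MvPolynomial.X '' {i : I | wt i = 0}) := by
    rw [← MvPolynomial.supported_eq_adjoin_X]
    exact hq
  clear hq
  induction h using Algebra.adjoin_induction with
  | mem x hx =>
    obtain ⟨i, hi, rfl⟩ := hx
    rw [Set.mem_ofPred_eq] at hi
    have h2 : tau b wt rho (MvPolynomial.X i) =
      (MvPolynomial.X i + MvPolynomial.C (rho (b i)) : MvPolynomial I F) := by simp [tau, hi]
    rw [h2]
    exact add_mem (MvPolynomial.X_mem_supported.2 hi) (Subalgebra.algebraMap_mem _ _)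
  | algebraMap r =>
    rw [AlgHom.commutes]
    exact Subalgebra.algebraMap_mem _ _
  | add x y hx hy h1 h2 =>
    rw [map_add]
    exact add_mem h1 h2
  | mul x y hx hy h1 h2 =>
    rw [map_mul]
    exact mul_mem h1 h2

theorem Ad_W0 (l : L) {w : MvPolynomial I F} (hw : w ∈ W0 b wt) : Ad b wt l w ∈ W0 b wt := by
  obtain ⟨x, rfl⟩ := hw
  rw [← b.linearCombination_repr x, Finsupp.linearCombination_apply, Finsupp.sum, map_sum, map_sum]
  refine sum_mem fun i _ => ?_
  rw [map_smul, Derivation.map_smul, wl_b]
  refine Submodule.smul_mem _ _ ?_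
  split_ifs with h
  · rw [Ad_X, if_pos h]
    exact wl_mem_W0 b wt _
  · rw [map_zero]
    exact zero_mem _

theorem MM_mem_BB {w : MvPolynomial I F} (hw : w ∈ W0 b wt) : MM w ∈ BB b wt := by
  obtain ⟨l, rfl⟩ := hw
  exact Algebra.subset_adjoin (Or.inr ⟨l, rfl⟩)

theorem TT_mem_BB (l : L) : TT b wt l ∈ BB b wt := Algebra.subset_adjoin (Or.inl ⟨l, rfl⟩)

theorem IsEig_mul {r s : L →ₗ[F] F} {p q : MvPolynomial I F} (hp : IsEig b wt r p) (hq : IsEig b wt s q) :
    IsEig b wt (r + s) (p * q) := by
  intro l
  rw [Derivation.leibniz, hp l, hq l, LinearMap.add_apply, add_smul, smul_eq_mul, smul_eq_mul]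
  rw [mul_smul_comm, mul_smul_comm, mul_comm q p, add_comm]

theorem IsEig_tau (mu : L →ₗ[F] F) {r : L →ₗ[F] F} {p : MvPolynomial I F} (hp : IsEig b wt r p) :
    IsEig b wt r (tau b wt mu p) := by
  intro l
  rw [Ad_tau, hp l, map_smul]

theorem IsEig_sub {r : L →ₗ[F] F} {p q : MvPolynomial I F} (hp : IsEig b wt r p) (hq : IsEig b wt r q) :
    IsEig b wt r (p - q) := by
  intro l
  rw [map_sub, hp l, hq l, smul_sub]

theorem IsEig_PT {q : MvPolynomial I F} (hq : q ∈ PT wt F) : IsEig b wt 0 q := by
  intro l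
  rw [Ad_PT b wt l hq, LinearMap.zero_apply, zero_smul]

theorem IsEig_one : IsEig b wt 0 (1 : MvPolynomial I F) := IsEig_PT b wt (one_mem _)

/-- An eigenvalue system of a nonzero polynomial is zero on the letters of positive weight. -/
theorem Kills_of_IsEig (hwt : WOk b wt) {rho : L →ₗ[F] F} {q : MvPolynomial I F} (hq : q ≠ 0)
    (h : IsEig b wt rho q) : Kills b wt rho := by
  intro i hi
  have h1 : Ad b wt (b i) = 0 := by
    refine MvPolynomial.derivation_ext fun j => ?_
    rw [Ad_X, Derivation.zero_apply]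
    split_ifs with hj
    · have h2 : ∀ k, wt k = 1 → b.repr ⁅b i, b j⁆ k = 0 := by
        intro k hk
        by_contra h3
        have := hwt i j k h3
        omega
      rw [← b.linearCombination_repr ⁅b i, b j⁆, Finsupp.linearCombination_apply, Finsupp.sum, map_sum]
      refine Finset.sum_eq_zero fun k _ => ?_
      rw [map_smul, wl_b]
      split_ifs with hk
      · rw [h2 k hk, zero_smul]
      · rw [smul_zero]
    · rfl
  have h2 := h (b i)
  rw [h1, Derivation.zero_apply] at h2
  rcases smul_eq_zero.1 h2.symm with h3 | h3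
  · exact h3
  · exact absurd h3 hq

theorem ev0_W0 {w : MvPolynomial I F} (hw : w ∈ W0 b wt) : ev0 wt F w = w := by
  obtain ⟨l, rfl⟩ := hw
  have h : (ev0 wt F).toLinearMap ∘ₗ wl b wt = wl b wt := by
    refine b.ext fun i => ?_
    rw [LinearMap.comp_apply, wl_b]
    by_cases h : wt i = 1
    · simp [h, ev0]
    · simp [h]
  exact congrArg (fun f => f l) h

theorem ev0_PT {q : MvPolynomial I F} (hq : q ∈ PT wt F) : ∃ c : F, ev0 wt F q = MvPolynomial.C c := by
  have h : q ∈ Algebra.adjoin F (MvPolynomial.X '' {i : I | wt i = 0}) := by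
    rw [← MvPolynomial.supported_eq_adjoin_X]
    exact hq
  clear hq
  induction h using Algebra.adjoin_induction with
  | mem x hx =>
    obtain ⟨i, hi, rfl⟩ := hx
    rw [Set.mem_ofPred_eq] at hi
    exact ⟨0, by simp [ev0, hi]⟩
  | algebraMap r => exact ⟨r, AlgHom.commutes _ r⟩
  | add x y hx hy h1 h2 =>
    obtain ⟨c, hc⟩ := h1
    obtain ⟨d, hd⟩ := h2
    exact ⟨c + d, by rw [map_add, hc, hd, map_add]⟩
  | mul x y hx hy h1 h2 =>
    obtain ⟨c, hc⟩ := h1
    obtain ⟨d, hd⟩ := h2
    exact ⟨c * d, by rw [map_mul, hc, hd, map_mul]⟩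

theorem ev0_PW {p : MvPolynomial I F} (hp : p ∈ PW b wt) : ev0 wt F p ∈ W0 b wt := by
  induction hp using Submodule.span_induction with
  | mem x hx =>
    obtain ⟨w, hw, q, hq, rfl⟩ := hx
    obtain ⟨c, hc⟩ := ev0_PT wt hq
    rw [map_mul, hc, ev0_W0 b wt hw, mul_comm, ← MvPolynomial.smul_eq_C_mul]
    exact Submodule.smul_mem _ _ hw
  | zero => rw [map_zero]; exact zero_mem _
  | add x y _ _ hx hy => rw [map_add]; exact add_mem hx hy
  | smul c x _ hx => rw [map_smul]; exact Submodule.smul_mem _ _ hx

theorem W0_le_PW : W0 b wt ≤ PW b wt := fun w hw =>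
  Submodule.subset_span ⟨w, hw, 1, one_mem _, (mul_one w).symm⟩

theorem Ad_PW (l : L) {p : MvPolynomial I F} (hp : p ∈ PW b wt) : Ad b wt l p ∈ PW b wt := by
  induction hp using Submodule.span_induction with
  | mem x hx =>
    obtain ⟨w, hw, q, hq, rfl⟩ := hx
    rw [Derivation.leibniz, Ad_PT b wt l hq, smul_zero, zero_add, smul_eq_mul, mul_comm]
    exact Submodule.subset_span ⟨_, Ad_W0 b wt l hw, q, hq, rfl⟩
  | zero => rw [map_zero]; exact zero_mem _
  | add x y _ _ hx hy => rw [map_add]; exact add_mem hx hy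
  | smul c x _ hx => rw [Derivation.map_smul]; exact Submodule.smul_mem _ _ hx

theorem tau_PW (rho : L →ₗ[F] F) {p : MvPolynomial I F} (hp : p ∈ PW b wt) : tau b wt rho p ∈ PW b wt := by
  induction hp using Submodule.span_induction with
  | mem x hx =>
    obtain ⟨w, hw, q, hq, rfl⟩ := hx
    rw [map_mul, tau_W0 b wt rho hw]
    exact Submodule.subset_span ⟨_, hw, _, tau_PT b wt rho hq, rfl⟩
  | zero => rw [map_zero]; exact zero_mem _
  | add x y _ _ hx hy => rw [map_add]; exact add_mem hx hy
  | smul c x _ hx => rw [map_smul]; exact Submodule.smul_mem _ _ hx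

/-- Replacing the letters of weight `0` by `0` commutes with the derivations. -/
theorem Ad_ev0 (l : L) (p : MvPolynomial I F) : Ad b wt l (ev0 wt F p) = ev0 wt F (Ad b wt l p) := by
  induction p using MvPolynomial.induction_on with
  | C a =>
    have h1 : (MvPolynomial.C a : MvPolynomial I F) = algebraMap F _ a := rfl
    rw [h1, AlgHom.commutes, Derivation.map_algebraMap, map_zero]
  | add p q hp hq => rw [map_add, map_add, map_add, map_add, hp, hq]
  | mul_X p i hp =>
    rw [map_mul, Derivation.leibniz, Derivation.leibniz, hp, map_add, smul_eq_mul, smul_eq_mul, smul_eq_mul,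
      smul_eq_mul, map_mul, map_mul]
    have h1 : Ad b wt l (ev0 wt F (MvPolynomial.X i)) = ev0 wt F (Ad b wt l (MvPolynomial.X i)) := by
      rw [Ad_X]
      by_cases h : wt i = 1
      · have h2 : ev0 wt F (MvPolynomial.X i) = (MvPolynomial.X i : MvPolynomial I F) := by simp [ev0, h]
        rw [h2, Ad_X, if_pos h, ev0_W0 b wt (wl_mem_W0 b wt _)]
      · rw [if_neg h, map_zero]
        by_cases h0 : wt i = 0
        · have h2 : ev0 wt F (MvPolynomial.X i) = (0 : MvPolynomial I F) := by simp [ev0, h0]
          rw [h2, map_zero]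
        · have h2 : ev0 wt F (MvPolynomial.X i) = (MvPolynomial.X i : MvPolynomial I F) := by simp [ev0, h0]
          rw [h2, Ad_X, if_neg h]
    rw [h1]

theorem ev0_tau_sub (rho : L →ₗ[F] F) {p : MvPolynomial I F} (hp : ev0 wt F p = p) : tau b wt rho p = p := by
  have h : (tau b wt rho).comp (ev0 wt F) = ev0 wt F := by
    refine MvPolynomial.algHom_ext fun i => ?_
    by_cases h : wt i = 0
    · simp [ev0, tau, h]
    · simp [ev0, tau, h]
  rw [← hp]
  exact congrArg (fun f => f p) h

theorem ev0_ev0 (p : MvPolynomial I F) : ev0 wt F (ev0 wt F p) = ev0 wt F p := by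
  have h : (ev0 wt F).comp (ev0 wt F) = ev0 wt F := by
    refine MvPolynomial.algHom_ext fun i => ?_
    by_cases h : wt i = 0
    · simp [ev0, h]
    · simp [ev0, h]
  exact congrArg (fun f => f p) h

/-- The operators of `BB` on a product of a shifted polynomial and an eigenvector. -/
theorem tau_act {rho : L →ₗ[F] F} (hr : Kills b wt rho) {q : MvPolynomial I F} (hq : IsEig b wt rho q)
    {x : Module.End F (MvPolynomial I F)} (hx : x ∈ BB b wt) (p : MvPolynomial I F) :
    x (tau b wt rho p * q) = tau b wt rho (x p) * q := by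
  induction hx using Algebra.adjoin_induction generalizing p with
  | mem x hx =>
    rcases hx with ⟨l, rfl⟩ | ⟨l, rfl⟩
    · rw [TT_apply, TT_apply, Derivation.leibniz, hq l, Ad_tau, map_add, map_mul, tau_tl b wt hr, smul_eq_mul,
        smul_eq_mul, MvPolynomial.smul_eq_C_mul]
      ring
    · simp only [MM_apply, map_mul, tau_wl, mul_assoc]
  | algebraMap r =>
    rw [Module.algebraMap_end_apply, Module.algebraMap_end_apply, map_smul, smul_mul_assoc]
  | add x y _ _ hx hy => rw [LinearMap.add_apply, LinearMap.add_apply, hx, hy, map_add, add_mul]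
  | mul x y _ _ hx hy => rw [Module.End.mul_apply, Module.End.mul_apply, hy, hx]

/-- The operators of `BB` on an eigenvector. -/
theorem act_eig {rho : L →ₗ[F] F} (hr : Kills b wt rho) {q : MvPolynomial I F} (hq : IsEig b wt rho q)
    {x : Module.End F (MvPolynomial I F)} (hx : x ∈ BB b wt) : x q = tau b wt rho (x 1) * q := by
  have h := tau_act b wt hr hq hx 1
  rwa [map_one, one_mul] at h

/-- The operators of `BB` are linear over the polynomials in the letters of weight `0`. -/
theorem act_PT {q : MvPolynomial I F} (hq : q ∈ PT wt F) {x : Module.End F (MvPolynomial I F)} (hx : x ∈ BB b wt)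
    (p : MvPolynomial I F) : x (p * q) = x p * q := by
  have h := tau_act b wt (rho := 0) (fun i _ => by rw [LinearMap.zero_apply]) (IsEig_PT b wt hq) hx p
  rwa [tau_zero, tau_zero] at h

end MP_a5a771_alC
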