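import Pool.Agent.Lib.MP_a5a771_alC.E0

/-!
# Leaf E2: the operators are determined by their value at 1
-/

set_option autoImplicit false

noncomputable section

open Module PBWB

namespace MP_a5a771_alC

attribute [local instance 100] LieRing.ofAssociativeRing

variable {F L I : Type*} [Field F] [LieRing L] [LieAlgebra F L] [LinearOrder I] (b : Basis I F L) (wt : I → ℕ)

open scoped IsMulCommutative in
private theorem E2_theta {A : Type*} [Ring A] [Algebra F A] (f : I → A) (hf : ∀ i j, f i * f j = f j * f i) :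
    ∃ Θ : MvPolynomial I F →ₐ[F] A, ∀ i, Θ (MvPolynomial.X i) = f i := by
  haveI := Algebra.isMulCommutative_adjoin F (s := Set.range f) (by
    rintro _ ⟨i, rfl⟩ _ ⟨j, rfl⟩
    exact hf i j)
  let φ : MvPolynomial I F →ₐ[F] Algebra.adjoin F (Set.range f) :=
    MvPolynomial.aeval fun i => (⟨f i, Algebra.subset_adjoin ⟨i, rfl⟩⟩ : Algebra.adjoin F (Set.range f))
  refine ⟨(Algebra.adjoin F (Set.range f)).val.comp φ, fun i => ?_⟩
  rw [AlgHom.comp_apply]
  have h : φ (MvPolynomial.X i) = (⟨f i, Algebra.subset_adjoin ⟨i, rfl⟩⟩ : Algebra.adjoin F (Set.range f)) :=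
    MvPolynomial.aeval_X _ i
  rw [h]
  rfl

private theorem E2_span {a : ℕ} {x : L} (hx : x ∈ Gw b wt a) :
    x ∈ Submodule.span F (b '' {i | a ≤ wt i}) := by
  rw [b.mem_span_image]
  intro i hi
  exact hx i (Finsupp.mem_support_iff.1 hi)

private theorem E2_b_mem (a : ℕ) {i : I} (hi : a ≤ wt i) : b i ∈ Gw b wt a := by
  intro k hk
  rw [b.repr_self, Finsupp.single_apply] at hk
  by_cases h : i = k
  · rw [← h]
    exact hi
  · rw [if_neg h] at hk
    exact absurd rfl hk

private theorem E2_lie (hwt : WOk b wt) {a c : ℕ} {x y : L} (hx : x ∈ Gw b wt a) (hy : y ∈ Gw b wt c) :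
    ⁅x, y⁆ ∈ Gw b wt (a + c) := by
  have h1 := E2_span b wt hx
  have h2 := E2_span b wt hy
  clear hx hy
  induction h1 using Submodule.span_induction with
  | mem x hx =>
    obtain ⟨i, hi, rfl⟩ := hx
    induction h2 using Submodule.span_induction with
    | mem y hy =>
      obtain ⟨j, hj, rfl⟩ := hy
      rw [Set.mem_ofPred_eq] at hi hj
      intro k hk
      have := hwt i j k hk
      omega
    | zero => rw [lie_zero]; exact zero_mem _
    | add y z _ _ hy hz => rw [lie_add]; exact add_mem hy hz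
    | smul r y _ hy => rw [lie_smul]; exact Submodule.smul_mem _ _ hy
  | zero => rw [zero_lie]; exact zero_mem _
  | add x z _ _ hx hz => rw [add_lie]; exact add_mem hx hz
  | smul r x _ hx => rw [smul_lie]; exact Submodule.smul_mem _ _ hx

private theorem E2_wl {x : L} (hx : x ∈ Gw b wt 2) : wl b wt x = 0 := by
  have h1 := E2_span b wt hx
  clear hx
  induction h1 using Submodule.span_induction with
  | mem x hx =>
    obtain ⟨i, hi, rfl⟩ := hx
    rw [Set.mem_ofPred_eq] at hi
    rw [wl_b, if_neg (by omega)]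
  | zero => rw [map_zero]
  | add x y _ _ hx hy => rw [map_add, hx, hy, add_zero]
  | smul r x _ hx => rw [map_smul, hx, smul_zero]

private theorem E2_G0 (l : L) : l ∈ Gw b wt 0 := fun i _ => Nat.zero_le _

private theorem E2_Ad_wl (hwt : WOk b wt) (l : L) {x : L} (hx : x ∈ Gw b wt 1) :
    Ad b wt l (wl b wt x) = wl b wt ⁅l, x⁆ := by
  have h1 := E2_span b wt hx
  clear hx
  induction h1 using Submodule.span_induction with
  | mem x hx =>
    obtain ⟨k, hk, rfl⟩ := hx
    rw [Set.mem_ofPred_eq] at hk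
    rw [wl_b]
    by_cases h : wt k = 1
    · rw [if_pos h, Ad_X, if_pos h]
    · rw [if_neg h, map_zero]
      have h2 := E2_lie b wt hwt (E2_G0 b wt l) (E2_b_mem b wt 2 (i := k) (by omega))
      rw [Nat.zero_add] at h2
      rw [E2_wl b wt h2]
  | zero => rw [map_zero, map_zero, lie_zero, map_zero]
  | add x y _ _ hx hy => rw [map_add, map_add, hx, hy, lie_add, map_add]
  | smul r x _ hx => rw [map_smul, Derivation.map_smul, hx, lie_smul, map_smul]

private theorem E2_TT_zero (hwt : WOk b wt) {i : I} (hi : wt i ≠ 0) : TT b wt (b i) = 0 := by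
  have h1 : Ad b wt (b i) = 0 := by
    refine MvPolynomial.derivation_ext fun j => ?_
    rw [Ad_X, Derivation.zero_apply]
    split_ifs with hj
    · have h2 := E2_lie b wt hwt (E2_b_mem b wt 1 (i := i) (by omega)) (E2_b_mem b wt 1 (i := j) (by omega))
      exact E2_wl b wt h2
    · rfl
  refine LinearMap.ext fun p => ?_
  rw [TT_apply, tl_b, if_neg hi, h1, Derivation.zero_apply, zero_mul, add_zero, LinearMap.zero_apply]

private theorem E2_comm_Ad (hwt : WOk b wt) (hA : HA b wt) (i j : I) (p : MvPolynomial I F) :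
    Ad b wt (b i) (Ad b wt (b j) p) = Ad b wt (b j) (Ad b wt (b i) p) := by
  have h : ⁅Ad b wt (b i), Ad b wt (b j)⁆ = 0 := by
    refine MvPolynomial.derivation_ext fun k => ?_
    rw [Derivation.commutator_apply, Derivation.zero_apply, Ad_X, Ad_X]
    by_cases hk : wt k = 1
    · rw [if_pos hk, if_pos hk]
      have h1 : ⁅b j, b k⁆ ∈ Gw b wt 1 := by
        have := E2_lie b wt hwt (E2_G0 b wt (b j)) (E2_b_mem b wt 1 (i := k) (by omega))
        rwa [Nat.zero_add] at this
      have h2 : ⁅b i, b k⁆ ∈ Gw b wt 1 := by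
        have := E2_lie b wt hwt (E2_G0 b wt (b i)) (E2_b_mem b wt 1 (i := k) (by omega))
        rwa [Nat.zero_add] at this
      rw [E2_Ad_wl b wt hwt _ h1, E2_Ad_wl b wt hwt _ h2, ← map_sub]
      have h3 : ⁅b i, ⁅b j, b k⁆⁆ - ⁅b j, ⁅b i, b k⁆⁆ = ⁅⁅b i, b j⁆, b k⁆ := (lie_lie (b i) (b j) (b k)).symm
      rw [h3]
      have h4 : ⁅b i, b j⁆ ∈ Gw b wt 1 := fun m hm => hA i j m hm
      exact E2_wl b wt (E2_lie b wt hwt h4 (E2_b_mem b wt 1 (i := k) (by omega)))
    · rw [if_neg hk, if_neg hk, map_zero, map_zero, sub_zero]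
  have h1 := congrArg (fun D : Derivation F (MvPolynomial I F) (MvPolynomial I F) => D p) h
  simp only [Derivation.commutator_apply, Derivation.zero_apply] at h1
  exact sub_eq_zero.1 h1

private theorem E2_comm (hwt : WOk b wt) (hA : HA b wt) (i j : I) :
    TT b wt (b i) * TT b wt (b j) = TT b wt (b j) * TT b wt (b i) := by
  refine LinearMap.ext fun p => ?_
  rw [Module.End.mul_apply, Module.End.mul_apply, TT_apply, TT_apply, TT_apply, TT_apply, map_add, map_add,
    Derivation.leibniz, Derivation.leibniz, Ad_PT b wt _ (tl_mem_PT b wt _), Ad_PT b wt _ (tl_mem_PT b wt _),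
    E2_comm_Ad b wt hwt hA i j p]
  simp only [smul_eq_mul, mul_zero, add_zero]
  ring

private theorem E2_TT_MM (l : L) (r : MvPolynomial I F) :
    TT b wt l * MM r = MM r * TT b wt l + MM (Ad b wt l r) := by
  refine LinearMap.ext fun p => ?_
  rw [Module.End.mul_apply, LinearMap.add_apply, Module.End.mul_apply, MM_apply, MM_apply, MM_apply, TT_apply,
    TT_apply, Derivation.leibniz, smul_eq_mul, smul_eq_mul]
  ring

/-- the polynomials in the letters of positive weight -/
private def E2_R (wt : I → ℕ) (F : Type*) [Field F] : Subalgebra F (MvPolynomial I F) :=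
  Algebra.adjoin F (MvPolynomial.X '' {i : I | wt i ≠ 0})

private theorem E2_X_mem {j : I} (hj : wt j ≠ 0) : (MvPolynomial.X j : MvPolynomial I F) ∈ E2_R wt F :=
  Algebra.subset_adjoin ⟨j, hj, rfl⟩

private theorem E2_wl_mem (l : L) : wl b wt l ∈ E2_R wt F := by
  rw [← b.linearCombination_repr l, Finsupp.linearCombination_apply, Finsupp.sum, map_sum]
  refine sum_mem fun i _ => ?_
  rw [map_smul, wl_b]
  refine Subalgebra.smul_mem _ ?_ _
  split_ifs with h
  · exact E2_X_mem wt (by omega)
  · exact zero_mem _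

private theorem E2_Ad_mem (l : L) {r : MvPolynomial I F} (hr : r ∈ E2_R wt F) : Ad b wt l r ∈ E2_R wt F := by
  unfold E2_R at hr
  induction hr using Algebra.adjoin_induction with
  | mem x hx =>
    obtain ⟨i, hi, rfl⟩ := hx
    rw [Ad_X]
    split_ifs
    · exact E2_wl_mem b wt _
    · exact zero_mem _
  | algebraMap c => rw [Derivation.map_algebraMap]; exact zero_mem _
  | add x y hx hy h1 h2 => rw [map_add]; exact add_mem h1 h2
  | mul x y hx hy h1 h2 =>
    rw [Derivation.leibniz, smul_eq_mul, smul_eq_mul]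
    exact add_mem (mul_mem hx h2) (mul_mem hy h1)

/-- the operator with the value `p` at `1` -/
private def E2_Op (Θ : MvPolynomial I F →ₐ[F] Module.End F (MvPolynomial I F)) :
    MvPolynomial I F →ₗ[F] Module.End F (MvPolynomial I F) :=
  (MvPolynomial.basisMonomials I F).constr F fun a =>
    MM (MvPolynomial.monomial (a.filter fun i => wt i ≠ 0) 1) *
      Θ (MvPolynomial.monomial (a.filter fun i => wt i = 0) 1)

private theorem E2_Op_mon (Θ : MvPolynomial I F →ₐ[F] Module.End F (MvPolynomial I F)) (a : I →₀ ℕ) :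
    E2_Op wt Θ (MvPolynomial.monomial a 1) =
      MM (MvPolynomial.monomial (a.filter fun i => wt i ≠ 0) 1) *
        Θ (MvPolynomial.monomial (a.filter fun i => wt i = 0) 1) := by
  have h := (MvPolynomial.basisMonomials I F).constr_basis F (fun a : I →₀ ℕ =>
    MM (MvPolynomial.monomial (a.filter fun i => wt i ≠ 0) 1) *
      Θ (MvPolynomial.monomial (a.filter fun i => wt i = 0) 1)) a
  rw [MvPolynomial.coe_basisMonomials] at h
  exact h

private theorem E2_ext {M : Type*} [AddCommMonoid M] [Module F M] {f g : MvPolynomial I F →ₗ[F] M}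
    (h : ∀ a : I →₀ ℕ, f (MvPolynomial.monomial a 1) = g (MvPolynomial.monomial a 1)) : f = g := by
  refine (MvPolynomial.basisMonomials I F).ext fun a => ?_
  rw [MvPolynomial.coe_basisMonomials]
  exact h a

private theorem E2_Op_X (Θ : MvPolynomial I F →ₐ[F] Module.End F (MvPolynomial I F)) {j : I} (hj : wt j ≠ 0)
    (p : MvPolynomial I F) : E2_Op wt Θ (MvPolynomial.X j * p) = MM (MvPolynomial.X j) * E2_Op wt Θ p := by
  have h : E2_Op wt Θ ∘ₗ LinearMap.mulLeft F (MvPolynomial.X j) =
      LinearMap.mulLeft F (MM (MvPolynomial.X j)) ∘ₗ E2_Op wt Θ := by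
    refine E2_ext fun a => ?_
    rw [LinearMap.comp_apply, LinearMap.comp_apply, LinearMap.mulLeft_apply, LinearMap.mulLeft_apply]
    have h1 : (MvPolynomial.X j * MvPolynomial.monomial a 1 : MvPolynomial I F) =
        MvPolynomial.monomial (Finsupp.single j 1 + a) 1 := by
      rw [MvPolynomial.X, MvPolynomial.monomial_mul, one_mul]
    have e1 : (Finsupp.single j 1 : I →₀ ℕ).filter (fun i => wt i ≠ 0) = Finsupp.single j 1 :=
      Finsupp.filter_single_of_pos _ hj
    have e2 : (Finsupp.single j 1 : I →₀ ℕ).filter (fun i => wt i = 0) = 0 :=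
      Finsupp.filter_single_of_neg _ hj
    rw [h1, E2_Op_mon, E2_Op_mon, Finsupp.filter_add, Finsupp.filter_add, e1, e2, zero_add, ← mul_assoc,
      ← MM_mul]
    congr 2
    rw [MvPolynomial.X, MvPolynomial.monomial_mul, one_mul]
  exact congrArg (fun f => f p) h

private theorem E2_Op_R (Θ : MvPolynomial I F →ₐ[F] Module.End F (MvPolynomial I F)) {r : MvPolynomial I F}
    (hr : r ∈ E2_R wt F) (p : MvPolynomial I F) : E2_Op wt Θ (r * p) = MM r * E2_Op wt Θ p := by
  unfold E2_R at hr
  induction hr using Algebra.adjoin_induction generalizing p with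
  | mem x hx =>
    obtain ⟨i, hi, rfl⟩ := hx
    exact E2_Op_X wt Θ hi p
  | algebraMap c =>
    have h1 : algebraMap F (MvPolynomial I F) c = c • 1 := Algebra.algebraMap_eq_smul_one c
    rw [h1, smul_mul_assoc, one_mul, map_smul, MM_smul, MM_one, smul_mul_assoc, one_mul]
  | add x y hx hy h1 h2 => rw [add_mul, map_add, h1, h2, MM_add, add_mul]
  | mul x y hx hy h1 h2 => rw [mul_assoc, h1, h2, MM_mul, mul_assoc]

private theorem E2_Op_T (Θ : MvPolynomial I F →ₐ[F] Module.End F (MvPolynomial I F)) (a : I →₀ ℕ) :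
    E2_Op wt Θ (MvPolynomial.monomial (a.filter fun i => wt i = 0) 1) =
      Θ (MvPolynomial.monomial (a.filter fun i => wt i = 0) 1) := by
  rw [E2_Op_mon]
  have h1 : (a.filter fun i => wt i = 0).filter (fun i => wt i ≠ 0) = 0 := by
    rw [Finsupp.filter_eq_zero_iff]
    intro i hi
    exact Finsupp.filter_apply_neg (fun i => wt i = 0) a hi
  have h2 : (a.filter fun i => wt i = 0).filter (fun i => wt i = 0) = a.filter fun i => wt i = 0 := by
    rw [Finsupp.filter_eq_self_iff]
    intro i hi
    by_contra h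
    exact hi (Finsupp.filter_apply_neg (fun i => wt i = 0) a h)
  have h3 : (MvPolynomial.monomial (0 : I →₀ ℕ) 1 : MvPolynomial I F) = 1 := rfl
  rw [h1, h2, h3, MM_one, one_mul]

private theorem E2_Op_TT (Θ : MvPolynomial I F →ₐ[F] Module.End F (MvPolynomial I F))
    (hΘ : ∀ i, Θ (MvPolynomial.X i) = TT b wt (b i)) {i : I} (hi : wt i = 0) (p : MvPolynomial I F) :
    TT b wt (b i) * E2_Op wt Θ p = E2_Op wt Θ (TT b wt (b i) p) := by
  have h : LinearMap.mulLeft F (TT b wt (b i)) ∘ₗ E2_Op wt Θ = E2_Op wt Θ ∘ₗ TT b wt (b i) := by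
    refine E2_ext fun a => ?_
    rw [LinearMap.comp_apply, LinearMap.comp_apply, LinearMap.mulLeft_apply, TT_apply, tl_b, if_pos hi]
    obtain ⟨r, hr⟩ : ∃ r : MvPolynomial I F, r = MvPolynomial.monomial (a.filter fun i => wt i ≠ 0) 1 := ⟨_, rfl⟩
    obtain ⟨s, hs⟩ : ∃ s : MvPolynomial I F, s = MvPolynomial.monomial (a.filter fun i => wt i = 0) 1 := ⟨_, rfl⟩
    have hrs : (MvPolynomial.monomial a 1 : MvPolynomial I F) = r * s := by
      have e1 : (a.filter fun i => wt i ≠ 0) + (a.filter fun i => wt i = 0) = a := by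
        rw [add_comm]
        exact Finsupp.filter_pos_add_filter_neg a fun i => wt i = 0
      rw [hr, hs, MvPolynomial.monomial_mul, one_mul, e1]
    have hrR : r ∈ E2_R wt F := by
      rw [hr, MvPolynomial.monomial_eq, map_one, one_mul, Finsupp.prod]
      refine prod_mem fun k hk => pow_mem (E2_X_mem wt ?_) _
      rw [Finsupp.support_filter, Finset.mem_filter] at hk
      exact hk.2
    have hsT : s ∈ PT wt F := by
      rw [hs, MvPolynomial.monomial_eq, map_one, one_mul, Finsupp.prod]
      refine prod_mem fun k hk => pow_mem (MvPolynomial.X_mem_supported.2 ?_) _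
      rw [Finsupp.support_filter, Finset.mem_filter] at hk
      exact hk.2
    have hOs : E2_Op wt Θ s = Θ s := by
      rw [hs]
      exact E2_Op_T wt Θ a
    have hOXs : E2_Op wt Θ (MvPolynomial.X i * s) = Θ (MvPolynomial.X i * s) := by
      have h1 : (MvPolynomial.X i * s : MvPolynomial I F) =
          MvPolynomial.monomial ((Finsupp.single i 1 + a).filter fun i => wt i = 0) 1 := by
        have e1 : (Finsupp.single i 1 : I →₀ ℕ).filter (fun i => wt i = 0) = Finsupp.single i 1 :=
          Finsupp.filter_single_of_pos _ hi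
        rw [hs, MvPolynomial.X, MvPolynomial.monomial_mul, one_mul, Finsupp.filter_add, e1]
      rw [h1]
      exact E2_Op_T wt Θ _
    have hX : MvPolynomial.X i * (r * s) = r * (MvPolynomial.X i * s) := by ring
    rw [hrs, Derivation.leibniz, Ad_PT b wt _ hsT, smul_zero, zero_add, smul_eq_mul, mul_comm s, hX, map_add,
      E2_Op_R wt Θ hrR, E2_Op_R wt Θ hrR, E2_Op_R wt Θ (E2_Ad_mem b wt _ hrR), hOs, hOXs, map_mul, hΘ,
      ← mul_assoc, E2_TT_MM, add_mul, mul_assoc]
  exact congrArg (fun f => f p) h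

private theorem E2_TT_lin (l l' : L) : TT b wt (l + l') = TT b wt l + TT b wt l' := by
  refine LinearMap.ext fun p => ?_
  rw [LinearMap.add_apply, TT_apply, TT_apply, TT_apply, map_add, Ad_add]
  ring

private theorem E2_TT_smul (c : F) (l : L) : TT b wt (c • l) = c • TT b wt l := by
  refine LinearMap.ext fun p => ?_
  rw [LinearMap.smul_apply, TT_apply, TT_apply, map_smul, Ad_smul, smul_add, smul_mul_assoc]

/-- An operator of `BB` which is zero on `1` is zero.
Proof. `TT (b i) = 0` for `wt i ≠ 0` (by `hwt`), and the `TT (b i)`, `wt i = 0`, commute: `tl ⁅b i, b j⁆ = 0` by `hA`,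
`Ad (b i) (tl (b j)) = 0`, and `Ad (b i)`, `Ad (b j)` commute on the letters of weight 1: by the Jacobi identity the commutator is
`wl ⁅⁅b i, b j⁆, b k⁆` plus terms `wl` of brackets of elements of weight at least 1 with `b k`, and these are zero, because `⁅b i, b j⁆` has
weight at least 1 (`hA`) and so `⁅⁅b i, b j⁆, b k⁆` weight at least 2 (`hwt`); careful: `Ad l (wl x) = wl ⁅l, x⁆` for `x` in `Gw 1`.
Let `Op : P →ₗ[F] End P` be the linear map which sends the monomial `X ^ a` to `MM (prod over wt i ≠ 0 of X i ^ a i)` times the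
product of the `TT (b i)` over the sorted list of the multiset of the letters of weight 0 of `a` (for words use
`List.Perm.prod_eq'`). Then `MM (X j) * Op p = Op (X j * p)` for `wt j ≠ 0`, `TT (b i) * Op p = Op (X i * p + Ad (b i) p)` for
`wt i = 0` (`TT l * MM r = MM r * TT l + MM (Ad l r)` for `r` without letters of weight 0), `Op 1 = 1`, hence
`x * Op p = Op (x p)` for all `x ∈ BB` (adjoin_induction), and `x = x * Op 1 = Op (x 1) = 0`. -/
theorem BB_inj (hwt : WOk b wt) (hA : HA b wt) {x : Module.End F (MvPolynomial I F)} (hx : x ∈ BB b wt)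
    (h : x 1 = 0) : x = 0 := by
  obtain ⟨Θ, hΘ⟩ := E2_theta (F := F) (fun i => TT b wt (b i)) (E2_comm b wt hwt hA)
  have hTT : ∀ l : L, ∀ p, TT b wt l * E2_Op wt Θ p = E2_Op wt Θ (TT b wt l p) := by
    intro l
    have hl : l ∈ Submodule.span F (Set.range b) := by
      rw [b.span_eq]
      exact Submodule.mem_top
    induction hl using Submodule.span_induction with
    | mem y hy =>
      obtain ⟨i, rfl⟩ := hy
      intro p
      by_cases hi : wt i = 0
      · exact E2_Op_TT b wt Θ hΘ hi p
      · rw [E2_TT_zero b wt hwt hi, zero_mul, LinearMap.zero_apply, map_zero]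
    | zero =>
      intro p
      have h0 : TT b wt (0 : L) = 0 := by
        have h1 := E2_TT_smul b wt (0 : F) (0 : L)
        rwa [zero_smul, zero_smul] at h1
      rw [h0, zero_mul, LinearMap.zero_apply, map_zero]
    | add y z _ _ hy hz =>
      intro p
      rw [E2_TT_lin, add_mul, hy, hz, LinearMap.add_apply, map_add]
    | smul c y _ hy =>
      intro p
      rw [E2_TT_smul, smul_mul_assoc, hy, LinearMap.smul_apply, map_smul]
  have key : ∀ p, x * E2_Op wt Θ p = E2_Op wt Θ (x p) := by
    clear h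
    unfold BB at hx
    induction hx using Algebra.adjoin_induction with
    | mem y hy =>
      rcases hy with ⟨l, rfl⟩ | ⟨l, rfl⟩
      · exact hTT l
      · intro p
        rw [MM_apply, E2_Op_R wt Θ (E2_wl_mem b wt l)]
    | algebraMap c =>
      intro p
      rw [Module.algebraMap_end_apply, map_smul, Algebra.algebraMap_eq_smul_one, smul_mul_assoc, one_mul]
    | add y z _ _ hy hz =>
      intro p
      rw [add_mul, hy, hz, LinearMap.add_apply, map_add]
    | mul y z _ _ hy hz =>
      intro p
      rw [mul_assoc, hz, hy, Module.End.mul_apply]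
  have h1 : E2_Op wt Θ 1 = 1 := by
    have h2 := E2_Op_T (F := F) wt Θ 0
    rw [Finsupp.filter_zero] at h2
    have h3 : (MvPolynomial.monomial (0 : I →₀ ℕ) 1 : MvPolynomial I F) = 1 := rfl
    rw [h3, map_one Θ] at h2
    exact h2
  have h2 := key 1
  rw [h1, mul_one, h, map_zero] at h2
  exact h2

end MP_a5a771_alC
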