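import Pool.Agent.Lib.MP_a5a771_alC.E0

/-!
# Leaf E3
-/

set_option autoImplicit false

noncomputable section

open Module PBWB

namespace MP_a5a771_alC

attribute [local instance 100] LieRing.ofAssociativeRing

variable {F L I : Type*} [Field F] [LieRing L] [LieAlgebra F L] (b : Basis I F L) (wt : I → ℕ)

private theorem E3_neg (x : Module.End F (MvPolynomial I F)) (j : ℕ) (p : MvPolynomial I F) :
    ((-x) ^ j) p = (-1) ^ j * (x ^ j) p := by
  induction j generalizing p with
  | zero => rw [pow_zero, pow_zero, pow_zero, one_mul, Module.End.one_apply]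
  | succ j ih =>
    rw [pow_succ, Module.End.mul_apply, LinearMap.neg_apply, ih, map_neg, pow_succ x j, Module.End.mul_apply, pow_succ]
    ring

private theorem E3_dd {A : Type*} [Ring A] [Algebra F A] (x y : A) (m : ℕ) :
    (dd F x ^ m) y = ∑ j ∈ Finset.range (m + 1), (m.choose j) • (x ^ (m - j) * y * (-x) ^ j) := by
  have h : dd F x = LinearMap.mulRight F (-x) + LinearMap.mulLeft F x := by
    refine LinearMap.ext fun z => ?_
    rw [dd_apply, LinearMap.add_apply, LinearMap.mulRight_apply, LinearMap.mulLeft_apply, mul_neg]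
    abel
  have hc : Commute (LinearMap.mulRight F (-x)) (LinearMap.mulLeft F x) := by
    refine LinearMap.ext fun z => ?_
    rw [Module.End.mul_apply, Module.End.mul_apply, LinearMap.mulRight_apply, LinearMap.mulLeft_apply,
      LinearMap.mulRight_apply, LinearMap.mulLeft_apply, mul_assoc]
  rw [h, hc.add_pow, LinearMap.sum_apply]
  refine Finset.sum_congr rfl fun j _ => ?_
  rw [LinearMap.pow_mulRight, LinearMap.pow_mulLeft, Module.End.mul_apply, Module.End.mul_apply,
    Module.End.natCast_apply, LinearMap.mulRight_apply, LinearMap.mulLeft_apply, mul_smul_comm, smul_mul_assoc]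

private theorem E3_nsmul {s : L →ₗ[F] F} (hs : Kills b wt s) (k : ℕ) : Kills b wt (k • s) := by
  intro i hi
  rw [LinearMap.smul_apply, hs i hi, smul_zero]

private theorem E3_add {s t : L →ₗ[F] F} (hs : Kills b wt s) (ht : Kills b wt t) : Kills b wt (s + t) := by
  intro i hi
  rw [LinearMap.add_apply, hs i hi, ht i hi, add_zero]

private theorem E3_pow {s t : L →ₗ[F] F} (hs : Kills b wt s) (ht : Kills b wt t)
    {x : Module.End F (MvPolynomial I F)} (hx : x ∈ BB b wt) (hY : IsEig b wt s (x 1))
    {q : MvPolynomial I F} (hq : IsEig b wt t q) (k : ℕ) :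
    (x ^ k) q = q * ∏ i ∈ Finset.range k, tau b wt (t + i • s) (x 1) ∧ IsEig b wt (t + k • s) ((x ^ k) q) := by
  induction k with
  | zero =>
    rw [pow_zero, Finset.range_zero, Finset.prod_empty, mul_one, zero_smul, add_zero]
    exact ⟨rfl, hq⟩
  | succ k ih =>
    obtain ⟨h1, h2⟩ := ih
    have h3 : (x ^ (k + 1)) q = tau b wt (t + k • s) (x 1) * (x ^ k) q := by
      rw [pow_succ', Module.End.mul_apply]
      exact act_eig b wt (E3_add b wt ht (E3_nsmul b wt hs k)) h2 hx
    refine ⟨?_, ?_⟩
    · rw [h3, h1, Finset.prod_range_succ]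
      ring
    · rw [h3]
      have h4 := IsEig_mul b wt (IsEig_tau b wt (t + k • s) hY) h2
      have h5 : s + (t + k • s) = t + (k + 1) • s := by
        rw [add_smul, one_smul]
        abel
      rwa [h5] at h4

/-- The values of the iterated commutators at `1`.
Proof. `(dd x ^ m) y = ∑ j, (-1)^j * choose m j * x^(m-j) * y * x^j` (`mulLeft` and `mulRight` commute:
`Commute.add_pow` / `Commute.sub_pow`, or induction on `m`). By `act_eig` and induction `(x^j) 1 = ∏ i < j, tau (i • s) (x 1)`, an
eigenvector for `j • s` (`IsEig_mul`, `IsEig_tau`), and `(x^k) r = r * ∏ i < k, tau (t + i • s) (x 1)` for an eigenvector `r` for `t`. -/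
theorem dd_pow_apply_one {s r : L →ₗ[F] F} (hs : Kills b wt s) (hr : Kills b wt r)
    {x : Module.End F (MvPolynomial I F)} (hx : x ∈ BB b wt) (hY : IsEig b wt s (x 1))
    {v : MvPolynomial I F} (hv : IsEig b wt r v) (m : ℕ) :
    ((dd F x ^ m) (MM v)) 1 = v * ∑ j ∈ Finset.range (m + 1), (-1) ^ j * (m.choose j : MvPolynomial I F) *
      ((∏ i ∈ Finset.range (m - j), tau b wt (r + (j + i) • s) (x 1)) *
        ∏ i ∈ Finset.range j, tau b wt (i • s) (x 1)) := by
  have hsign : ∀ (f : Module.End F (MvPolynomial I F)) (j : ℕ) (z : MvPolynomial I F),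
      f ((-1) ^ j * z) = (-1) ^ j * f z := by
    intro f j z
    rcases neg_one_pow_eq_or (MvPolynomial I F) j with h | h
    · rw [h, one_mul, one_mul]
    · rw [h, neg_one_mul, neg_one_mul, map_neg]
  rw [E3_dd, LinearMap.sum_apply, Finset.mul_sum]
  refine Finset.sum_congr rfl fun j _ => ?_
  obtain ⟨h1, h2⟩ := E3_pow b wt hs (t := 0) (fun i _ => LinearMap.zero_apply _) hx hY (IsEig_one b wt) j
  rw [one_mul] at h1
  rw [zero_add] at h2
  have h3 := IsEig_mul b wt hv h2
  obtain ⟨h4, -⟩ := E3_pow b wt hs (E3_add b wt hr (E3_nsmul b wt hs j)) hx hY h3 (m - j)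
  have h5 : ∏ i ∈ Finset.range (m - j), tau b wt (r + j • s + i • s) (x 1) =
      ∏ i ∈ Finset.range (m - j), tau b wt (r + (j + i) • s) (x 1) := by
    refine Finset.prod_congr rfl fun i _ => ?_
    rw [add_smul, add_assoc]
  have h6 : ∏ i ∈ Finset.range j, tau b wt (0 + i • s) (x 1) =
      ∏ i ∈ Finset.range j, tau b wt (i • s) (x 1) := by
    refine Finset.prod_congr rfl fun i _ => ?_
    rw [zero_add]
  rw [h5] at h4
  rw [h6] at h1
  rw [LinearMap.smul_apply, Module.End.mul_apply, Module.End.mul_apply, E3_neg, MM_apply, mul_left_comm v, hsign,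
    h4, h1, nsmul_eq_mul]
  ring

end MP_a5a771_alC
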