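import Pool.Agent.Lib.MP_a5a771_alC.E0

/-!
# Leaf E4
-/

set_option autoImplicit false

noncomputable section

open Module PBWB

namespace MP_a5a771_alC

attribute [local instance 100] LieRing.ofAssociativeRing

variable {F L I : Type*} [Field F] [CharZero F] [LieRing L] [LieAlgebra F L] [Fintype I] (b : Basis I F L)
  (wt : I → ℕ)

omit [CharZero F] [Fintype I] in
/-- The shift by `c • mu` is a polynomial in `c`. -/
private theorem E4_poly (mu : L →ₗ[F] F) : ∃ Th : MvPolynomial I F →ₐ[F] Polynomial (MvPolynomial I F),
    ∀ (c : F) (p : MvPolynomial I F), Polynomial.eval (MvPolynomial.C c) (Th p) = tau b wt (c • mu) p := by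
  refine ⟨MvPolynomial.aeval fun i => if wt i = 0 then
    Polynomial.C (MvPolynomial.X i) + Polynomial.C (MvPolynomial.C (mu (b i))) * Polynomial.X
    else Polynomial.C (MvPolynomial.X i), fun c p => ?_⟩
  have h : ((Polynomial.aeval (MvPolynomial.C c : MvPolynomial I F) :
      Polynomial (MvPolynomial I F) →ₐ[MvPolynomial I F] MvPolynomial I F).restrictScalars F).comp
      (MvPolynomial.aeval fun i => if wt i = 0 then
    Polynomial.C (MvPolynomial.X i) + Polynomial.C (MvPolynomial.C (mu (b i))) * Polynomial.X
    else Polynomial.C (MvPolynomial.X i) : MvPolynomial I F →ₐ[F] Polynomial (MvPolynomial I F)) =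
      tau b wt (c • mu) := by
    refine MvPolynomial.algHom_ext fun i => ?_
    by_cases h0 : wt i = 0
    · rw [AlgHom.comp_apply, MvPolynomial.aeval_X, if_pos h0, tau, MvPolynomial.aeval_X, if_pos h0,
        AlgHom.restrictScalars_apply, map_add, map_mul, Polynomial.aeval_C, Polynomial.aeval_C, Polynomial.aeval_X,
        LinearMap.smul_apply, smul_eq_mul, map_mul, mul_comm (MvPolynomial.C c)]
      rfl
    · rw [AlgHom.comp_apply, MvPolynomial.aeval_X, if_neg h0, tau, MvPolynomial.aeval_X, if_neg h0,
        AlgHom.restrictScalars_apply, Polynomial.aeval_C]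
      rfl
  exact congrArg (fun f => f p) h

omit [Fintype I] in
/-- A polynomial invariant under a shift is invariant under its multiples. -/
private theorem E4_smul (mu : L →ₗ[F] F) (p : MvPolynomial I F) (h : tau b wt mu p = p) (c : F) :
    tau b wt (c • mu) p = p := by
  obtain ⟨Th, hTh⟩ := E4_poly b wt mu
  have hn : ∀ n : ℕ, tau b wt ((n : F) • mu) p = p := by
    intro n
    induction n with
    | zero => rw [Nat.cast_zero, zero_smul, tau_zero]
    | succ n ih => rw [Nat.cast_succ, add_smul, one_smul, ← tau_tau, h, ih]
  have hz : Th p - Polynomial.C p = 0 := by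
    refine Polynomial.eq_zero_of_infinite_isRoot _ ?_
    refine Set.Infinite.mono (s := Set.range fun n : ℕ => (MvPolynomial.C (n : F) : MvPolynomial I F)) ?_ ?_
    · rintro _ ⟨n, rfl⟩
      change Polynomial.IsRoot _ _
      rw [Polynomial.IsRoot.def, Polynomial.eval_sub, hTh, Polynomial.eval_C, hn, sub_self]
    · refine Set.infinite_range_of_injective fun m n hmn => ?_
      exact Nat.cast_injective (MvPolynomial.C_injective I F hmn)
  have h2 : Th p = Polynomial.C p := sub_eq_zero.1 hz
  rw [← hTh, h2, Polynomial.eval_C]

/-- A polynomial which is invariant under shifts which separate the elements of `L / n` does not contain the letters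
of weight `0`.
Proof. (1) for `c : F`, `mu ∈ S`, `tau (c • mu) p = p`: the map `c ↦ tau (c • mu) p - p` is given by a polynomial in `c` over `P`
(as in `step1a`: `P → P[X]`), zero at all natural numbers (`tau_tau`), hence zero. (2) the set of the `rho` with `tau rho p = p` is
closed under addition, so it contains the span of `S`. (3) every `rho` with `Kills b wt rho` is in the span of `S`: otherwise there is
`l : L` with `mu l = 0` for all `mu ∈ S` and `rho l ≠ 0` (double annihilator in finite dimension, e.g.
`Subspace.dualCoannihilator_dualAnnihilator_eq` / `Submodule.exists_le_ker_of_notMem`), but `l ∈ Gw 1` by `hS`, so `rho l = 0`. (4) so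
`tau rho p = p` for all `rho` with `Kills`; for every point `a : I → F` evaluate at the point `a'` equal to `0` on the letters
of weight 0 and to `a` elsewhere, with `rho (b i) = a i` for `wt i = 0` and `0` otherwise: `p(a) = (tau rho p)(a') = p(a') = (ev0 p)(a)`.
`MvPolynomial.funext` (infinite field). -/
theorem ev0_of_tau (S : Set (L →ₗ[F] F)) (hS : ∀ l, (∀ mu ∈ S, mu l = 0) → l ∈ Gw b wt 1)
    (p : MvPolynomial I F) (hp : ∀ mu ∈ S, tau b wt mu p = p) : ev0 wt F p = p := by
  have : Module.Finite F L := Module.Finite.of_basis b
  have : Infinite F := CharZero.infinite F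
  -- the stabiliser is a submodule
  let N : Submodule F (L →ₗ[F] F) :=
    { carrier := {rho | tau b wt rho p = p}
      add_mem' := by
        intro x y hx hy
        change tau b wt (x + y) p = p
        rw [← tau_tau]
        change tau b wt x p = p at hx
        change tau b wt y p = p at hy
        rw [hy, hx]
      zero_mem' := tau_zero b wt p
      smul_mem' := by
        intro c x hx
        exact E4_smul b wt x p hx c }
  have hSN : Submodule.span F S ≤ N := Submodule.span_le.2 fun mu hmu => hp mu hmu
  have hK : ∀ rho : L →ₗ[F] F, Kills b wt rho → tau b wt rho p = p := by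
    intro rho hr
    refine hSN ?_
    by_contra hn
    obtain ⟨f, hf1, hf2⟩ := Submodule.exists_le_ker_of_notMem hn
    obtain ⟨l, hl⟩ := (Module.evalEquiv F L).surjective f
    have hfl : ∀ mu : L →ₗ[F] F, f mu = mu l := by
      intro mu
      rw [← hl]
      rfl
    have hlG : l ∈ Gw b wt 1 := by
      refine hS l fun mu hmu => ?_
      rw [← hfl]
      exact hf2 (Submodule.subset_span hmu)
    apply hf1
    rw [hfl, ← b.linearCombination_repr l, Finsupp.linearCombination_apply, Finsupp.sum, map_sum]
    refine Finset.sum_eq_zero fun i hi => ?_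
    rw [map_smul, hr i, smul_zero]
    have := hlG i (Finsupp.mem_support_iff.1 hi)
    omega
  refine MvPolynomial.funext fun a => ?_
  set rho : L →ₗ[F] F := b.constr F fun i => if wt i = 0 then a i else 0 with hrho
  have hr : Kills b wt rho := by
    intro i hi
    rw [hrho, Basis.constr_basis, if_neg hi]
  have h1 := congrArg (MvPolynomial.eval fun i => if wt i = 0 then 0 else a i) (hK rho hr)
  have h2 : MvPolynomial.eval (fun i => if wt i = 0 then 0 else a i) (tau b wt rho p) = MvPolynomial.eval a p := by
    have h3 : (MvPolynomial.aeval (fun i => if wt i = 0 then 0 else a i) : MvPolynomial I F →ₐ[F] F).comp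
        (tau b wt rho) = MvPolynomial.aeval a := by
      refine MvPolynomial.algHom_ext fun i => ?_
      by_cases h0 : wt i = 0
      · have h5 : rho (b i) = a i := by rw [hrho, Basis.constr_basis, if_pos h0]
        simp [tau, h0, h5]
      · simp [tau, h0]
    exact congrArg (fun f => f p) h3
  have h4 : MvPolynomial.eval a (ev0 wt F p) = MvPolynomial.eval (fun i => if wt i = 0 then 0 else a i) p := by
    have h3 : (MvPolynomial.aeval a : MvPolynomial I F →ₐ[F] F).comp (ev0 wt F) =
        MvPolynomial.aeval (fun i => if wt i = 0 then 0 else a i) := by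
      refine MvPolynomial.algHom_ext fun i => ?_
      by_cases h0 : wt i = 0
      · simp [ev0, h0]
      · simp [ev0, h0]
    exact congrArg (fun f => f p) h3
  rw [h4, ← h1, h2]

end MP_a5a771_alC
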