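import Pool.Agent.Lib.MP_a5a771_alC.E0

/-!
# Leaf E5
-/

set_option autoImplicit false

noncomputable section

open Module PBWB

namespace MP_a5a771_alC

attribute [local instance 100] LieRing.ofAssociativeRing

variable {F L I : Type*} [Field F] [CharZero F] [LieRing L] [LieAlgebra F L] [Fintype I] (b : Basis I F L)
  (wt : I → ℕ)

/-- A nonzero polynomial has a nonzero value at some point of `L / n`.
Proof. Otherwise `p(a) = 0` for all points `a : I → F` (with `rho (b i) = a i` for `wt i = 0`, `0` otherwise, and `a' i = 0` for `wt i = 0`,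
`a i` otherwise: `p(a) = (tau rho p)(a') = (ev0 (tau rho p))(a)`), so `p = 0` (`MvPolynomial.funext`, infinite field). -/
theorem exists_point {p : MvPolynomial I F} (hp : p ≠ 0) :
    ∃ rho : L →ₗ[F] F, Kills b wt rho ∧ ev0 wt F (tau b wt rho p) ≠ 0 := by
  by_contra hcon
  push Not at hcon
  apply hp
  refine MvPolynomial.funext fun a => ?_
  obtain ⟨rho, hrho⟩ : ∃ rho : L →ₗ[F] F, ∀ i, rho (b i) = if wt i = 0 then a i else 0 :=
    ⟨b.constr F fun i => if wt i = 0 then a i else 0, fun i => b.constr_basis F _ i⟩
  have hk : Kills b wt rho := by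
    intro i hi
    rw [hrho, if_neg hi]
  have h1 : ((MvPolynomial.aeval a : MvPolynomial I F →ₐ[F] F).comp
      ((ev0 wt F).comp (tau b wt rho))) = MvPolynomial.aeval a := by
    refine MvPolynomial.algHom_ext fun i => ?_
    by_cases h : wt i = 0
    · have h2 : tau b wt rho (MvPolynomial.X i) =
          (MvPolynomial.X i + MvPolynomial.C (rho (b i)) : MvPolynomial I F) := by simp [tau, h]
      have h3 : ev0 wt F (MvPolynomial.X i) = (0 : MvPolynomial I F) := by simp [ev0, h]
      have h4 : (MvPolynomial.C (rho (b i)) : MvPolynomial I F) = algebraMap F _ (rho (b i)) := rfl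
      rw [AlgHom.comp_apply, AlgHom.comp_apply, h2, map_add, h3, h4, AlgHom.commutes, zero_add,
        AlgHom.commutes, MvPolynomial.aeval_X, hrho, if_pos h]
      rfl
    · have h2 : tau b wt rho (MvPolynomial.X i) = (MvPolynomial.X i : MvPolynomial I F) := by
        simp [tau, h]
      have h3 : ev0 wt F (MvPolynomial.X i) = (MvPolynomial.X i : MvPolynomial I F) := by
        simp [ev0, h]
      rw [AlgHom.comp_apply, AlgHom.comp_apply, h2, h3]
  have h5 := congrArg (fun f => f p) h1
  have h6 : MvPolynomial.aeval a (ev0 wt F (tau b wt rho p)) = MvPolynomial.aeval a p := h5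
  rw [hcon rho hk, map_zero] at h6
  rw [map_zero, ← MvPolynomial.coe_aeval_eq_eval]
  exact h6.symm

end MP_a5a771_alC
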