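import Pool.Agent.Lib.MP_a5a771_alC.E0

/-!
# The derivations commute; representatives of weight one
-/

set_option autoImplicit false

noncomputable section

open Module PBWB

namespace MP_a5a771_alC

attribute [local instance 100] LieRing.ofAssociativeRing

variable {F L I : Type*} [Field F] [LieRing L] [LieAlgebra F L] (b : Basis I F L) (wt : I → ℕ)

theorem mem_Gw_one_of (l : L) (h : ∀ i, wt i = 0 → b.repr l i = 0) : l ∈ Gw b wt 1 := by
  intro i hi
  by_contra h1
  exact hi (h i (by omega))

theorem b_mem_Gw (i : I) : b i ∈ Gw b wt (wt i) := by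
  classical
  intro j hj
  rw [b.repr_self, Finsupp.single_apply] at hj
  split_ifs at hj with h
  · rw [h]
  · exact absurd rfl hj

theorem Gw_anti {a c : ℕ} (h : a ≤ c) : Gw b wt c ≤ Gw b wt a := fun _ hx i hi => h.trans (hx i hi)

/-- The bracket and the weights. -/
theorem Gw_lie (hwt : WOk b wt) {a c : ℕ} {x y : L} (hx : x ∈ Gw b wt a) (hy : y ∈ Gw b wt c) :
    ⁅x, y⁆ ∈ Gw b wt (a + c) := by
  have h1 : ⁅x, y⁆ = ∑ i ∈ (b.repr x).support, ∑ j ∈ (b.repr y).support,
      (b.repr x i * b.repr y j) • ⁅b i, b j⁆ := by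
    conv_lhs => rw [← b.linearCombination_repr x, ← b.linearCombination_repr y, Finsupp.linearCombination_apply,
      Finsupp.linearCombination_apply, Finsupp.sum, Finsupp.sum, sum_lie]
    refine Finset.sum_congr rfl fun i _ => ?_
    rw [lie_sum]
    refine Finset.sum_congr rfl fun j _ => ?_
    rw [smul_lie, lie_smul, smul_smul]
  rw [h1]
  refine sum_mem fun i hi => sum_mem fun j hj => Submodule.smul_mem _ _ fun k hk => ?_
  have h2 := hx i (Finsupp.mem_support_iff.1 hi)
  have h3 := hy j (Finsupp.mem_support_iff.1 hj)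
  have h4 := hwt i j k hk
  omega

/-- Brackets have positive weight. -/
theorem Gw_lie_one (hA : HA b wt) (x y : L) : ⁅x, y⁆ ∈ Gw b wt 1 := by
  have h1 : ⁅x, y⁆ = ∑ i ∈ (b.repr x).support, ∑ j ∈ (b.repr y).support,
      (b.repr x i * b.repr y j) • ⁅b i, b j⁆ := by
    conv_lhs => rw [← b.linearCombination_repr x, ← b.linearCombination_repr y, Finsupp.linearCombination_apply,
      Finsupp.linearCombination_apply, Finsupp.sum, Finsupp.sum, sum_lie]
    refine Finset.sum_congr rfl fun i _ => ?_
    rw [lie_sum]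
    refine Finset.sum_congr rfl fun j _ => ?_
    rw [smul_lie, lie_smul, smul_smul]
  rw [h1]
  exact sum_mem fun i _ => sum_mem fun j _ => Submodule.smul_mem _ _ fun k hk => hA i j k hk

theorem wl_zero_of_mem {x : L} (hx : x ∈ Gw b wt 2) : wl b wt x = 0 := by
  rw [← b.linearCombination_repr x, Finsupp.linearCombination_apply, Finsupp.sum, map_sum]
  refine Finset.sum_eq_zero fun i _ => ?_
  rw [map_smul, wl_b]
  split_ifs with h
  · have h1 : b.repr x i = 0 := by
      by_contra h2
      have := hx i h2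
      omega
    rw [h1, zero_smul]
  · rw [smul_zero]

/-- The derivation on the part of weight `1` of an element of `n`. -/
theorem Ad_wl (hwt : WOk b wt) (l : L) {x : L} (hx : x ∈ Gw b wt 1) :
    Ad b wt l (wl b wt x) = wl b wt ⁅l, x⁆ := by
  have h1 : wl b wt x = ∑ i ∈ (b.repr x).support, b.repr x i • wl b wt (b i) := by
    conv_lhs => rw [← b.linearCombination_repr x, Finsupp.linearCombination_apply, Finsupp.sum, map_sum]
    refine Finset.sum_congr rfl fun i _ => ?_
    rw [map_smul]
  have h2 : wl b wt ⁅l, x⁆ = ∑ i ∈ (b.repr x).support, b.repr x i • wl b wt ⁅l, b i⁆ := by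
    conv_lhs => rw [← b.linearCombination_repr x, Finsupp.linearCombination_apply, Finsupp.sum, lie_sum,
      map_sum]
    refine Finset.sum_congr rfl fun i _ => ?_
    rw [lie_smul, map_smul]
  rw [h1, h2, map_sum]
  refine Finset.sum_congr rfl fun i hi => ?_
  rw [Derivation.map_smul, wl_b]
  congr 1
  split_ifs with h
  · rw [Ad_X, if_pos h]
  · rw [map_zero]
    have h3 := hx i (Finsupp.mem_support_iff.1 hi)
    have h4 : ⁅l, b i⁆ ∈ Gw b wt (0 + wt i) :=
      Gw_lie b wt hwt (fun _ _ => Nat.zero_le _) (b_mem_Gw b wt i)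
    rw [wl_zero_of_mem b wt (Gw_anti b wt (by omega) h4)]

/-- The derivations commute. -/
theorem Ad_comm (hwt : WOk b wt) (hA : HA b wt) (l l' : L) (p : MvPolynomial I F) :
    Ad b wt l (Ad b wt l' p) = Ad b wt l' (Ad b wt l p) := by
  have h : ⁅Ad b wt l, Ad b wt l'⁆ = 0 := by
    refine MvPolynomial.derivation_ext fun j => ?_
    rw [Derivation.commutator_apply, Derivation.zero_apply, Ad_X, Ad_X]
    split_ifs with hj
    · have h0 : b j ∈ Gw b wt 1 := by
        have := b_mem_Gw b wt j
        rwa [hj] at this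
      have h1 : ∀ x : L, ⁅x, b j⁆ ∈ Gw b wt 1 := fun x => Gw_lie_one b wt hA x _
      rw [Ad_wl b wt hwt l (h1 l'), Ad_wl b wt hwt l' (h1 l), ← map_sub, ← lie_lie]
      apply wl_zero_of_mem
      exact Gw_lie b wt hwt (Gw_lie_one b wt hA l l') h0
    · rw [map_zero, map_zero, sub_zero]
  have h1 : Ad b wt l (Ad b wt l' p) - Ad b wt l' (Ad b wt l p) = 0 := by
    rw [← Derivation.commutator_apply, h, Derivation.zero_apply]
  exact sub_eq_zero.1 h1

/-- Representatives of the elements of `W0` in `n`. -/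
theorem exists_rep {w : MvPolynomial I F} (hw : w ∈ W0 b wt) : ∃ l ∈ Gw b wt 1, wl b wt l = w := by
  classical
  obtain ⟨x, rfl⟩ := hw
  refine ⟨∑ i ∈ (b.repr x).support, if wt i = 1 then b.repr x i • b i else 0, ?_, ?_⟩
  · refine sum_mem fun i _ => ?_
    split_ifs with h
    · have h1 := b_mem_Gw b wt i
      rw [h] at h1
      exact Submodule.smul_mem _ _ h1
    · exact zero_mem _
  · conv_rhs => rw [← b.linearCombination_repr x, Finsupp.linearCombination_apply, Finsupp.sum, map_sum]
    rw [map_sum]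
    refine Finset.sum_congr rfl fun i _ => ?_
    split_ifs with h
    · rfl
    · rw [map_zero, map_smul, wl_b, if_neg h, smul_zero]

theorem iota_mem_UG' {a : ℕ} {l : L} (hl : l ∈ Gw b wt a) : UniversalEnvelopingAlgebra.ι F l ∈ UG b wt a := by
  rw [← b.linearCombination_repr l, Finsupp.linearCombination_apply, Finsupp.sum, map_sum]
  refine sum_mem fun i hi => ?_
  rw [map_smul]
  refine Submodule.smul_mem _ _ (Submodule.subset_span ⟨[i], ?_, (wp_single b i).symm⟩)
  have h1 := hl i (Finsupp.mem_support_iff.1 hi)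
  rw [wgt_cons, wgt_nil, add_zero]
  exact h1

end MP_a5a771_alC
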