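import Pool.Agent.Lib.MP_a5a771_alC.Defs

/-!
# Leaf EIG: commuting operators
-/

set_option autoImplicit false

noncomputable section

open Module PBWB

namespace MP_a5a771_alC

attribute [local instance 100] LieRing.ofAssociativeRing

private theorem EIG_exists {F V ι : Type*} [Field F] [IsAlgClosed F] [AddCommGroup V] [Module F V]
    [FiniteDimensional F V] (f : ι → Module.End F V) (hc : ∀ i j, f i * f j = f j * f i) :
    ∀ W : Submodule F V, W ≠ ⊥ → (∀ i, ∀ w ∈ W, f i w ∈ W) →
      ∃ y ∈ W, y ≠ 0 ∧ ∃ nu : ι → F, ∀ i, f i y = nu i • y := by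
  intro W
  induction W using WellFoundedLT.induction with
  | ind W ih =>
    intro hW hst
    by_cases hall : ∀ i, ∃ z : F, ∀ w ∈ W, f i w = z • w
    · choose nu hnu using hall
      obtain ⟨y, hy, hy0⟩ := (Submodule.ne_bot_iff W).1 hW
      exact ⟨y, hy, hy0, nu, fun i => hnu i y hy⟩
    · push Not at hall
      obtain ⟨i, hi⟩ := hall
      have : Nontrivial W := (Submodule.nontrivial_iff_ne_bot).2 hW
      obtain ⟨z, hz⟩ := Module.End.exists_eigenvalue ((f i).restrict (hst i))
      obtain ⟨v, hv⟩ := hz.exists_hasEigenvector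
      have hv1 : f i (v : V) = z • (v : V) := congrArg Subtype.val hv.apply_eq_smul
      have hv0 : (v : V) ≠ 0 := fun h0 => hv.2 (Subtype.ext h0)
      let W' : Submodule F V := W ⊓ LinearMap.ker (f i - z • (1 : Module.End F V))
      have hmem : ∀ w, w ∈ W' ↔ w ∈ W ∧ f i w = z • w := by
        intro w
        rw [Submodule.mem_inf, LinearMap.mem_ker, LinearMap.sub_apply, sub_eq_zero]
        rfl
      have hlt : W' < W := by
        refine lt_of_le_of_ne inf_le_left fun he => ?_
        obtain ⟨w, hw, hw1⟩ := hi z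
        exact hw1 ((hmem w).1 (he.symm ▸ hw)).2
      obtain ⟨y, hy, hy0, hnu⟩ := ih W' hlt ((Submodule.ne_bot_iff W').2 ⟨v, (hmem _).2 ⟨v.2, hv1⟩, hv0⟩)
        (fun j w hw => by
          obtain ⟨h1, h2⟩ := (hmem w).1 hw
          refine (hmem _).2 ⟨hst j w h1, ?_⟩
          have h3 : f i (f j w) = f j (f i w) := LinearMap.congr_fun (hc i j) w
          rw [h3, h2, map_smul])
      exact ⟨y, ((hmem y).1 hy).1, hy0, hnu⟩

private theorem EIG_lin {F L Q : Type*} [Field F] [AddCommGroup L] [Module F L] [AddCommGroup Q] [Module F Q]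
    (g : L →ₗ[F] Q) {y : Q} (hy : y ≠ 0) (nu : L → F) (h : ∀ l, g l = nu l • y) :
    ∃ mu : L →ₗ[F] F, ∀ l, mu l = nu l := by
  refine ⟨{ toFun := nu, map_add' := fun a b => ?_, map_smul' := fun c a => ?_ }, fun l => rfl⟩
  · have h1 := map_add g a b
    rw [h, h, h, ← add_smul] at h1
    exact smul_left_injective F hy h1
  · have h1 := map_smul g c a
    rw [h, h, smul_smul] at h1
    exact smul_left_injective F hy h1

/-- A vector can be moved by a vector of a stable subspace into the generalised kernel. -/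
private theorem EIG_fit {F V : Type*} [Field F] [AddCommGroup V] [Module F V] [FiniteDimensional F V]
    (D : Module.End F V) (C : Submodule F V) (hC : ∀ v ∈ C, D v ∈ C) {x : V} (hx : D x ∈ C) :
    ∃ c ∈ C, ∃ m : ℕ, (D ^ m) (x - c) = 0 := by
  let g : Module.End F C := D.restrict hC
  have hg : ∀ (m : ℕ) (c : C), ((g ^ m) c : V) = (D ^ m) (c : V) := by
    intro m
    induction m with
    | zero => exact fun c => rfl
    | succ m ih =>
      intro c
      rw [pow_succ, pow_succ, Module.End.mul_apply, Module.End.mul_apply, ih]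
      rfl
  obtain ⟨n, hn⟩ := (g.eventually_codisjoint_ker_pow_range_pow.and (Filter.eventually_ge_atTop 1)).exists
  have h1 : (⟨D x, hx⟩ : C) ∈ LinearMap.ker (g ^ n) ⊔ LinearMap.range (g ^ n) := by
    rw [codisjoint_iff.1 hn.1]
    exact Submodule.mem_top
  obtain ⟨k, hk, r', ⟨r, rfl⟩, hkr⟩ := Submodule.mem_sup.1 h1
  obtain ⟨n', rfl⟩ : ∃ n', n = n' + 1 := ⟨n - 1, by omega⟩
  refine ⟨((g ^ n') r : C), ((g ^ n') r).2, n' + 2, ?_⟩
  have h2 : (k : V) + D ((g ^ n') r : C) = D x := by
    have h3 := congrArg Subtype.val hkr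
    rw [pow_succ', Module.End.mul_apply] at h3
    exact h3
  have h4 : D (x - ((g ^ n') r : C)) = (k : V) := by
    rw [map_sub, ← h2]
    abel
  have h5 : (D ^ (n' + 2)) (x - ((g ^ n') r : C)) = (D ^ (n' + 1)) (k : V) := by
    rw [show n' + 2 = (n' + 1) + 1 from rfl, pow_succ, Module.End.mul_apply, h4]
  rw [h5, ← hg, LinearMap.mem_ker.1 hk]
  rfl

private theorem EIG_main {F L V : Type*} [Field F] [IsAlgClosed F] [AddCommGroup L] [Module F L] [AddCommGroup V]
    [Module F V] [FiniteDimensional F V] (A : L →ₗ[F] Module.End F V) (hc : ∀ l l', A l * A l' = A l' * A l)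
    (C : Submodule F V) (hC : ∀ l, ∀ v ∈ C, A l v ∈ C) (mu : L → F) :
    ∀ W : Submodule F V, (∀ l, ∀ w ∈ W, A l w ∈ W) → (∃ x ∈ W, x ∉ C ∧ ∀ l, A l x - mu l • x ∈ C) →
      ∃ y : V, y ≠ 0 ∧ ∀ l, A l y = mu l • y := by
  intro W
  induction W using WellFoundedLT.induction with
  | ind W ih =>
    rintro hst ⟨x, hxW, hxC, hx⟩
    by_cases hall : ∀ l, W ≤ (A l).maxGenEigenspace (mu l)
    · have hx0 : x ≠ 0 := fun h0 => hxC (h0 ▸ C.zero_mem)
      obtain ⟨y, hy, hy0, nu, hnu⟩ := EIG_exists (fun l => A l) hc W ((Submodule.ne_bot_iff W).2 ⟨x, hxW, hx0⟩) hst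
      refine ⟨y, hy0, fun l => ?_⟩
      obtain ⟨k, hk⟩ := (Module.End.mem_maxGenEigenspace _ _ _).1 (hall l hy)
      have h1 : ∀ k : ℕ, ((A l - mu l • (1 : Module.End F V)) ^ k) y = (nu l - mu l) ^ k • y := by
        intro k
        induction k with
        | zero => rw [pow_zero, pow_zero, one_smul]; rfl
        | succ k ihk =>
          rw [pow_succ', Module.End.mul_apply, ihk, map_smul]
          have h2 : (A l - mu l • (1 : Module.End F V)) y = (nu l - mu l) • y := by
            rw [LinearMap.sub_apply, hnu l, sub_smul]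
            rfl
          rw [h2, smul_smul, pow_succ]
      rw [h1 k] at hk
      have h3 : (nu l - mu l) ^ k = 0 := (smul_eq_zero.1 hk).resolve_right hy0
      have h4 : nu l - mu l = 0 := by
        by_contra h5
        exact pow_ne_zero k h5 h3
      rw [hnu l, sub_eq_zero.1 h4]
    · push Not at hall
      obtain ⟨l, hl⟩ := hall
      have hstG : ∀ l', ∀ w ∈ (A l).maxGenEigenspace (mu l), A l' w ∈ (A l).maxGenEigenspace (mu l) := fun l' w hw =>
        Module.End.mapsTo_maxGenEigenspace_of_comm (hc l l') (mu l) hw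
      obtain ⟨c, hc', m, hm⟩ := EIG_fit (A l - mu l • (1 : Module.End F V)) (C ⊓ W)
        (fun v hv => by
          refine ⟨C.sub_mem (hC l v hv.1) (C.smul_mem _ hv.1), W.sub_mem (hst l v hv.2) (W.smul_mem _ hv.2)⟩)
        (x := x) ⟨hx l, W.sub_mem (hst l x hxW) (W.smul_mem _ hxW)⟩
      refine ih (W ⊓ (A l).maxGenEigenspace (mu l)) (lt_of_le_of_ne inf_le_left fun he => hl ?_)
        (fun l' w hw => ⟨hst l' w hw.1, hstG l' w hw.2⟩) ⟨x - c, ⟨W.sub_mem hxW hc'.2,
          (Module.End.mem_maxGenEigenspace _ _ _).2 ⟨m, hm⟩⟩, fun h1 => hxC ?_, fun l' => ?_⟩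
      · rw [← he]
        exact inf_le_right
      · have h2 := C.add_mem h1 hc'.1
        rwa [sub_add_cancel] at h2
      · have h2 : A l' (x - c) - mu l' • (x - c) = (A l' x - mu l' • x) - (A l' c - mu l' • c) := by
          rw [map_sub, smul_sub]
          abel
        rw [h2]
        exact C.sub_mem (hx l') (C.sub_mem (hC l' c hc'.1) (C.smul_mem _ hc'.1))

/-- Commuting operators on a finite-dimensional space over an algebraically closed field: if `A l` is zero at all
common eigenvalue systems then it is nilpotent.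
Proof. If `A l` is not nilpotent it has an eigenvalue `z ≠ 0` (`Module.End.isNilpotent_iff...`, or: the only eigenvalue 0 gives
`maxGenEigenspace 0 = ⊤` by `Module.End.iSup_maxGenEigenspace_eq_top`); its eigenspace is stable under all `A l'`; commuting operators on a
nonzero finite-dimensional space have a common eigenvector (`eig_exists`), with `mu l = z`. -/
theorem eig_nil {F L V : Type*} [Field F] [IsAlgClosed F] [AddCommGroup L] [Module F L] [AddCommGroup V] [Module F V]
    [FiniteDimensional F V] (A : L →ₗ[F] Module.End F V) (hc : ∀ l l', A l * A l' = A l' * A l) (l : L)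
    (h : ∀ mu : L →ₗ[F] F, (∃ v : V, v ≠ 0 ∧ ∀ l', A l' v = mu l' • v) → mu l = 0) : ∃ N : ℕ, A l ^ N = 0 := by
  obtain ⟨n, hn, hn1⟩ := ((A l).eventually_isCompl_ker_pow_range_pow.and (Filter.eventually_ge_atTop 1)).exists
  refine ⟨n, ?_⟩
  by_contra h0
  have hR : LinearMap.range (A l ^ n) ≠ ⊥ := fun h1 => h0 (LinearMap.range_eq_bot.1 h1)
  have hst : ∀ l', ∀ w ∈ LinearMap.range (A l ^ n), A l' w ∈ LinearMap.range (A l ^ n) := by
    rintro l' _ ⟨v, rfl⟩
    refine ⟨A l' v, ?_⟩
    have h1 : Commute (A l ^ n) (A l') := Commute.pow_left (hc l l') n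
    exact LinearMap.congr_fun h1 v
  obtain ⟨y, hy, hy0, nu, hnu⟩ := EIG_exists (fun l => A l) hc _ hR hst
  obtain ⟨mu, hmu⟩ := EIG_lin (A.flip y) hy0 nu (fun l' => hnu l')
  have h2 : mu l = 0 := h mu ⟨y, hy0, fun l' => by rw [hmu]; exact hnu l'⟩
  have h3 : A l y = 0 := by
    have h4 := hnu l
    rw [← hmu, h2, zero_smul] at h4
    exact h4
  obtain ⟨n', rfl⟩ : ∃ n', n = n' + 1 := ⟨n - 1, by omega⟩
  have h5 : y ∈ LinearMap.ker (A l ^ (n' + 1)) := by
    rw [LinearMap.mem_ker, pow_succ, Module.End.mul_apply, h3, map_zero]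
  exact hy0 (Submodule.disjoint_def.1 hn.disjoint y h5 hy)

/-- Commuting operators on a finite-dimensional space over an algebraically closed field, `C` a stable proper
subspace: there is a common eigenvector modulo `C` whose eigenvalue system occurs also on `V`.
Proof. A common eigenvector `x` of `V / C ≠ 0` (induction on the dimension, or Mathlib), with the system `mu` (linear in `l`
because `x ∉ C`). Induction on the dimension of `V` to find `y`: if all `A l - mu l` are nilpotent, then there is a common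
vector of the kernels (a common eigenvector of `V` has system `mu`). Otherwise choose `l` with `A l - mu l` not
nilpotent; Fitting: `V = V₀ ⊕ V₁`, `V₀ = ker (A l - mu l)^N`, `V₁ = range (A l - mu l)^N`, stable under all `A l'`, `V₁ ≠ 0`; with
`x = x₀ + x₁`: `(A l - mu l)^N x ∈ C` gives `(A l - mu l)^N x₁ ∈ C ∩ V₁`, and `A l - mu l` is bijective on `V₁` and on `C ∩ V₁`, so
`x₁ ∈ C`, so `x₀ ∉ C`, and one concludes by induction on `V₀` with `C ∩ V₀`. (Or: `Module.End` generalised eigenspaces of commuting families,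
`Module.End.iSup_iInf_maxGenEigenspace_eq_top_of_iSup_maxGenEigenspace_eq_top_of_commute`.) -/
theorem eig_quot {F L V : Type*} [Field F] [IsAlgClosed F] [AddCommGroup L] [Module F L] [AddCommGroup V] [Module F V]
    [FiniteDimensional F V] (A : L →ₗ[F] Module.End F V) (hc : ∀ l l', A l * A l' = A l' * A l)
    (C : Submodule F V) (hC : ∀ l, ∀ v ∈ C, A l v ∈ C) (hne : C ≠ ⊤) :
    ∃ mu : L →ₗ[F] F, (∃ x : V, x ∉ C ∧ ∀ l, A l x - mu l • x ∈ C) ∧ ∃ y : V, y ≠ 0 ∧ ∀ l, A l y = mu l • y := by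
  have hQ : Nontrivial (V ⧸ C) := Submodule.Quotient.nontrivial_iff.2 hne
  have hc' : ∀ l l', C.mapQ C (A l) (hC l) * C.mapQ C (A l') (hC l') =
      C.mapQ C (A l') (hC l') * C.mapQ C (A l) (hC l) := by
    intro l l'
    refine LinearMap.ext fun z => ?_
    obtain ⟨v, rfl⟩ := C.mkQ_surjective z
    have h1 : A l (A l' v) = A l' (A l v) := LinearMap.congr_fun (hc l l') v
    exact congrArg C.mkQ h1
  obtain ⟨z, -, hz0, nu, hnu⟩ := EIG_exists (fun l => C.mapQ C (A l) (hC l)) hc' ⊤ top_ne_bot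
    (fun _ _ _ => Submodule.mem_top)
  obtain ⟨x, rfl⟩ := C.mkQ_surjective z
  have hxC : x ∉ C := fun h1 => hz0 ((Submodule.Quotient.mk_eq_zero C).2 h1)
  obtain ⟨mu, hmu⟩ := EIG_lin (C.mkQ ∘ₗ A.flip x) hz0 nu (fun l => hnu l)
  have hx : ∀ l, A l x - mu l • x ∈ C := by
    intro l
    rw [← Submodule.Quotient.mk_eq_zero C]
    have h1 : C.mkQ (A l x) = nu l • C.mkQ x := hnu l
    have h2 : C.mkQ (A l x - mu l • x) = 0 := by
      rw [map_sub, h1, map_smul, hmu, sub_self]
    exact h2
  exact ⟨mu, ⟨x, hxC, hx⟩, EIG_main A hc C hC mu ⊤ (fun _ _ _ => Submodule.mem_top) ⟨x, Submodule.mem_top, hxC, hx⟩⟩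

end MP_a5a771_alC
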