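import Pool.Agent.Lib.MP_a5a771_alC.LN

/-!
# Normalisation: the isomorphism respects the augmentations
-/

set_option autoImplicit false

noncomputable section

open Module PBWB

namespace MP_a5a771_alC

attribute [local instance 100] LieRing.ofAssociativeRing

variable {F L H : Type*} [Field F] [LieRing L] [LieAlgebra F L] [LieRing H] [LieAlgebra F H]

/-- The shift of the enveloping algebra by a character. -/
def shift (chi : H →ₗ[F] F) (hc : ∀ x y : H, chi ⁅x, y⁆ = 0) :
    UniversalEnvelopingAlgebra F H →ₐ[F] UniversalEnvelopingAlgebra F H :=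
  UniversalEnvelopingAlgebra.lift F
    { toFun := fun h => UniversalEnvelopingAlgebra.ι F h - algebraMap F _ (chi h)
      map_add' := fun x y => by rw [map_add, map_add, map_add]; abel
      map_smul' := fun c x => by
        rw [map_smul, map_smul, RingHom.id_apply, smul_sub, Algebra.smul_def c (algebraMap F _ (chi x)), smul_eq_mul,
          map_mul]
      map_lie' := fun {x y} => by
        have h1 : chi ⁅x, y⁆ = 0 := hc x y
        show UniversalEnvelopingAlgebra.ι F ⁅x, y⁆ - algebraMap F _ (chi ⁅x, y⁆) =
          ⁅UniversalEnvelopingAlgebra.ι F x - algebraMap F _ (chi x),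
            UniversalEnvelopingAlgebra.ι F y - algebraMap F _ (chi y)⁆
        rw [h1, map_zero, sub_zero, iota_lie, LieRing.of_associative_ring_bracket]
        have h2 := Algebra.commutes (chi x) (UniversalEnvelopingAlgebra.ι F y)
        have h3 := Algebra.commutes (chi y) (UniversalEnvelopingAlgebra.ι F x)
        have h4 := Algebra.commutes (chi y) (algebraMap F (UniversalEnvelopingAlgebra F H) (chi x))
        rw [sub_mul, mul_sub, mul_sub, sub_mul, mul_sub, mul_sub, h2, ← h3, h4]
        abel }

theorem shift_iota (chi : H →ₗ[F] F) (hc : ∀ x y : H, chi ⁅x, y⁆ = 0) (h : H) :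
    shift chi hc (UniversalEnvelopingAlgebra.ι F h) =
    UniversalEnvelopingAlgebra.ι F h - algebraMap F _ (chi h) := by
  rw [shift, UniversalEnvelopingAlgebra.lift_ι_apply]
  rfl

theorem shift_comp (chi chi' : H →ₗ[F] F) (hc : ∀ x y : H, chi ⁅x, y⁆ = 0) (hc' : ∀ x y : H, chi' ⁅x, y⁆ = 0)
    (h0 : ∀ x, chi x + chi' x = 0) : (shift chi hc).comp (shift chi' hc') = AlgHom.id F _ := by
  refine UniversalEnvelopingAlgebra.hom_ext F (LieHom.ext fun h => ?_)
  show shift chi hc (shift chi' hc' (UniversalEnvelopingAlgebra.ι F h)) = UniversalEnvelopingAlgebra.ι F h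
  rw [shift_iota, map_sub, shift_iota, AlgHom.commutes, sub_sub, ← map_add, h0, map_zero, sub_zero]

/-- The shift as an automorphism. -/
def shiftE (chi : H →ₗ[F] F) (hc : ∀ x y : H, chi ⁅x, y⁆ = 0) :
    UniversalEnvelopingAlgebra F H ≃ₐ[F] UniversalEnvelopingAlgebra F H :=
  AlgEquiv.ofAlgHom (shift chi hc) (shift (-chi) fun x y => by rw [LinearMap.neg_apply, hc, neg_zero])
    (shift_comp chi (-chi) _ _ fun x => by rw [LinearMap.neg_apply, add_neg_cancel])
    (shift_comp (-chi) chi _ _ fun x => by rw [LinearMap.neg_apply, neg_add_cancel])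

/-- An isomorphism can be changed so that it respects the augmentations. -/
theorem exists_norm (φ : UniversalEnvelopingAlgebra F H ≃ₐ[F] UniversalEnvelopingAlgebra F L) :
    ∃ φ' : UniversalEnvelopingAlgebra F H ≃ₐ[F] UniversalEnvelopingAlgebra F L,
      ∀ u, aug F L (φ' u) = aug F H u := by
  let chi : H →ₗ[F] F :=
    { toFun := fun h => aug F L (φ (UniversalEnvelopingAlgebra.ι F h))
      map_add' := fun x y => by rw [map_add, map_add, map_add]
      map_smul' := fun c x => by rw [map_smul, map_smul, map_smul, RingHom.id_apply] }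
  have hc : ∀ x y : H, chi ⁅x, y⁆ = 0 := by
    intro x y
    show aug F L (φ (UniversalEnvelopingAlgebra.ι F ⁅x, y⁆)) = 0
    rw [iota_lie, map_sub, map_mul, map_mul, map_sub, map_mul, map_mul, mul_comm, sub_self]
  refine ⟨(shiftE chi hc).trans φ, fun u => ?_⟩
  have h : (aug F L).comp ((shiftE chi hc).trans φ : UniversalEnvelopingAlgebra F H →ₐ[F]
      UniversalEnvelopingAlgebra F L) = aug F H := by
    refine UniversalEnvelopingAlgebra.hom_ext F (LieHom.ext fun h => ?_)
    show aug F L (φ (shift chi hc (UniversalEnvelopingAlgebra.ι F h))) = aug F H (UniversalEnvelopingAlgebra.ι F h)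
    rw [shift_iota, map_sub, map_sub, AlgEquiv.commutes, AlgHom.commutes, aug_iota]
    exact sub_self _
  exact congrArg (fun f => f u) h

end MP_a5a771_alC
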