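import Pool.Agent.Lib.MP_a5a771_alC.E6
import Pool.Agent.Lib.MP_a5a771_al.BaseChange

/-!
# Leaf RHO: descent of an approximate solution
-/

set_option autoImplicit false

noncomputable section

open Module PBWB
open scoped TensorProduct

namespace MP_a5a771_alC

attribute [local instance 100] LieRing.ofAssociativeRing

/-- The weights are compatible with the bracket if they are after extension of scalars. -/
theorem WOk_of_baseChange {F K L I : Type*} [Field F] [Field K] [Algebra F K] [LieRing L] [LieAlgebra F L]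
    (b : Basis I F L) (wt : I → ℕ) (h : WOk (b.baseChange K) wt) : WOk b wt := by
  intro i j k hk
  apply h i j k
  rw [Basis.baseChange_apply, Basis.baseChange_apply, LieAlgebra.ExtendScalars.bracket_tmul,
    mul_one, Basis.baseChange_repr_tmul, ← Algebra.algebraMap_eq_smul_one]
  exact fun h0 => hk ((algebraMap F K).injective (h0.trans (map_zero _).symm))

/-- The map `rho ⊗ id`. -/
private def RHO_R {F K : Type*} (X : Type*) [Field F] [Field K] [Algebra F K] [AddCommGroup X] [Module F X]
    (rho : K →ₗ[F] F) : K ⊗[F] X →ₗ[F] X :=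
  (TensorProduct.lid F X).toLinearMap ∘ₗ rho.rTensor X

private theorem RHO_R_tmul {F K : Type*} (X : Type*) [Field F] [Field K] [Algebra F K] [AddCommGroup X] [Module F X]
    (rho : K →ₗ[F] F) (c : K) (x : X) : RHO_R X rho (c ⊗ₜ[F] x) = rho c • x := by
  unfold RHO_R
  rw [LinearMap.comp_apply, LinearMap.rTensor_tmul, LinearEquiv.coe_coe, TensorProduct.lid_tmul]

private theorem RHO_word {F K L I : Type*} [Field F] [Field K] [Algebra F K] [LieRing L] [LieAlgebra F L]
    (b : Basis I F L) (w : List I) :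
    Pool.Agent.Lib.MP_a5a771_al.bcAlg K F L (wp (b.baseChange K) w) = (1 : K) ⊗ₜ[F] wp b w := by
  induction w with
  | nil => rw [wp_nil, wp_nil, map_one]; rfl
  | cons i w ih =>
    rw [wp_cons, wp_cons, map_mul, ih, Pool.Agent.Lib.MP_a5a771_al.bcAlg_iota, Basis.baseChange_apply,
      Pool.Agent.Lib.MP_a5a771_al.bcLin_tmul, Algebra.TensorProduct.tmul_mul_tmul, one_mul]

private theorem RHO_UG {F K L I : Type*} [Field F] [Field K] [Algebra F K] [LieRing L] [LieAlgebra F L]
    (b : Basis I F L) (wt : I → ℕ) (rho : K →ₗ[F] F) (a : ℕ)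
    {u : UniversalEnvelopingAlgebra K (K ⊗[F] L)} (hu : u ∈ UG (b.baseChange K) wt a) :
    ∀ c : K, RHO_R (UniversalEnvelopingAlgebra F L) rho (c • Pool.Agent.Lib.MP_a5a771_al.bcAlg K F L u) ∈
      UG b wt a := by
  unfold UG at hu
  induction hu using Submodule.span_induction with
  | mem x hx =>
    intro c
    obtain ⟨w, hw, rfl⟩ := hx
    rw [RHO_word, TensorProduct.smul_tmul', smul_eq_mul, mul_one, RHO_R_tmul]
    exact Submodule.smul_mem _ _ (Submodule.subset_span ⟨w, hw, rfl⟩)
  | zero =>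
    intro c
    rw [map_zero, smul_zero, map_zero]
    exact Submodule.zero_mem _
  | add x y _ _ hx hy =>
    intro c
    rw [map_add, smul_add, map_add]
    exact Submodule.add_mem _ (hx c) (hy c)
  | smul d x _ hx =>
    intro c
    have h1 : c • Pool.Agent.Lib.MP_a5a771_al.bcAlg K F L (d • x) =
        (c * d) • Pool.Agent.Lib.MP_a5a771_al.bcAlg K F L x := by
      rw [map_smul (Pool.Agent.Lib.MP_a5a771_al.bcAlg K F L) d x, smul_smul]
    rw [h1]
    exact hx (c * d)

private theorem RHO_phi {F K L H : Type*} [Field F] [Field K] [Algebra F K] [LieRing L] [LieAlgebra F L]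
    [LieRing H] [LieAlgebra F H] (rho : K →ₗ[F] F)
    (φ : UniversalEnvelopingAlgebra F H ≃ₐ[F] UniversalEnvelopingAlgebra F L) (h : K ⊗[F] H) :
    RHO_R (UniversalEnvelopingAlgebra F L) rho (Pool.Agent.Lib.MP_a5a771_al.bcAlg K F L
      (Pool.Agent.Lib.MP_a5a771_al.bcIso K φ (UniversalEnvelopingAlgebra.ι K h))) =
      φ (UniversalEnvelopingAlgebra.ι F (RHO_R H rho h)) := by
  have h1 : Pool.Agent.Lib.MP_a5a771_al.bcAlg K F L
      (Pool.Agent.Lib.MP_a5a771_al.bcIso K φ (UniversalEnvelopingAlgebra.ι K h)) =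
      Algebra.TensorProduct.congr (AlgEquiv.refl : K ≃ₐ[K] K) φ
        (Pool.Agent.Lib.MP_a5a771_al.bcLin K F H h) := by
    rw [← Pool.Agent.Lib.MP_a5a771_al.bcAlg_iota]
    exact (Pool.Agent.Lib.MP_a5a771_al.bcEquiv K F L).apply_symm_apply _
  rw [h1]
  clear h1
  induction h using TensorProduct.induction_on with
  | zero => simp only [map_zero]
  | add x y hx hy =>
    rw [map_add, map_add, map_add, hx, hy, map_add, map_add, map_add]
  | tmul c x =>
    rw [Pool.Agent.Lib.MP_a5a771_al.bcLin_tmul]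
    change RHO_R _ rho (c ⊗ₜ[F] φ (UniversalEnvelopingAlgebra.ι F x)) = _
    rw [RHO_R_tmul, RHO_R_tmul, map_smul, map_smul]

/-- If there is a solution over the extension field there is one over the ground field.
Proof. Choose an `F`-linear `rho : K → F` with `rho 1 = 1` and apply `rho ⊗ id : K ⊗ U(L) → U(L)` to the image of the membership under the
isomorphism `bcEquiv` (`bcAlg`): `UG (b.baseChange K) wt a` corresponds to the `K`-span of the `1 ⊗ u`, `u ∈ UG b wt a` (`bcAlg_word`), and is
sent to `UG b wt a`; `bcIso K φ` corresponds to `id ⊗ φ`; `ι h` corresponds to the image of `h` under `id ⊗ ι`. So `h' = (rho ⊗ id) h`. -/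
theorem exists_descent_h {F K L H I : Type*} [Field F] [Field K] [Algebra F K] [LieRing L] [LieAlgebra F L]
    [LieRing H] [LieAlgebra F H] (b : Basis I F L) (wt : I → ℕ)
    (φ : UniversalEnvelopingAlgebra F H ≃ₐ[F] UniversalEnvelopingAlgebra F L) (a : ℕ) (l : L)
    (h : K ⊗[F] H) (hh : Pool.Agent.Lib.MP_a5a771_al.bcIso K φ (UniversalEnvelopingAlgebra.ι K h) -
      UniversalEnvelopingAlgebra.ι K ((1 : K) ⊗ₜ[F] l) ∈ UG (b.baseChange K) wt a) :
    ∃ h' : H, φ (UniversalEnvelopingAlgebra.ι F h') - UniversalEnvelopingAlgebra.ι F l ∈ UG b wt a := by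
  obtain ⟨rho, hrho⟩ := LinearMap.exists_leftInverse_of_injective (Algebra.linearMap F K)
    (LinearMap.ker_eq_bot.2 (algebraMap F K).injective)
  have hrho1 : rho 1 = 1 := by
    have := LinearMap.congr_fun hrho 1
    rw [LinearMap.comp_apply, Algebra.linearMap_apply, map_one, LinearMap.id_apply] at this
    exact this
  refine ⟨RHO_R H rho h, ?_⟩
  have h1 := RHO_UG b wt rho a hh 1
  rw [one_smul, map_sub, map_sub, RHO_phi, Pool.Agent.Lib.MP_a5a771_al.bcAlg_iota,
    Pool.Agent.Lib.MP_a5a771_al.bcLin_tmul, RHO_R_tmul, hrho1, one_smul] at h1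
  exact h1

end MP_a5a771_alC
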