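import Pool.Agent.Lib.MP_a5a771_alC.FIN
import Pool.Agent.Lib.MP_a5a771_alC.NM
import Pool.Agent.Lib.MP_a5a771_alC.DB
import Pool.Agent.Lib.MP_a5a771_alC.RHO
import Pool.Agent.Lib.MP_a5a771_al.LD.Gauge
import Pool.Agent.Lib.MP_a5a771_al.LD.Solv

/-!
# A solvable Lie algebra is determined by its enveloping algebra, characteristic zero
-/

set_option autoImplicit false

noncomputable section

open Module PBWB
open scoped TensorProduct

namespace MP_a5a771_alC

attribute [local instance 100] LieRing.ofAssociativeRing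

/-- The augmentation of `K ⊗ U(L)`. -/
def augK (K F L : Type*) [Field F] [Field K] [Algebra F K] [LieRing L] [LieAlgebra F L] :
    K ⊗[F] UniversalEnvelopingAlgebra F L →ₐ[K] K :=
  Algebra.TensorProduct.lift (Algebra.ofId K K) ((Algebra.ofId F K).comp (aug F L)) fun _ _ => mul_comm _ _

theorem augK_tmul (K F L : Type*) [Field F] [Field K] [Algebra F K] [LieRing L] [LieAlgebra F L] (a : K)
    (u : UniversalEnvelopingAlgebra F L) : augK K F L (a ⊗ₜ u) = a * algebraMap F K (aug F L u) :=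
  Algebra.TensorProduct.lift_tmul _ _ _ _ _

theorem aug_eq_augK (K F L : Type*) [Field F] [Field K] [Algebra F K] [LieRing L] [LieAlgebra F L]
    (u : UniversalEnvelopingAlgebra K (K ⊗[F] L)) :
    aug K (K ⊗[F] L) u = augK K F L (Pool.Agent.Lib.MP_a5a771_al.bcAlg K F L u) := by
  have h : aug K (K ⊗[F] L) = (augK K F L).comp (Pool.Agent.Lib.MP_a5a771_al.bcAlg K F L) := by
    refine UniversalEnvelopingAlgebra.hom_ext K (LieHom.ext fun x => ?_)
    show aug K (K ⊗[F] L) (UniversalEnvelopingAlgebra.ι K x) =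
      augK K F L (Pool.Agent.Lib.MP_a5a771_al.bcAlg K F L (UniversalEnvelopingAlgebra.ι K x))
    rw [aug_iota, Pool.Agent.Lib.MP_a5a771_al.bcAlg_iota]
    induction x using TensorProduct.induction_on with
    | zero => rw [map_zero, map_zero]
    | add x y hx hy => rw [map_add, map_add, ← hx, ← hy, add_zero]
    | tmul a x =>
      rw [Pool.Agent.Lib.MP_a5a771_al.bcLin_tmul, augK_tmul, aug_iota, map_zero, mul_zero]
  exact congrArg (fun g => g u) h

/-- The extension of an isomorphism respects the augmentations. -/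
theorem aug_bcIso (K : Type*) {F L H : Type*} [Field F] [Field K] [Algebra F K] [LieRing L] [LieAlgebra F L]
    [LieRing H] [LieAlgebra F H] (φ : UniversalEnvelopingAlgebra F H ≃ₐ[F] UniversalEnvelopingAlgebra F L)
    (haug : ∀ u, aug F L (φ u) = aug F H u) (u : UniversalEnvelopingAlgebra K (K ⊗[F] H)) :
    aug K (K ⊗[F] L) (Pool.Agent.Lib.MP_a5a771_al.bcIso K φ u) = aug K (K ⊗[F] H) u := by
  rw [aug_eq_augK, aug_eq_augK]
  have h1 : Pool.Agent.Lib.MP_a5a771_al.bcAlg K F L (Pool.Agent.Lib.MP_a5a771_al.bcIso K φ u) =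
      Algebra.TensorProduct.congr AlgEquiv.refl φ (Pool.Agent.Lib.MP_a5a771_al.bcAlg K F H u) :=
    (Pool.Agent.Lib.MP_a5a771_al.bcEquiv K F L).apply_symm_apply _
  rw [h1]
  generalize Pool.Agent.Lib.MP_a5a771_al.bcAlg K F H u = v
  induction v using TensorProduct.induction_on with
  | zero => rw [map_zero, map_zero, map_zero]
  | add x y hx hy => rw [map_add, map_add, map_add, hx, hy]
  | tmul a x =>
    have h2 : Algebra.TensorProduct.congr (AlgEquiv.refl : K ≃ₐ[K] K) φ (a ⊗ₜ x) = a ⊗ₜ φ x := rfl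
    rw [h2, augK_tmul, augK_tmul, haug]

/-- **A finite-dimensional solvable Lie algebra over a field of characteristic zero is determined by its enveloping
algebra.** -/
theorem iso_of_uea {F L H : Type*} [Field F] [CharZero F] [LieRing L] [LieAlgebra F L] [LieRing H]
    [LieAlgebra F H] [FiniteDimensional F L] [LieAlgebra.IsSolvable L]
    (φ₀ : UniversalEnvelopingAlgebra F H ≃ₐ[F] UniversalEnvelopingAlgebra F L) : Nonempty (L ≃ₗ⁅F⁆ H) := by
  obtain ⟨φ, haug⟩ := exists_norm φ₀
  obtain ⟨hfin, hdim⟩ := Pool.Agent.Lib.MP_a5a771_al.LD.finite_and_finrank φ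
  have hsol : LieAlgebra.IsSolvable (AlgebraicClosure F ⊗[F] H) :=
    Pool.Agent.Lib.MP_a5a771_al.LD.solvable_of_equiv (Pool.Agent.Lib.MP_a5a771_al.bcIso (AlgebraicClosure F) φ)
  obtain ⟨m, b, wt, D⟩ := exists_data_base F L
  obtain ⟨m', b', wt', D'⟩ := exists_data (AlgebraicClosure F) (AlgebraicClosure F ⊗[F] H)
  have hex : ∀ i, ∃ h : H, φ (UniversalEnvelopingAlgebra.ι F h) - UniversalEnvelopingAlgebra.ι F (b i) ∈
      UG b wt (wt i + 1) := by
    intro i
    have h1 := b_mem_Gw (b.baseChange (AlgebraicClosure F)) wt i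
    obtain ⟨h, -, h2⟩ := A6 D D' (Pool.Agent.Lib.MP_a5a771_al.bcIso (AlgebraicClosure F) φ)
      (aug_bcIso (AlgebraicClosure F) φ haug) (wt i) h1
    rw [Basis.baseChange_apply] at h2
    exact exists_descent_h b wt φ (wt i + 1) (b i) h h2
  choose h hh using hex
  refine Pool.Agent.Lib.MP_a5a771_al.LD.gauge b (WOk_of_baseChange b wt D.ok) hdim
    (φ : UniversalEnvelopingAlgebra F H →ₐ[F] UniversalEnvelopingAlgebra F L) (b.constr F h) fun i => ?_
  rw [Basis.constr_basis]
  exact hh i

end MP_a5a771_alC
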