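import Pool.Agent.Lib.MP_a5a771_alC.LF
import Pool.Agent.Lib.MP_a5a771_al.LD.GK

/-!
# Elements of the Lie algebra are ad-locally finite, ad-nilpotent elements ad-locally nilpotent; transport; augmentation
-/

set_option autoImplicit false

noncomputable section

open Module PBWB

namespace MP_a5a771_alC

attribute [local instance 100] LieRing.ofAssociativeRing

section general

variable {F A B : Type*} [Field F] [Ring A] [Algebra F A] [Ring B] [Algebra F B]

theorem dd_mul (u y z : A) : dd F u (y * z) = dd F u y * z + y * dd F u z := by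
  rw [dd_apply, dd_apply, dd_apply]
  noncomm_ring

theorem dd_pow_mul_zero (u : A) (n : ℕ) : ∀ (m m' : ℕ) (y z : A), m + m' = n → (dd F u ^ m) y = 0 →
    (dd F u ^ m') z = 0 → (dd F u ^ n) (y * z) = 0 := by
  induction n with
  | zero =>
    intro m m' y z h hy _
    obtain ⟨rfl, rfl⟩ : m = 0 ∧ m' = 0 := by omega
    rw [pow_zero, Module.End.one_apply] at hy
    rw [hy, zero_mul, map_zero]
  | succ n ih =>
    intro m m' y z h hy hz
    rcases Nat.eq_zero_or_pos m with rfl | hm
    · rw [pow_zero, Module.End.one_apply] at hy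
      rw [hy, zero_mul, map_zero]
    rcases Nat.eq_zero_or_pos m' with rfl | hm'
    · rw [pow_zero, Module.End.one_apply] at hz
      rw [hz, mul_zero, map_zero]
    obtain ⟨k, rfl⟩ := Nat.exists_eq_add_of_le' hm
    obtain ⟨k', rfl⟩ := Nat.exists_eq_add_of_le' hm'
    rw [pow_succ, Module.End.mul_apply, dd_mul, map_add,
      ih k (k' + 1) _ _ (by omega) (by rw [← Module.End.mul_apply, ← pow_succ]; exact hy) hz,
      ih (k + 1) k' _ _ (by omega) hy (by rw [← Module.End.mul_apply, ← pow_succ]; exact hz), add_zero]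

theorem map_dd_pow (φ : A →ₐ[F] B) (u y : A) (m : ℕ) : (dd F (φ u) ^ m) (φ y) = φ ((dd F u ^ m) y) := by
  induction m generalizing y with
  | zero => rfl
  | succ m ih =>
    have h : dd F (φ u) (φ y) = φ (dd F u y) := by rw [dd_apply, dd_apply, map_sub, map_mul, map_mul]
    rw [pow_succ, pow_succ, Module.End.mul_apply, Module.End.mul_apply, ← ih, h]

theorem LN_map (φ : A ≃ₐ[F] B) {u : A} (hu : LN F u) : LN F (φ u) := by
  intro y
  obtain ⟨m, hm⟩ := hu (φ.symm y)
  refine ⟨m, ?_⟩
  have h := map_dd_pow (φ : A →ₐ[F] B) u (φ.symm y) m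
  rw [hm, map_zero] at h
  have h1 : (φ : A →ₐ[F] B) (φ.symm y) = y := φ.apply_symm_apply y
  rw [h1] at h
  exact h

theorem LFin_map (φ : A ≃ₐ[F] B) {u : A} (hu : LFin F u) : LFin F (φ u) := by
  intro y
  obtain ⟨Q, hQ0, hQ⟩ := hu (φ.symm y)
  refine ⟨Q, hQ0, ?_⟩
  have h1 : (φ : A →ₐ[F] B) (φ.symm y) = y := φ.apply_symm_apply y
  rw [Polynomial.aeval_eq_sum_range] at hQ ⊢
  have h2 := congrArg (φ : A →ₐ[F] B) hQ
  rw [LinearMap.sum_apply, map_sum, map_zero] at h2
  rw [LinearMap.sum_apply, ← h2]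
  refine Finset.sum_congr rfl fun i _ => ?_
  rw [LinearMap.smul_apply, LinearMap.smul_apply, map_smul, ← map_dd_pow, h1]
  rfl

end general

variable {F L I : Type*} [Field F] [LieRing L] [LieAlgebra F L]

theorem iota_lie (x y : L) : UniversalEnvelopingAlgebra.ι F ⁅x, y⁆ =
    UniversalEnvelopingAlgebra.ι F x * UniversalEnvelopingAlgebra.ι F y -
      UniversalEnvelopingAlgebra.ι F y * UniversalEnvelopingAlgebra.ι F x := by
  rw [LieHom.map_lie, LieRing.of_associative_ring_bracket]

theorem dd_iota (l x : L) : dd F (UniversalEnvelopingAlgebra.ι F l) (UniversalEnvelopingAlgebra.ι F x) =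
    UniversalEnvelopingAlgebra.ι F ⁅l, x⁆ := by
  rw [dd_apply, iota_lie]

theorem dd_iota_pow (l x : L) (m : ℕ) :
    (dd F (UniversalEnvelopingAlgebra.ι F l) ^ m) (UniversalEnvelopingAlgebra.ι F x) =
      UniversalEnvelopingAlgebra.ι F ((LieAlgebra.ad F L l ^ m) x) := by
  induction m generalizing x with
  | zero => rfl
  | succ m ih =>
    rw [pow_succ, pow_succ, Module.End.mul_apply, Module.End.mul_apply, dd_iota, ih]
    rfl

/-- Ad-nilpotent elements are ad-locally nilpotent in the enveloping algebra. -/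
theorem LN_iota {l : L} (h : IsNilpotent (LieAlgebra.ad F L l)) : LN F (UniversalEnvelopingAlgebra.ι F l) := by
  obtain ⟨N, hN⟩ := h
  let b := Basis.ofVectorSpace F L
  intro y
  have hy : y ∈ UG b (fun _ => 0) 0 := by rw [UG_zero]; trivial
  have hgen : ∀ w : List (Basis.ofVectorSpaceIndex F L), ∃ m : ℕ,
      (dd F (UniversalEnvelopingAlgebra.ι F l) ^ m) (wp b w) = 0 := by
    intro w
    induction w with
    | nil =>
      refine ⟨1, ?_⟩
      rw [pow_one, wp_nil, dd_apply, mul_one, one_mul, sub_self]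
    | cons i w ih =>
      obtain ⟨m, hm⟩ := ih
      refine ⟨N + m, ?_⟩
      rw [wp_cons]
      refine dd_pow_mul_zero _ _ N m _ _ rfl ?_ hm
      rw [dd_iota_pow, hN, LinearMap.zero_apply, map_zero]
  induction hy using Submodule.span_induction with
  | mem x hx =>
    obtain ⟨w, -, rfl⟩ := hx
    exact hgen w
  | zero => exact ⟨0, map_zero _⟩
  | add x y _ _ hx hy =>
    obtain ⟨m, hm⟩ := hx
    obtain ⟨m', hm'⟩ := hy
    refine ⟨m + m', ?_⟩
    rw [map_add, dd_pow_zero_of_le hm (by omega), dd_pow_zero_of_le hm' (by omega), add_zero]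
  | smul c x _ hx =>
    obtain ⟨m, hm⟩ := hx
    exact ⟨m, by rw [map_smul, hm, smul_zero]⟩

/-- The commutator with an element of the Lie algebra respects the lengths. -/
theorem dd_iota_UD (b : Basis I F L) (l : L) (n : ℕ) {u : UniversalEnvelopingAlgebra F L} (hu : u ∈ UD b n) :
    dd F (UniversalEnvelopingAlgebra.ι F l) u ∈ UD b n := by
  have hl : ∀ x : L, UniversalEnvelopingAlgebra.ι F x ∈ UD b 1 := by
    intro x
    rw [← b.linearCombination_repr x, Finsupp.linearCombination_apply, Finsupp.sum, map_sum]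
    refine sum_mem fun i _ => ?_
    rw [map_smul]
    exact Submodule.smul_mem _ _ (Submodule.subset_span ⟨[i], le_rfl, (wp_single b i).symm⟩)
  have hw : ∀ w : List I, dd F (UniversalEnvelopingAlgebra.ι F l) (wp b w) ∈ UD b w.length := by
    intro w
    induction w with
    | nil =>
      rw [wp_nil, dd_apply, mul_one, one_mul, sub_self]
      exact zero_mem _
    | cons i w ih =>
      rw [wp_cons, dd_mul, dd_iota]
      have h1 : wp b w ∈ UD b w.length := Submodule.subset_span ⟨w, le_rfl, rfl⟩
      have h2 := UD_mul b (hl ⁅l, b i⁆) h1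
      have h3 := UD_mul b (hl (b i)) ih
      rw [add_comm 1] at h2 h3
      exact add_mem h2 h3
  have h : UD b n ≤ (UD b n).comap (dd F (UniversalEnvelopingAlgebra.ι F l)) := by
    refine Submodule.span_le.2 ?_
    rintro _ ⟨w, hw', rfl⟩
    exact UD_mono b hw' (hw w)
  exact h hu

/-- Elements of a finite-dimensional Lie algebra are ad-locally finite in the enveloping algebra. -/
theorem LFin_iota [FiniteDimensional F L] (l : L) : LFin F (UniversalEnvelopingAlgebra.ι F l) := by
  intro y
  let b := Module.finBasis F L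
  obtain ⟨n, hn⟩ := Pool.Agent.Lib.MP_a5a771_al.LD.mem_UD b y
  have hfin : Module.Finite F (UD b n) := (Pool.Agent.Lib.MP_a5a771_al.LD.finrank_UD_le b n).1
  let D : Module.End F (UD b n) := (dd F (UniversalEnvelopingAlgebra.ι F l)).restrict
    (fun u hu => dd_iota_UD b l n hu)
  refine ⟨minpoly F D, minpoly.ne_zero (Algebra.IsIntegral.isIntegral D), ?_⟩
  have hD : ∀ i (z : UD b n), ((D ^ i) z : UniversalEnvelopingAlgebra F L) =
      (dd F (UniversalEnvelopingAlgebra.ι F l) ^ i) z.1 := by
    intro i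
    induction i with
    | zero => intro z; rfl
    | succ i ih =>
      intro z
      rw [pow_succ, pow_succ, Module.End.mul_apply, Module.End.mul_apply, ih]
      rfl
  have h1 := minpoly.aeval F D
  rw [Polynomial.aeval_eq_sum_range] at h1 ⊢
  have h2 := congrArg (fun f => (f ⟨y, hn⟩ : UniversalEnvelopingAlgebra F L)) h1
  simp only [LinearMap.sum_apply, LinearMap.smul_apply, Submodule.coe_sum, Submodule.coe_smul, hD,
    LinearMap.zero_apply, Submodule.coe_zero] at h2
  rw [LinearMap.sum_apply]
  exact h2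

/-- The augmentation. -/
def aug (F L : Type*) [Field F] [LieRing L] [LieAlgebra F L] : UniversalEnvelopingAlgebra F L →ₐ[F] F :=
  UniversalEnvelopingAlgebra.lift F (0 : L →ₗ⁅F⁆ F)

theorem aug_iota (l : L) : aug F L (UniversalEnvelopingAlgebra.ι F l) = 0 := by
  rw [aug, UniversalEnvelopingAlgebra.lift_ι_apply]
  rfl

theorem aug_UG (b : Basis I F L) (wt : I → ℕ) {u : UniversalEnvelopingAlgebra F L} (hu : u ∈ UG b wt 1) :
    aug F L u = 0 := by
  have h : UG b wt 1 ≤ LinearMap.ker (aug F L).toLinearMap := by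
    refine Submodule.span_le.2 ?_
    rintro _ ⟨w, hw, rfl⟩
    cases w with
    | nil => rw [wgt_nil] at hw; omega
    | cons i w =>
      show aug F L (wp b (i :: w)) = 0
      rw [wp_cons, map_mul, aug_iota, zero_mul]
  exact h hu

end MP_a5a771_alC
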