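import Pool.Agent.Lib.MP_a5a771_alC.Defs

/-!
# Leaf LT3: adapted bases
-/

set_option autoImplicit false

noncomputable section

open Module PBWB

namespace MP_a5a771_alC

attribute [local instance 100] LieRing.ofAssociativeRing

variable {F L : Type*} [Field F] [LieRing L] [LieAlgebra F L]

private theorem LT3_set (G : ℕ → Submodule F L) (hanti : Antitone G) {N : ℕ} (hN : G N = ⊥) :
    ∀ k a : ℕ, k + a = N → ∃ B : Set L, B ⊆ (G a : Set L) ∧ LinearIndepOn F id B ∧
      ∀ c, a ≤ c → Submodule.span F (B ∩ (G c : Set L)) = G c := by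
  intro k
  induction k with
  | zero =>
    intro a ha
    rw [zero_add] at ha
    subst ha
    refine ⟨∅, Set.empty_subset _, linearIndepOn_empty F id, fun c hc => ?_⟩
    have h1 : G c = ⊥ := by
      rw [eq_bot_iff, ← hN]
      exact hanti hc
    rw [Set.empty_inter, Submodule.span_empty, h1]
  | succ k ih =>
    intro a ha
    obtain ⟨B, hB1, hB2, hB3⟩ := ih (a + 1) (by omega)
    obtain ⟨B', hB'1, hBB', hB'2, hB'3⟩ := exists_linearIndepOn_id_extension hB2
      (hB1.trans (hanti (Nat.le_succ a)) : B ⊆ (G a : Set L))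
    refine ⟨B', hB'1, hB'3, fun c hc => ?_⟩
    refine le_antisymm (Submodule.span_le.2 Set.inter_subset_right) ?_
    rcases Nat.eq_or_lt_of_le hc with h | h
    · subst h
      rw [Set.inter_eq_left.2 hB'1]
      exact hB'2
    · have h1 := Submodule.span_mono (R := F) (Set.inter_subset_inter_left (G c : Set L) hBB')
      rwa [hB3 c h] at h1

/-- A basis adapted to a finite filtration, the elements of large weight first.
Proof. (No bracket is used.) By induction on `N` build a basis of `G 0 = ⊤`: extend a basis of `G (a + 1)` to a basis of `G a`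
(descending induction on `a`), with weight `a` for the new vectors; order the index set so that the new vectors come last. -/
theorem exists_adapted [FiniteDimensional F L] (G : ℕ → Submodule F L) (h0 : G 0 = ⊤) (hanti : Antitone G)
    (hfin : ∃ N, G N = ⊥) :
    ∃ (m : ℕ) (b : Basis (Fin m) F L) (wt : Fin m → ℕ), Antitone wt ∧ ∀ a, Gw b wt a = G a := by
  classical
  obtain ⟨N, hN⟩ := hfin
  obtain ⟨B, _, hB2, hB3⟩ := LT3_set G hanti hN N 0 (by omega)
  have hspan : ∀ c, Submodule.span F (B ∩ (G c : Set L)) = G c := fun c => hB3 c (Nat.zero_le c)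
  have hli : LinearIndependent F ((↑) : B → L) := hB2
  have htop : ⊤ ≤ Submodule.span F (Set.range ((↑) : B → L)) := by
    rw [Subtype.range_coe]
    have h1 := hspan 0
    rw [h0] at h1
    rw [← h1]
    exact Submodule.span_mono Set.inter_subset_left
  set b₀ : Basis B F L := Basis.mk hli htop with hb₀
  have hb₀a : ∀ x : B, b₀ x = x := fun x => Basis.mk_apply hli htop x
  have : Finite B := Module.Finite.finite_basis b₀
  let _ : Fintype B := Fintype.ofFinite B
  let w₀ : B → ℕ := fun x => Nat.findGreatest (fun a => (x : L) ∈ G a) N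
  have hw₀ : ∀ (x : B) (a : ℕ), a ≤ w₀ x ↔ (x : L) ∈ G a := by
    intro x a
    have hx0 : (x : L) ≠ 0 := by
      have := b₀.ne_zero x
      rwa [hb₀a] at this
    have h2 : (x : L) ∈ G (w₀ x) :=
      Nat.findGreatest_spec (P := fun a => (x : L) ∈ G a) (Nat.zero_le N) (by rw [h0]; trivial)
    constructor
    · intro h
      exact hanti h h2
    · intro h
      refine Nat.le_findGreatest ?_ h
      by_contra hc
      rw [not_le] at hc
      have h3 : (x : L) ∈ G N := hanti hc.le h
      rw [hN] at h3
      exact hx0 ((Submodule.mem_bot F).1 h3)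
  let e₀ : B ≃ Fin (Fintype.card B) := Fintype.equivFin B
  let f : Fin (Fintype.card B) → ℕᵒᵈ := fun i => OrderDual.toDual (w₀ (e₀.symm i))
  let e : B ≃ Fin (Fintype.card B) := e₀.trans (Tuple.sort f).symm
  refine ⟨Fintype.card B, b₀.reindex e, fun i => w₀ (e.symm i), ?_, ?_⟩
  · intro i j hij
    exact Tuple.monotone_sort f hij
  · intro a
    ext x
    have h1 : x ∈ Gw (b₀.reindex e) (fun i => w₀ (e.symm i)) a ↔ ∀ i : B, b₀.repr x i ≠ 0 → (i : L) ∈ G a := by
      constructor
      · intro h i hi
        have h2 := h (e i) (by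
          rw [Basis.repr_reindex_apply, Equiv.symm_apply_apply]
          exact hi)
        have h5 : a ≤ w₀ (e.symm (e i)) := h2
        rw [Equiv.symm_apply_apply] at h5
        exact (hw₀ i a).1 h5
      · intro h i hi
        rw [Basis.repr_reindex_apply] at hi
        exact (hw₀ _ a).2 (h _ hi)
    rw [h1]
    constructor
    · intro h
      rw [← b₀.sum_repr x]
      refine Submodule.sum_mem _ fun i _ => ?_
      by_cases hi : b₀.repr x i = 0
      · rw [hi, zero_smul]
        exact Submodule.zero_mem _
      · rw [hb₀a]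
        exact Submodule.smul_mem _ _ (h i hi)
    · intro hx i hi
      have h2 : x ∈ Submodule.span F (b₀ '' {i : B | (i : L) ∈ G a}) := by
        have h3 : b₀ '' {i : B | (i : L) ∈ G a} = B ∩ (G a : Set L) := by
          ext y
          constructor
          · rintro ⟨i, hi, rfl⟩
            rw [hb₀a]
            exact ⟨i.2, hi⟩
          · rintro ⟨hy1, hy2⟩
            exact ⟨⟨y, hy1⟩, hy2, hb₀a _⟩
        rw [h3, hspan a]
        exact hx
      have h4 := b₀.repr_support_subset_of_mem_span _ h2
      exact h4 (Finsupp.mem_support_iff.2 hi)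

end MP_a5a771_alC
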