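import Pool.Agent.Lib.MP_a5a771_alC.LT2

/-!
# Leaf LT4
-/

set_option autoImplicit false

noncomputable section

open Module PBWB

namespace MP_a5a771_alC

attribute [local instance 100] LieRing.ofAssociativeRing

variable {F L : Type*} [Field F] [LieRing L] [LieAlgebra F L]

private theorem LT4_leib (l : L) (M : Submodule F L) (m : ℕ) : ∀ x y : L,
    (∀ i j, i + j = m → ⁅(LieAlgebra.ad F L l ^ i) x, (LieAlgebra.ad F L l ^ j) y⁆ ∈ M) →
      (LieAlgebra.ad F L l ^ m) ⁅x, y⁆ ∈ M := by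
  induction m with
  | zero =>
    intro x y h
    have := h 0 0 rfl
    simpa using this
  | succ m ih =>
    intro x y h
    rw [pow_succ, Module.End.mul_apply, LieAlgebra.ad_apply, leibniz_lie, map_add]
    refine M.add_mem (ih _ _ fun i j hij => ?_) (ih _ _ fun i j hij => ?_)
    · have := h (i + 1) j (by omega)
      rwa [pow_succ, Module.End.mul_apply, LieAlgebra.ad_apply] at this
    · have := h i (j + 1) (by omega)
      rwa [pow_succ _ j, Module.End.mul_apply, LieAlgebra.ad_apply] at this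

private theorem LT4_stab (n : Submodule F L) (hid : ∀ x : L, ∀ y ∈ n, ⁅x, y⁆ ∈ n) (l : L) (k i : ℕ) :
    ∀ z ∈ gam n k, (LieAlgebra.ad F L l ^ i) z ∈ gam n k := by
  induction i with
  | zero =>
    intro z hz
    simpa using hz
  | succ i ih =>
    intro z hz
    rw [pow_succ, Module.End.mul_apply]
    apply ih
    have h0 : l ∈ gam n 0 := Submodule.mem_top
    have h1 := gam_lie n hid h0 hz
    rw [zero_add] at h1
    rwa [LieAlgebra.ad_apply]

private theorem LT4_ge (n : Submodule F L) (hid : ∀ x : L, ∀ y ∈ n, ⁅x, y⁆ ∈ n) (l : L) (k N i : ℕ)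
    (hi : N ≤ i) (z : L) (hz : (LieAlgebra.ad F L l ^ N) z ∈ gam n k) :
    (LieAlgebra.ad F L l ^ i) z ∈ gam n k := by
  obtain ⟨c, rfl⟩ := Nat.exists_eq_add_of_le' hi
  rw [pow_add, Module.End.mul_apply]
  exact LT4_stab n hid l k c _ hz

private theorem LT4_step (n : Submodule F L) (hid : ∀ x : L, ∀ y ∈ n, ⁅x, y⁆ ∈ n) (l : L) (N : ℕ)
    (h : ∀ x ∈ n, (LieAlgebra.ad F L l ^ N) x ∈ gam n 2) (k : ℕ) :
    ∃ K : ℕ, ∀ z ∈ gam n (k + 1), (LieAlgebra.ad F L l ^ K) z ∈ gam n (k + 2) := by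
  induction k with
  | zero => exact ⟨N, h⟩
  | succ k ih =>
    obtain ⟨K, hK⟩ := ih
    refine ⟨N + K, fun z hz => ?_⟩
    have hz' : z ∈ Submodule.span F {z | ∃ x ∈ n, ∃ y ∈ gam n (k + 1), z = ⁅x, y⁆} := hz
    have hle : Submodule.span F {z | ∃ x ∈ n, ∃ y ∈ gam n (k + 1), z = ⁅x, y⁆} ≤
        (gam n (k + 1 + 2)).comap (LieAlgebra.ad F L l ^ (N + K)) := by
      rw [Submodule.span_le]
      rintro z ⟨x, hx, y, hy, rfl⟩
      show (LieAlgebra.ad F L l ^ (N + K)) ⁅x, y⁆ ∈ gam n (k + 1 + 2)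
      apply LT4_leib
      intro i j hij
      have hx1 : x ∈ gam n 1 := hx
      rcases Nat.lt_or_ge i N with hi | hi
      · have h1 := LT4_stab n hid l 1 i x hx1
        have h2 := LT4_ge n hid l (k + 2) K j (by omega) y (hK y hy)
        have h3 := gam_lie n hid h1 h2
        have h4 : 1 + (k + 2) = k + 1 + 2 := by omega
        rwa [h4] at h3
      · have h1 := LT4_ge n hid l 2 N i hi x (h x hx)
        have h2 := LT4_stab n hid l (k + 1) j y hy
        have h3 := gam_lie n hid h1 h2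
        have h4 : 2 + (k + 1) = k + 1 + 2 := by omega
        rwa [h4] at h3
    exact hle hz'

/-- An element which is nilpotent on `n / [n, n]` is ad-nilpotent.
Proof. `(ad l)^N n ⊆ gam n 2`. By induction on `k ≥ 1` there is `N_k` with `(ad l)^N_k (gam n k) ⊆ gam n (k + 1)` (Leibniz rule on
`⁅x, y⁆`, `x ∈ n`, `y ∈ gam n k`, exponent `N + N_k`: one factor falls by one step), and `ad l` maps `L` to `n`; as `gam n N' = ⊥` for some `N'`,
`ad l` is nilpotent. -/
theorem gam_detect [FiniteDimensional F L] (n : Submodule F L) (hL : ∀ x y : L, ⁅x, y⁆ ∈ n)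
    (hnil : ∀ x ∈ n, IsNilpotent (LieAlgebra.ad F L x)) (l : L) (N : ℕ)
    (h : ∀ x ∈ n, (LieAlgebra.ad F L l ^ N) x ∈ gam n 2) : IsNilpotent (LieAlgebra.ad F L l) := by
  have hid : ∀ x : L, ∀ y ∈ n, ⁅x, y⁆ ∈ n := fun x y _ => hL x y
  obtain ⟨N', hN'⟩ := gam_fin n hid hnil
  have key : ∀ k : ℕ, ∃ K : ℕ, ∀ z : L, (LieAlgebra.ad F L l ^ K) z ∈ gam n (k + 1) := by
    intro k
    induction k with
    | zero =>
      refine ⟨1, fun z => ?_⟩
      rw [pow_one, LieAlgebra.ad_apply]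
      exact hL l z
    | succ k ih =>
      obtain ⟨K, hK⟩ := ih
      obtain ⟨K', hK'⟩ := LT4_step n hid l N h k
      refine ⟨K' + K, fun z => ?_⟩
      rw [pow_add, Module.End.mul_apply]
      exact hK' _ (hK z)
  obtain ⟨K, hK⟩ := key N'
  refine ⟨K, LinearMap.ext fun z => ?_⟩
  have h1 := gam_anti n hid (Nat.le_succ N') (hK z)
  rw [hN', Submodule.mem_bot] at h1
  exact h1

end MP_a5a771_alC
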