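import Pool.Agent.Lib.MP_a5a771_alC.LT1
import Pool.Agent.Lib.MP_a5a771_alC.LT3
import Pool.Agent.Lib.MP_a5a771_alC.LT4
import Pool.Agent.Lib.MP_a5a771_alC.E6

/-!
# The basis of a solvable Lie algebra adapted to the lower central series of the nilradical
-/

set_option autoImplicit false

noncomputable section

open Module PBWB

namespace MP_a5a771_alC

attribute [local instance 100] LieRing.ofAssociativeRing

section

variable {F L I : Type*} [Field F] [LieRing L] [LieAlgebra F L] (b : Basis I F L) (wt : I → ℕ)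

/-- An element of `n` whose part of weight `1` is zero has weight at least `2`. -/
theorem mem_Gw_two {x : L} (hx : x ∈ Gw b wt 1) (h : wl b wt x = 0) : x ∈ Gw b wt 2 := by
  classical
  intro i hi
  have h1 := hx i hi
  by_contra h2
  have hi1 : wt i = 1 := by omega
  apply hi
  have h3 : MvPolynomial.coeff (Finsupp.single i 1) (wl b wt x) = b.repr x i := by
    have h4 : wl b wt x = ∑ k ∈ (b.repr x).support, b.repr x k • wl b wt (b k) := by
      conv_lhs => rw [← b.linearCombination_repr x, Finsupp.linearCombination_apply, Finsupp.sum, map_sum]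
      refine Finset.sum_congr rfl fun k _ => ?_
      rw [map_smul]
    rw [h4, MvPolynomial.coeff_sum, Finset.sum_eq_single i]
    · rw [wl_b, if_pos hi1, MvPolynomial.coeff_smul, MvPolynomial.coeff_X, if_pos rfl, smul_eq_mul, mul_one]
    · intro k _ hk
      rw [wl_b, MvPolynomial.coeff_smul]
      split_ifs with h5
      · rw [MvPolynomial.coeff_X, if_neg, smul_zero]
        intro h6
        exact hk (Finsupp.single_left_injective one_ne_zero h6)
      · rw [MvPolynomial.coeff_zero, smul_zero]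
    · intro h5
      rw [Finsupp.notMem_support_iff.1 h5, zero_smul, MvPolynomial.coeff_zero]
  rw [← h3, h, MvPolynomial.coeff_zero]

theorem wl_ad_pow (hwt : WOk b wt) (l : L) (N : ℕ) {x : L} (hx : x ∈ Gw b wt 1) :
    (LieAlgebra.ad F L l ^ N) x ∈ Gw b wt 1 ∧
      wl b wt ((LieAlgebra.ad F L l ^ N) x) =
        ((Ad b wt l : MvPolynomial I F →ₗ[F] MvPolynomial I F) ^ N) (wl b wt x) := by
  induction N with
  | zero => exact ⟨hx, rfl⟩
  | succ N ih =>
    obtain ⟨h1, h2⟩ := ih
    rw [pow_succ', pow_succ', Module.End.mul_apply, Module.End.mul_apply, ← h2]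
    have h3 : LieAlgebra.ad F L l ((LieAlgebra.ad F L l ^ N) x) = ⁅l, (LieAlgebra.ad F L l ^ N) x⁆ := rfl
    rw [h3]
    refine ⟨?_, ?_⟩
    · have h4 := Gw_lie b wt hwt (x := l) (a := 0) (fun _ _ => Nat.zero_le _) h1
      rwa [zero_add] at h4
    · exact (Ad_wl b wt hwt l h1).symm

end

/-- The data of a solvable Lie algebra. -/
structure Data {F L : Type*} [Field F] [LieRing L] [LieAlgebra F L] {m : ℕ} (b : Basis (Fin m) F L)
    (wt : Fin m → ℕ) : Prop where
  mono : Antitone wt
  ok : WOk b wt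
  ab : HA b wt
  nil : ∀ l : L, l ∈ Gw b wt 1 ↔ IsNilpotent (LieAlgebra.ad F L l)
  det : ∀ l : L, (∃ N : ℕ, ∀ p ∈ W0 b wt,
    ((Ad b wt l : MvPolynomial (Fin m) F →ₗ[F] MvPolynomial (Fin m) F) ^ N) p = 0) → l ∈ Gw b wt 1
  gen : ∀ a : ℕ, 1 ≤ a → ∀ x ∈ Gw b wt (a + 1),
    x ∈ Submodule.span F {z | ∃ x ∈ Gw b wt 1, ∃ y ∈ Gw b wt a, z = ⁅x, y⁆}

/-- A basis adapted to the filtration `gam n`, `n` the ad-nilpotent elements, has the properties of `Data`. -/
theorem data_of_gam {F L : Type*} [Field F] [LieRing L] [LieAlgebra F L] {m : ℕ} (b : Basis (Fin m) F L)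
    (wt : Fin m → ℕ) (n : Submodule F L) (hn : ∀ l, l ∈ n ↔ IsNilpotent (LieAlgebra.ad F L l))
    (hL : ∀ x y : L, ⁅x, y⁆ ∈ n) (hmono : Antitone wt) (hG : ∀ a, Gw b wt a = gam n a) : Data b wt := by
  have hfd : FiniteDimensional F L := Module.Finite.of_basis b
  have hid : ∀ x : L, ∀ y ∈ n, ⁅x, y⁆ ∈ n := fun x y _ => hL x y
  have hok : WOk b wt := by
    intro i j k hk
    have h1 : b i ∈ gam n (wt i) := by rw [← hG]; exact b_mem_Gw b wt i
    have h2 : b j ∈ gam n (wt j) := by rw [← hG]; exact b_mem_Gw b wt j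
    have h3 := gam_lie n hid h1 h2
    rw [← hG] at h3
    exact h3 k hk
  have hG1 : Gw b wt 1 = n := hG 1
  refine ⟨hmono, hok, ?_, ?_, ?_, ?_⟩
  · intro i j k hk
    have h1 := hL (b i) (b j)
    rw [← hG1] at h1
    exact h1 k hk
  · intro l
    rw [hG1]
    exact hn l
  · rintro l ⟨N, hN⟩
    rw [hG1, hn]
    refine gam_detect n hL (fun x hx => (hn x).1 hx) l N fun x hx => ?_
    rw [← hG1] at hx
    rw [← hG 2]
    obtain ⟨h1, h2⟩ := wl_ad_pow b wt hok l N hx
    refine mem_Gw_two b wt h1 ?_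
    rw [h2]
    exact hN _ (wl_mem_W0 b wt x)
  · intro a ha x hx
    obtain ⟨k, rfl⟩ := Nat.exists_eq_add_of_le ha
    rw [hG] at hx
    rw [hG, hG]
    have h1 : 1 + k + 1 = k + 2 := by omega
    have h2 : 1 + k = k + 1 := by omega
    rw [h1] at hx
    rw [h2]
    exact hx

/-- The ad-nilpotent elements of a solvable Lie algebra are a subspace which contains the brackets. -/
theorem exists_nil (F L : Type*) [Field F] [IsAlgClosed F] [CharZero F] [LieRing L] [LieAlgebra F L]
    [FiniteDimensional F L] [LieAlgebra.IsSolvable L] :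
    ∃ n : Submodule F L, (∀ l, l ∈ n ↔ IsNilpotent (LieAlgebra.ad F L l)) ∧ ∀ x y : L, ⁅x, y⁆ ∈ n := by
  obtain ⟨s, hs1, hs2⟩ := exists_weights (F := F) (L := L) L
  let n : Submodule F L :=
    { carrier := {l | ∀ chi ∈ s, chi l = 0}
      add_mem' := fun {x y} hx hy chi hchi => by rw [map_add, hx chi hchi, hy chi hchi, add_zero]
      zero_mem' := fun chi _ => map_zero chi
      smul_mem' := fun c x hx chi hchi => by rw [map_smul, hx chi hchi, smul_zero] }
  exact ⟨n, fun l => (hs2 l).symm, fun x y chi hchi => hs1 chi hchi x y⟩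

/-- The data exist. -/
theorem exists_data (F L : Type*) [Field F] [IsAlgClosed F] [CharZero F] [LieRing L] [LieAlgebra F L]
    [FiniteDimensional F L] [LieAlgebra.IsSolvable L] :
    ∃ (m : ℕ) (b : Basis (Fin m) F L) (wt : Fin m → ℕ), Data b wt := by
  obtain ⟨n, hn, hL⟩ := exists_nil F L
  have hid : ∀ x : L, ∀ y ∈ n, ⁅x, y⁆ ∈ n := fun x y _ => hL x y
  obtain ⟨m, b, wt, hmono, hG⟩ := exists_adapted (gam n) rfl (gam_anti n hid) (gam_fin n hid fun x hx => (hn x).1 hx)
  exact ⟨m, b, wt, data_of_gam b wt n hn hL hmono hG⟩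

end MP_a5a771_alC
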