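import Pool.Agent.Lib.MP_a5a771_alC.TW

/-!
# The twist, conclusion
-/

set_option autoImplicit false

noncomputable section

open Module PBWB

namespace MP_a5a771_alC

attribute [local instance 100] LieRing.ofAssociativeRing

variable {F L I : Type*} [Field F] [LieRing L] [LieAlgebra F L] [LinearOrder I] (b : Basis I F L) (wt : I → ℕ)

/-- The value at `1` of the symbol of level `1`. -/
def e1 (sg : ℕ → UniversalEnvelopingAlgebra F L →ₗ[F] Module.End F (MvPolynomial I F)) :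
    UniversalEnvelopingAlgebra F L →ₗ[F] MvPolynomial I F where
  toFun u := sg 1 u 1
  map_add' u v := by rw [map_add, LinearMap.add_apply]
  map_smul' c u := by rw [map_smul, LinearMap.smul_apply, RingHom.id_apply]

omit [LinearOrder I] in
/-- Powers of the derivations are linear over the polynomials in the letters of weight zero. -/
theorem Ad_pow_mul_PT (l : L) (N : ℕ) (p : MvPolynomial I F) {q : MvPolynomial I F} (hq : q ∈ PT wt F) :
    ((Ad b wt l : MvPolynomial I F →ₗ[F] MvPolynomial I F) ^ N) (p * q) =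
      ((Ad b wt l : MvPolynomial I F →ₗ[F] MvPolynomial I F) ^ N) p * q := by
  induction N generalizing p with
  | zero => rfl
  | succ N ih =>
    rw [pow_succ, Module.End.mul_apply, Module.End.mul_apply]
    have h1 : (Ad b wt l : MvPolynomial I F →ₗ[F] MvPolynomial I F) (p * q) =
        (Ad b wt l : MvPolynomial I F →ₗ[F] MvPolynomial I F) p * q := by
      show Ad b wt l (p * q) = Ad b wt l p * q
      rw [Derivation.leibniz, Ad_PT b wt l hq, smul_zero, zero_add, smul_eq_mul, mul_comm]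
    rw [h1, ih]

variable {b wt}

/-- The twist is constant. -/
theorem twist [IsAlgClosed F] [CharZero F] [Fintype I] (hwt : WOk b wt) (hA : HA b wt)
    (hN3 : ∀ l, (∃ N : ℕ, ∀ p ∈ W0 b wt, ((Ad b wt l : MvPolynomial I F →ₗ[F] MvPolynomial I F) ^ N) p = 0) →
      l ∈ Gw b wt 1)
    {sg : ℕ → UniversalEnvelopingAlgebra F L →ₗ[F] Module.End F (MvPolynomial I F)} (hsg : IsSym b wt sg)
    (M : Submodule F (UniversalEnvelopingAlgebra F L)) (m0 : FiniteDimensional F M)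
    (m1 : ∀ u ∈ M, u ∈ UG b wt 1) (m2 : ∀ u ∈ M, ∀ v ∈ M, u * v - v * u ∈ M)
    (m3 : ∀ l : L, ∃ z : UniversalEnvelopingAlgebra F L,
      z - UniversalEnvelopingAlgebra.ι F l ∈ UG b wt 1 ∧ ∀ u ∈ M, z * u - u * z ∈ M)
    (m4 : ∀ u ∈ M, LN F u)
    (m5 : ∀ l ∈ Gw b wt 1, UniversalEnvelopingAlgebra.ι F l ∈
      Submodule.span F {y | ∃ u ∈ M, ∃ z : UniversalEnvelopingAlgebra F L, y = u * z}) :
    ∀ u ∈ M, ∃ l ∈ Gw b wt 1, u - UniversalEnvelopingAlgebra.ι F l ∈ UG b wt 2 := by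
  have hL0 : ∀ z : UniversalEnvelopingAlgebra F L, z ∈ UG b wt 0 := fun z => by rw [UG_zero]; trivial
  set XM : Submodule F (MvPolynomial I F) := M.map (e1 sg) with hXM
  have hmem : ∀ p, p ∈ XM ↔ ∃ u ∈ M, sg 1 u 1 = p := fun p => Submodule.mem_map
  have hfin : FiniteDimensional F XM := by rw [hXM]; infer_instance
  have hPW : XM ≤ PW b wt := by
    intro p hp
    obtain ⟨u, hu, rfl⟩ := (hmem p).1 hp
    exact hsg.mem1 u (m1 u hu)
  -- stability under the derivations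
  have hAd : ∀ l, ∀ p ∈ XM, Ad b wt l p ∈ XM := by
    intro l p hp
    obtain ⟨u, hu, rfl⟩ := (hmem p).1 hp
    obtain ⟨z, hz, hz'⟩ := m3 l
    have hsz : sg 0 z = TT b wt l := by
      have h1 := hsg.zero (k := 0) hz
      rw [map_sub, hsg.iota0] at h1
      exact sub_eq_zero.1 h1
    refine (hmem _).2 ⟨z * u - u * z, hz' u hu, ?_⟩
    have h1 : sg 1 (z * u) = sg 0 z * sg 1 u := hsg.mul (hL0 z) (m1 u hu)
    have h2 : sg 1 (u * z) = sg 1 u * sg 0 z := hsg.mul (m1 u hu) (hL0 z)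
    rw [map_sub, h1, h2, hsz, LinearMap.sub_apply, Module.End.mul_apply, Module.End.mul_apply, TT_apply,
      TT_one]
    have h3 := act_PT b wt (tl_mem_PT b wt l) (hsg.mem (m1 u hu)) 1
    rw [one_mul] at h3
    rw [h3]
    ring
  -- generation
  have hgen : ∀ w ∈ W0 b wt, w ∈ Submodule.span F {p | ∃ X ∈ XM, ∃ q ∈ PT wt F, p = X * q} := by
    intro w hw
    obtain ⟨l, hl, hlw, hlU, hlM⟩ := sg_W0 hsg hw
    have h1 : w = e1 sg (UniversalEnvelopingAlgebra.ι F l) := by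
      show w = sg 1 (UniversalEnvelopingAlgebra.ι F l) 1
      rw [hlM, MM_apply, mul_one]
    have h2 := Submodule.mem_map_of_mem (f := e1 sg) (m5 l hl)
    rw [Submodule.map_span, ← h1] at h2
    refine Submodule.span_mono ?_ h2
    rintro _ ⟨_, ⟨u, hu, z, rfl⟩, rfl⟩
    refine ⟨sg 1 u 1, (hmem _).2 ⟨u, hu, rfl⟩, sg 0 z 1, hsg.mem0 z, ?_⟩
    show sg 1 (u * z) 1 = _
    have h3 : sg 1 (u * z) = sg 1 u * sg 0 z := hsg.mul (m1 u hu) (hL0 z)
    have h4 := act_PT b wt (hsg.mem0 z) (hsg.mem (m1 u hu)) 1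
    rw [one_mul] at h4
    rw [h3, Module.End.mul_apply, h4]
  -- the weights of `XM` separate
  have hS : ∀ l, (∀ mu : L →ₗ[F] F, (∃ v ∈ XM, v ≠ 0 ∧ IsEig b wt mu v) → mu l = 0) → l ∈ Gw b wt 1 := by
    intro l hl
    obtain ⟨N, hN⟩ := nil_of_weights b wt hwt hA XM hAd l hl
    refine hN3 l ⟨N, fun p hp => ?_⟩
    have h2 : Submodule.span F {p | ∃ X ∈ XM, ∃ q ∈ PT wt F, p = X * q} ≤
        LinearMap.ker ((Ad b wt l : MvPolynomial I F →ₗ[F] MvPolynomial I F) ^ N) := by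
      refine Submodule.span_le.2 ?_
      rintro _ ⟨X, hX, q, hq, rfl⟩
      show ((Ad b wt l : MvPolynomial I F →ₗ[F] MvPolynomial I F) ^ N) (X * q) = 0
      rw [Ad_pow_mul_PT b wt l N X hq, hN X hX, zero_mul]
    exact h2 (hgen p hp)
  have hSW := SW_detect b wt hwt hA hN3
  -- eigenvectors of level `k` which are symbols of elements of `M` are constant
  have hconst : ∀ {k : ℕ} {u : UniversalEnvelopingAlgebra F L}, u ∈ UG b wt k → LN F u →
      ∀ {s : L →ₗ[F] F}, Kills b wt s → IsEig b wt s (sg k u 1) → ∀ {b₀ : MvPolynomial I F}, b₀ ≠ 0 →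
      IsEig b wt s b₀ → ∀ {k' : ℕ} {z : UniversalEnvelopingAlgebra F L}, z ∈ UG b wt k' → sg k' z = MM b₀ →
      ev0 wt F (sg k u 1) = sg k u 1 := by
    intro k u hu hLN s hs hY b₀ hb0 hb k' z hz hzb
    exact ev0_of_tau b wt (SW b wt) hSW _ fun mu hmu => step1 hwt hsg hu hLN hs hY hb0 hb hz hzb hmu
  have hconst1 : ∀ {u : UniversalEnvelopingAlgebra F L}, u ∈ M → ∀ {s : L →ₗ[F] F}, IsEig b wt s (sg 1 u 1) →
      sg 1 u 1 ∈ W0 b wt := by
    intro u hu s hY
    by_cases h0 : sg 1 u 1 = 0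
    · rw [h0]; exact zero_mem _
    have hs := Kills_of_IsEig b wt hwt h0 hY
    obtain ⟨rho, -, hrho⟩ := exists_point b wt h0
    have hb0W : ev0 wt F (tau b wt rho (sg 1 u 1)) ∈ W0 b wt :=
      ev0_PW b wt (tau_PW b wt rho (hsg.mem1 u (m1 u hu)))
    have hb0E : IsEig b wt s (ev0 wt F (tau b wt rho (sg 1 u 1))) := by
      intro l
      rw [Ad_ev0, IsEig_tau b wt rho hY l, map_smul]
    obtain ⟨l, hl, hlw, hlU, hlM⟩ := sg_W0 hsg hb0W
    rw [← hconst (m1 u hu) (m4 u hu) hs hY hrho hb0E hlU hlM]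
    exact ev0_PW b wt (hsg.mem1 u (m1 u hu))
  -- everything is constant
  have hall : ∀ p ∈ XM, p ∈ W0 b wt := by
    by_contra hcon
    have hne : (W0 b wt).comap XM.subtype ≠ ⊤ := by
      intro h
      apply hcon
      intro p hp
      have h1 : (⟨p, hp⟩ : XM) ∈ (W0 b wt).comap XM.subtype := by rw [h]; trivial
      exact h1
    obtain ⟨mu, ⟨⟨X, hX⟩, hXC, hXe⟩, ⟨⟨y, hy⟩, hy0, hye⟩⟩ := eig_quot (resAd b wt XM hAd)
      (resAd_comm b wt hwt hA XM hAd) ((W0 b wt).comap XM.subtype) (fun l v hv => Ad_W0 b wt l hv) hne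
    replace hXC : X ∉ W0 b wt := hXC
    replace hXe : ∀ l, Ad b wt l X - mu l • X ∈ W0 b wt := fun l => hXe l
    replace hy0 : y ≠ 0 := fun h => hy0 (Subtype.ext h)
    replace hye : IsEig b wt mu y := fun l => congrArg Subtype.val (hye l)
    have hmu : Kills b wt mu := Kills_of_IsEig b wt hwt hy0 hye
    set c : MvPolynomial I F := ev0 wt F X with hc
    set ka : MvPolynomial I F := X - c with hka
    have hcW : c ∈ W0 b wt := ev0_PW b wt (hPW hX)
    have hkaPW : ka ∈ PW b wt := sub_mem (hPW hX) (W0_le_PW b wt hcW)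
    have hevka : ev0 wt F ka = 0 := by rw [hka, map_sub, hc, ev0_ev0, sub_self]
    have hkaE : IsEig b wt mu ka := by
      intro l
      have h1 : Ad b wt l ka - mu l • ka ∈ W0 b wt := by
        have h2 : Ad b wt l ka - mu l • ka = (Ad b wt l X - mu l • X) - (Ad b wt l c - mu l • c) := by
          rw [hka, map_sub, smul_sub]
          abel
        rw [h2]
        exact sub_mem (hXe l) (sub_mem (Ad_W0 b wt l hcW) (Submodule.smul_mem _ _ hcW))
      have h3 := ev0_W0 b wt h1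
      rw [map_sub, ← Ad_ev0, map_smul, hevka, map_zero, smul_zero, sub_zero] at h3
      exact (sub_eq_zero.1 h3.symm)
    obtain ⟨u, hu, huX⟩ := (hmem X).1 hX
    have hXdec : sg 1 u 1 = c + ka := by rw [huX, hka]; abel
    -- the differences are constant
    have hg : ∀ {r : L →ₗ[F] F} {v : MvPolynomial I F}, v ∈ XM → v ≠ 0 → IsEig b wt r v →
        tau b wt r ka - ka ∈ W0 b wt ∧ v ∈ W0 b wt := by
      intro r v hv hv0 hve
      obtain ⟨u1, hu1, rfl⟩ := (hmem v).1 hv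
      have hvW : sg 1 u1 1 ∈ W0 b wt := hconst1 hu1 hve
      refine ⟨?_, hvW⟩
      have hr := Kills_of_IsEig b wt hwt hv0 hve
      have hM : sg 1 u1 = MM (sg 1 u1 1) := by
        rw [← sub_eq_zero]
        apply BB_inj b wt hwt hA (sub_mem (hsg.mem (m1 u1 hu1)) (MM_mem_BB b wt hvW))
        rw [LinearMap.sub_apply, MM_apply, mul_one, sub_self]
      have hu2 : u * u1 - u1 * u ∈ M := m2 u hu u1 hu1
      have hu2U : u * u1 - u1 * u ∈ UG b wt (1 + 1) :=
        Submodule.sub_mem _ (UG_mul b wt (m1 u hu) (m1 u1 hu1)) (UG_mul b wt (m1 u1 hu1) (m1 u hu))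
      have hY2 : sg (1 + 1) (u * u1 - u1 * u) 1 = sg 1 u1 1 * (tau b wt r ka - ka) := by
        have h1 : sg (1 + 1) (u * u1) = sg 1 u * sg 1 u1 := hsg.mul (m1 u hu) (m1 u1 hu1)
        have h2 : sg (1 + 1) (u1 * u) = sg 1 u1 * sg 1 u := hsg.mul (m1 u1 hu1) (m1 u hu)
        rw [map_sub, h1, h2, LinearMap.sub_apply, Module.End.mul_apply, Module.End.mul_apply,
          act_eig b wt hr hve (hsg.mem (m1 u hu)), hXdec, map_add, tau_W0 b wt r hcW]
        have h3 : sg 1 u1 (c + ka) = sg 1 u1 1 * (c + ka) := by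
          conv_lhs => rw [hM]
          rfl
        rw [h3]
        ring
      have hgPW : tau b wt r ka - ka ∈ PW b wt := sub_mem (tau_PW b wt r hkaPW) hkaPW
      by_cases hg0 : tau b wt r ka - ka = 0
      · rw [hg0]; exact zero_mem _
      have hgE : IsEig b wt mu (tau b wt r ka - ka) := IsEig_sub b wt (IsEig_tau b wt r hkaE) hkaE
      obtain ⟨rho, -, hrho⟩ := exists_point b wt hg0
      have hkW : ev0 wt F (tau b wt rho (tau b wt r ka - ka)) ∈ W0 b wt :=
        ev0_PW b wt (tau_PW b wt rho hgPW)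
      have hkE : IsEig b wt mu (ev0 wt F (tau b wt rho (tau b wt r ka - ka))) := by
        intro l
        rw [Ad_ev0, IsEig_tau b wt rho hgE l, map_smul]
      obtain ⟨lv, hlv, hlvw, hlvU, hlvM⟩ := sg_W0 hsg hvW
      obtain ⟨lk, hlk, hlkw, hlkU, hlkM⟩ := sg_W0 hsg hkW
      have hz : UniversalEnvelopingAlgebra.ι F lv * UniversalEnvelopingAlgebra.ι F lk ∈ UG b wt (1 + 1) :=
        UG_mul b wt hlvU hlkU
      have hzb : sg (1 + 1) (UniversalEnvelopingAlgebra.ι F lv * UniversalEnvelopingAlgebra.ι F lk) =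
          MM (sg 1 u1 1 * ev0 wt F (tau b wt rho (tau b wt r ka - ka))) := by
        rw [hsg.mul hlvU hlkU, hlvM, hlkM, ← MM_mul]
      have hKs : Kills b wt (r + mu) := fun i hi => by
        rw [LinearMap.add_apply, hr i hi, hmu i hi, add_zero]
      have hYE : IsEig b wt (r + mu) (sg (1 + 1) (u * u1 - u1 * u) 1) := by
        rw [hY2]
        exact IsEig_mul b wt hve hgE
      have h5 := hconst hu2U (m4 _ hu2) hKs hYE (mul_ne_zero hv0 hrho) (IsEig_mul b wt hve hkE) hz hzb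
      rw [hY2, map_mul, ev0_W0 b wt hvW] at h5
      have h6 := mul_left_cancel₀ hv0 h5
      rw [← h6]
      exact ev0_PW b wt hgPW
    have hyW := hg hy hy0 hye
    have hnil : ∀ v ∈ W0 b wt, ∃ m : ℕ, (dd F (sg 1 u) ^ m) (MM v) = 0 := by
      intro v hv
      obtain ⟨l, hl, hlw, hlU, hlM⟩ := sg_W0 hsg hv
      obtain ⟨m, hm⟩ := m4 u hu (UniversalEnvelopingAlgebra.ι F l)
      refine ⟨m, ?_⟩
      rw [← hlM, ← (sg_dd_pow hsg (m1 u hu) hlU m).2, hm, map_zero]
    have hg0 : tau b wt mu ka - ka = 0 := by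
      obtain ⟨m, hm⟩ := hnil y hyW.2
      obtain ⟨i, hi⟩ := step2 b wt hwt hA hmu hmu (hsg.mem (m1 u hu)) hcW hkaE hXdec hyW.1 hyW.1 hyW.2 hy0 hye m hm
      have h1 : (((i + 1 : ℕ) : F)) • (tau b wt mu ka - ka) = 0 := by
        rw [Nat.cast_smul_eq_nsmul, add_smul, one_smul, add_comm]
        exact hi
      rcases smul_eq_zero.1 h1 with h2 | h2
      · exact absurd h2 (Nat.cast_ne_zero.2 (Nat.succ_ne_zero i))
      · exact h2
    have hinv : ∀ r ∈ {r : L →ₗ[F] F | ∃ v ∈ XM, v ≠ 0 ∧ IsEig b wt r v}, tau b wt r ka = ka := by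
      rintro r ⟨v, hv, hv0, hve⟩
      have h1 := hg hv hv0 hve
      have hr := Kills_of_IsEig b wt hwt hv0 hve
      obtain ⟨m, hm⟩ := hnil v h1.2
      obtain ⟨i, hi⟩ := step2 b wt hwt hA hmu hr (hsg.mem (m1 u hu)) hcW hkaE hXdec h1.1 hyW.1 h1.2 hv0 hve m hm
      rw [hg0, smul_zero, add_zero] at hi
      exact sub_eq_zero.1 hi
    have hka0 : ka = 0 := by
      rw [← ev0_of_tau b wt _ (fun l hl => hS l fun mu hmu => hl mu hmu) ka hinv, hevka]
    apply hXC
    have h7 : X = c := by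
      have h8 : X - c = 0 := hka0
      exact sub_eq_zero.1 h8
    rw [h7]
    exact hcW
  intro u hu
  obtain ⟨l, hl, hlw, hlU, hlM⟩ := sg_W0 hsg (hall _ ((hmem _).2 ⟨u, hu, rfl⟩))
  refine ⟨l, hl, hsg.inj1 _ (sub_mem (m1 u hu) hlU) ?_⟩
  rw [map_sub, hlM, LinearMap.sub_apply, MM_apply, mul_one, sub_self]

end MP_a5a771_alC
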