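import Pool.Agent.Lib.MP_a5a771_alC.S
import Pool.Agent.Lib.MP_a5a771_alC.LTF
import Pool.Agent.Lib.MP_a5a771_alC.LN
import Pool.Agent.Lib.MP_a5a771_alC.TW2

/-!
# Approximation of an isomorphism of enveloping algebras
-/

set_option autoImplicit false

noncomputable section

open Module PBWB

namespace MP_a5a771_alC

attribute [local instance 100] LieRing.ofAssociativeRing

variable {F L H : Type*} [Field F] [LieRing L] [LieAlgebra F L] [LieRing H] [LieAlgebra F H]

/-- The ideal of weight `1` is generated by `n`. -/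
theorem UG_one_gen {m : ℕ} {b : Basis (Fin m) F L} {wt : Fin m → ℕ} (D : Data b wt)
    {u : UniversalEnvelopingAlgebra F L} (hu : u ∈ UG b wt 1) :
    u ∈ Submodule.span F {y | ∃ l ∈ Gw b wt 1, ∃ z : UniversalEnvelopingAlgebra F L,
      y = UniversalEnvelopingAlgebra.ι F l * z} := by
  rw [← (pbw b).linearCombination_repr u, Finsupp.linearCombination_apply]
  refine Submodule.sum_mem _ fun w hw => Submodule.smul_mem _ _ ?_
  have h1 := (mem_UG_iff b wt D.ok).1 hu w (Finsupp.mem_support_iff.1 hw)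
  rw [pbw_apply]
  obtain ⟨w, hs⟩ := w
  cases w with
  | nil => simp only [wgt_nil] at h1; omega
  | cons i w =>
    refine Submodule.subset_span ⟨b i, ?_, wp b w, wp_cons b i w⟩
    have h2 : 1 ≤ wt i := by
      by_contra h3
      have h4 : ∀ j ∈ w, wt j = 0 := by
        intro j hj
        have h5 := D.mono ((List.pairwise_cons.1 hs).1 j hj)
        omega
      have h5 : wgt wt w = 0 := by
        rw [wgt, List.sum_eq_zero]
        intro x hx
        obtain ⟨j, hj, rfl⟩ := List.mem_map.1 hx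
        exact h4 j hj
      simp only [wgt_cons, h5] at h1
      omega
    exact Gw_anti b wt h2 (b_mem_Gw b wt i)

/-- A homomorphism which respects the weights on the generators respects the filtration. -/
theorem map_UG_of {I J : Type*} {b : Basis I F L} {wt : I → ℕ} {b' : Basis J F H} {wt' : J → ℕ}
    (φ : UniversalEnvelopingAlgebra F H →ₐ[F] UniversalEnvelopingAlgebra F L)
    (hφ : ∀ i, φ (UniversalEnvelopingAlgebra.ι F (b' i)) ∈ UG b wt (wt' i)) {k : ℕ}
    {u : UniversalEnvelopingAlgebra F H} (hu : u ∈ UG b' wt' k) : φ u ∈ UG b wt k := by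
  have hw : ∀ w : List J, φ (wp b' w) ∈ UG b wt (wgt wt' w) := by
    intro w
    induction w with
    | nil =>
      rw [wp_nil, map_one, wgt_nil, UG_zero]
      trivial
    | cons i w ih =>
      rw [wp_cons, map_mul, wgt_cons]
      exact UG_mul b wt (hφ i) ih
  have h : UG b' wt' k ≤ (UG b wt k).comap φ.toLinearMap := by
    refine Submodule.span_le.2 ?_
    rintro _ ⟨w, hk, rfl⟩
    exact UG_anti b wt hk (hw w)
  exact h hu

variable [IsAlgClosed F] [CharZero F]

/-- Elements of `n` are mapped to the ideal of `n`. -/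
theorem A1 {m m' : ℕ} {b : Basis (Fin m) F L} {wt : Fin m → ℕ} (D : Data b wt) {b' : Basis (Fin m') F H}
    {wt' : Fin m' → ℕ} (D' : Data b' wt') (φ : UniversalEnvelopingAlgebra F H ≃ₐ[F] UniversalEnvelopingAlgebra F L)
    (haug : ∀ u, aug F L (φ u) = aug F H u) {h : H} (hh : h ∈ Gw b' wt' 1) :
    φ (UniversalEnvelopingAlgebra.ι F h) ∈ UG b wt 1 := by
  obtain ⟨sg, hsg⟩ := exists_sym b wt D.mono D.ok D.ab
  obtain ⟨c, hc⟩ := locnil D.ok D.ab D.det hsg _ (LN_map φ (LN_iota ((D'.nil h).1 hh)))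
  have h1 := aug_UG b wt hc
  rw [map_sub, haug, aug_iota, AlgHom.commutes, zero_sub, neg_eq_zero] at h1
  have h2 : c = 0 := h1
  rwa [h2, map_zero, sub_zero] at hc

variable (F) in
/-- The embedding as a linear map. -/
def ioL (H : Type*) [LieRing H] [LieAlgebra F H] : H →ₗ[F] UniversalEnvelopingAlgebra F H where
  toFun h := UniversalEnvelopingAlgebra.ι F h
  map_add' x y := map_add _ x y
  map_smul' c x := map_smul _ c x

/-- The elements of weight `a` are mapped to elements of weight `a`. -/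
theorem A2 {m m' : ℕ} {b : Basis (Fin m) F L} {wt : Fin m → ℕ} (D : Data b wt) {b' : Basis (Fin m') F H}
    {wt' : Fin m' → ℕ} (D' : Data b' wt') (φ : UniversalEnvelopingAlgebra F H ≃ₐ[F] UniversalEnvelopingAlgebra F L)
    (haug : ∀ u, aug F L (φ u) = aug F H u) (a : ℕ) {h : H} (hh : h ∈ Gw b' wt' a) :
    φ (UniversalEnvelopingAlgebra.ι F h) ∈ UG b wt a := by
  induction a generalizing h with
  | zero => rw [UG_zero]; trivial
  | succ a ih =>
    rcases Nat.eq_zero_or_pos a with rfl | ha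
    · exact A1 D D' φ haug hh
    have h0 : Submodule.span F {z : H | ∃ x ∈ Gw b' wt' 1, ∃ y ∈ Gw b' wt' a, z = ⁅x, y⁆} ≤
        (UG b wt (a + 1)).comap (φ.toLinearMap ∘ₗ ioL F H) := by
      refine Submodule.span_le.2 ?_
      rintro _ ⟨x, hx, y, hy, rfl⟩
      show φ (UniversalEnvelopingAlgebra.ι F ⁅x, y⁆) ∈ UG b wt (a + 1)
      have h2 := A1 D D' φ haug hx
      have h3 := ih hy
      rw [iota_lie, map_sub, map_mul, map_mul]
      have h4 := UG_mul b wt h2 h3
      have h5 := UG_mul b wt h3 h2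
      rw [add_comm] at h4
      exact sub_mem h4 h5
    exact h0 (D'.gen a ha h hh)

theorem A3 {m m' : ℕ} {b : Basis (Fin m) F L} {wt : Fin m → ℕ} (D : Data b wt) {b' : Basis (Fin m') F H}
    {wt' : Fin m' → ℕ} (D' : Data b' wt') (φ : UniversalEnvelopingAlgebra F H ≃ₐ[F] UniversalEnvelopingAlgebra F L)
    (haug : ∀ u, aug F L (φ u) = aug F H u) {k : ℕ} {u : UniversalEnvelopingAlgebra F H} (hu : u ∈ UG b' wt' k) :
    φ u ∈ UG b wt k :=
  map_UG_of (φ : UniversalEnvelopingAlgebra F H →ₐ[F] UniversalEnvelopingAlgebra F L)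
    (fun i => A2 D D' φ haug _ (b_mem_Gw b' wt' i)) hu

theorem aug_symm {φ : UniversalEnvelopingAlgebra F H ≃ₐ[F] UniversalEnvelopingAlgebra F L}
    (haug : ∀ u, aug F L (φ u) = aug F H u) (u : UniversalEnvelopingAlgebra F L) :
    aug F H (φ.symm u) = aug F L u := by
  rw [← haug, φ.apply_symm_apply]

/-- Approximation of weight `0`. -/
theorem A4 {m m' : ℕ} {b : Basis (Fin m) F L} {wt : Fin m → ℕ} (D : Data b wt) {b' : Basis (Fin m') F H}
    {wt' : Fin m' → ℕ} (D' : Data b' wt') (φ : UniversalEnvelopingAlgebra F H ≃ₐ[F] UniversalEnvelopingAlgebra F L)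
    (haug : ∀ u, aug F L (φ u) = aug F H u) (l : L) :
    ∃ h : H, φ (UniversalEnvelopingAlgebra.ι F h) - UniversalEnvelopingAlgebra.ι F l ∈ UG b wt 1 := by
  have hfd : FiniteDimensional F L := Module.Finite.of_basis b
  obtain ⟨sg, hsg⟩ := exists_sym b' wt' D'.mono D'.ok D'.ab
  obtain ⟨c, h, hc⟩ := locfin D'.ok D'.ab D'.det hsg _ (LFin_map φ.symm (LFin_iota l))
  have h1 := aug_UG b' wt' hc
  rw [map_sub, map_sub, aug_symm haug, aug_iota, aug_iota, AlgHom.commutes, zero_sub, sub_zero,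
    neg_eq_zero] at h1
  have h2 : c = 0 := h1
  rw [h2, map_zero, sub_zero] at hc
  have h3 := A3 D D' φ haug hc
  rw [map_sub, φ.apply_symm_apply] at h3
  exact ⟨h, by rw [← neg_sub]; exact neg_mem h3⟩

/-- Approximation of weight `1`: the twist theorem. -/
theorem A5 {m m' : ℕ} {b : Basis (Fin m) F L} {wt : Fin m → ℕ} (D : Data b wt) {b' : Basis (Fin m') F H}
    {wt' : Fin m' → ℕ} (D' : Data b' wt') (φ : UniversalEnvelopingAlgebra F H ≃ₐ[F] UniversalEnvelopingAlgebra F L)
    (haug : ∀ u, aug F L (φ u) = aug F H u) {l : L} (hl : l ∈ Gw b wt 1) :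
    ∃ h ∈ Gw b' wt' 1, φ (UniversalEnvelopingAlgebra.ι F h) - UniversalEnvelopingAlgebra.ι F l ∈ UG b wt 2 := by
  have hfd : FiniteDimensional F L := Module.Finite.of_basis b
  have haug' : ∀ u, aug F H (φ.symm u) = aug F L u := aug_symm haug
  obtain ⟨sg, hsg⟩ := exists_sym b' wt' D'.mono D'.ok D'.ab
  have h1 := twist D'.ok D'.ab D'.det hsg ((Gw b wt 1).map (φ.symm.toLinearMap ∘ₗ ioL F L)) inferInstance
    (by
      rintro _ ⟨x, hx, rfl⟩
      exact A1 D' D φ.symm haug' hx)
    (by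
      rintro _ ⟨x, hx, rfl⟩ _ ⟨y, hy, rfl⟩
      refine ⟨⁅x, y⁆, Gw_lie_one b wt D.ab x y, ?_⟩
      show φ.symm (UniversalEnvelopingAlgebra.ι F ⁅x, y⁆) = φ.symm (UniversalEnvelopingAlgebra.ι F x) *
        φ.symm (UniversalEnvelopingAlgebra.ι F y) - φ.symm (UniversalEnvelopingAlgebra.ι F y) *
        φ.symm (UniversalEnvelopingAlgebra.ι F x)
      rw [iota_lie, map_sub, map_mul, map_mul])
    (by
      intro h
      obtain ⟨x, hx⟩ := A4 D' D φ.symm haug' h
      refine ⟨φ.symm (UniversalEnvelopingAlgebra.ι F x), hx, ?_⟩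
      rintro _ ⟨y, hy, rfl⟩
      refine ⟨⁅x, y⁆, Gw_lie_one b wt D.ab x y, ?_⟩
      show φ.symm (UniversalEnvelopingAlgebra.ι F ⁅x, y⁆) = φ.symm (UniversalEnvelopingAlgebra.ι F x) *
        φ.symm (UniversalEnvelopingAlgebra.ι F y) - φ.symm (UniversalEnvelopingAlgebra.ι F y) *
        φ.symm (UniversalEnvelopingAlgebra.ι F x)
      rw [iota_lie, map_sub, map_mul, map_mul])
    (by
      rintro _ ⟨x, hx, rfl⟩
      exact LN_map φ.symm (LN_iota ((D.nil x).1 hx)))
    (by
      intro h hh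
      have h2 := UG_one_gen D (A1 D D' φ haug hh)
      have h3 := Submodule.mem_map_of_mem (f := φ.symm.toLinearMap) h2
      rw [Submodule.map_span] at h3
      have h4 : φ.symm.toLinearMap (φ (UniversalEnvelopingAlgebra.ι F h)) = UniversalEnvelopingAlgebra.ι F h :=
        φ.symm_apply_apply _
      rw [h4] at h3
      refine Submodule.span_mono ?_ h3
      rintro _ ⟨_, ⟨x, hx, z, rfl⟩, rfl⟩
      exact ⟨_, ⟨x, hx, rfl⟩, φ.symm z, map_mul φ.symm _ _⟩)
  obtain ⟨h, hh, h2⟩ := h1 _ ⟨l, hl, rfl⟩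
  refine ⟨h, hh, ?_⟩
  have h3 := A3 D D' φ haug h2
  rw [map_sub] at h3
  have h4 : φ ((φ.symm.toLinearMap ∘ₗ ioL F L) l) = UniversalEnvelopingAlgebra.ι F l := φ.apply_symm_apply _
  rw [h4] at h3
  rw [← neg_sub]
  exact neg_mem h3

/-- Approximation of weight `a`. -/
theorem A6 {m m' : ℕ} {b : Basis (Fin m) F L} {wt : Fin m → ℕ} (D : Data b wt) {b' : Basis (Fin m') F H}
    {wt' : Fin m' → ℕ} (D' : Data b' wt') (φ : UniversalEnvelopingAlgebra F H ≃ₐ[F] UniversalEnvelopingAlgebra F L)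
    (haug : ∀ u, aug F L (φ u) = aug F H u) (a : ℕ) {l : L} (hl : l ∈ Gw b wt a) :
    ∃ h ∈ Gw b' wt' a, φ (UniversalEnvelopingAlgebra.ι F h) - UniversalEnvelopingAlgebra.ι F l ∈
      UG b wt (a + 1) := by
  induction a generalizing l with
  | zero =>
    obtain ⟨h, hh⟩ := A4 D D' φ haug l
    exact ⟨h, fun _ _ => Nat.zero_le _, hh⟩
  | succ a ih =>
    rcases Nat.eq_zero_or_pos a with rfl | ha
    · exact A5 D D' φ haug hl
    let S : Submodule F L :=
      { carrier := {l | ∃ h ∈ Gw b' wt' (a + 1), φ (UniversalEnvelopingAlgebra.ι F h) -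
          UniversalEnvelopingAlgebra.ι F l ∈ UG b wt (a + 1 + 1)}
        add_mem' := by
          rintro x y ⟨h, hh, h1⟩ ⟨k, hk, h2⟩
          refine ⟨h + k, add_mem hh hk, ?_⟩
          rw [map_add, map_add, map_add, add_sub_add_comm]
          exact add_mem h1 h2
        zero_mem' := ⟨0, zero_mem _, by rw [map_zero, map_zero, map_zero, sub_zero]; exact zero_mem _⟩
        smul_mem' := by
          rintro c x ⟨h, hh, h1⟩
          refine ⟨c • h, Submodule.smul_mem _ _ hh, ?_⟩
          rw [map_smul, map_smul, map_smul, ← smul_sub]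
          exact Submodule.smul_mem _ _ h1 }
    have h0 : Submodule.span F {z : L | ∃ x ∈ Gw b wt 1, ∃ y ∈ Gw b wt a, z = ⁅x, y⁆} ≤ S := by
      refine Submodule.span_le.2 ?_
      rintro _ ⟨x, hx, y, hy, rfl⟩
      obtain ⟨h, hh, h1⟩ := A5 D D' φ haug hx
      obtain ⟨k, hk, h2⟩ := ih hy
      refine ⟨⁅h, k⁆, ?_, ?_⟩
      · have h3 := Gw_lie b' wt' D'.ok hh hk
        rwa [add_comm] at h3
      · rw [iota_lie, iota_lie, map_sub, map_mul, map_mul]
        have e1 := UG_mul b wt h1 (A2 D D' φ haug a hk)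
        have e2 := UG_mul b wt (A2 D D' φ haug a hk) h1
        have e3 := UG_mul b wt (iota_mem_UG' b wt hx) h2
        have e4 := UG_mul b wt h2 (iota_mem_UG' b wt hx)
        have a1 : 2 + a = a + 1 + 1 := by omega
        have a2 : a + 2 = a + 1 + 1 := by omega
        have a3 : 1 + (a + 1) = a + 1 + 1 := by omega
        rw [a1] at e1
        rw [a2] at e2
        rw [a3] at e3
        have e5 := add_mem (sub_mem e1 e2) (sub_mem e3 e4)
        have e6 : φ (UniversalEnvelopingAlgebra.ι F h) * φ (UniversalEnvelopingAlgebra.ι F k) -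
            φ (UniversalEnvelopingAlgebra.ι F k) * φ (UniversalEnvelopingAlgebra.ι F h) -
            (UniversalEnvelopingAlgebra.ι F x * UniversalEnvelopingAlgebra.ι F y -
              UniversalEnvelopingAlgebra.ι F y * UniversalEnvelopingAlgebra.ι F x) =
            (φ (UniversalEnvelopingAlgebra.ι F h) - UniversalEnvelopingAlgebra.ι F x) *
              φ (UniversalEnvelopingAlgebra.ι F k) - φ (UniversalEnvelopingAlgebra.ι F k) *
              (φ (UniversalEnvelopingAlgebra.ι F h) - UniversalEnvelopingAlgebra.ι F x) +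
            (UniversalEnvelopingAlgebra.ι F x * (φ (UniversalEnvelopingAlgebra.ι F k) -
              UniversalEnvelopingAlgebra.ι F y) - (φ (UniversalEnvelopingAlgebra.ι F k) -
              UniversalEnvelopingAlgebra.ι F y) * UniversalEnvelopingAlgebra.ι F x) := by
          noncomm_ring
        rw [e6]
        exact e5
    exact h0 (D.gen a ha l hl)

end MP_a5a771_alC
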