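import Pool.Agent.Lib.MP_a5a771_alC.TW
import Pool.Agent.Lib.MP_a5a771_alC.AF

/-!
# Ad-locally finite and ad-locally nilpotent elements
-/

set_option autoImplicit false

noncomputable section

open Module PBWB

namespace MP_a5a771_alC

attribute [local instance 100] LieRing.ofAssociativeRing

/-- The element is ad-locally finite. -/
def LFin (F : Type*) {A : Type*} [Field F] [Ring A] [Algebra F A] (u : A) : Prop :=
  ∀ y : A, ∃ Q : Polynomial F, Q ≠ 0 ∧ Polynomial.aeval (dd F u) Q y = 0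

variable {F L I : Type*} [Field F] [LieRing L] [LieAlgebra F L] [LinearOrder I] {b : Basis I F L} {wt : I → ℕ}

omit [LinearOrder I] in
/-- Iterated commutators of an operator with value in the letters of weight `0`. -/
theorem dd_pow_PT {r : L →ₗ[F] F} (hr : Kills b wt r) {x : Module.End F (MvPolynomial I F)} (hx : x ∈ BB b wt)
    (hp : x 1 ∈ PT wt F) {v : MvPolynomial I F} (hv : IsEig b wt r v) (m : ℕ) :
    ((dd F x ^ m) (MM v)) 1 = v * (tau b wt r (x 1) - x 1) ^ m := by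
  have h0 : Kills b wt (0 : L →ₗ[F] F) := fun i _ => by rw [LinearMap.zero_apply]
  rw [dd_pow_apply_one b wt h0 hr hx (IsEig_PT b wt hp) hv m]
  congr 1
  rw [sub_pow]
  rw [← Finset.sum_range_reflect]
  refine Finset.sum_congr rfl fun j hj => ?_
  have hj' : j ≤ m := Nat.lt_succ_iff.1 (Finset.mem_range.1 hj)
  have e1 : m + 1 - 1 - j = m - j := by omega
  have e2 : m - (m - j) = j := by omega
  simp only [smul_zero, add_zero, tau_zero, Finset.prod_const, Finset.card_range, e1, e2]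
  have h2 : ((-1 : MvPolynomial I F)) ^ (j + m) = (-1) ^ (m - j) := by
    have h3 : j + m = (m - j) + 2 * j := by omega
    rw [h3, pow_add, pow_mul]
    simp
  rw [h2, Nat.choose_symm hj']
  ring

omit [LinearOrder I] in
theorem aeval_shift {sg : ℕ → UniversalEnvelopingAlgebra F L →ₗ[F] Module.End F (MvPolynomial I F)}
    (hsg : IsSym b wt sg) {r : L →ₗ[F] F} (hr : Kills b wt r) {v : MvPolynomial I F} (hv : IsEig b wt r v)
    (hv0 : v ≠ 0) {l : L} (hlU : UniversalEnvelopingAlgebra.ι F l ∈ UG b wt 1)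
    (hlM : sg 1 (UniversalEnvelopingAlgebra.ι F l) = MM v) (u : UniversalEnvelopingAlgebra F L)
    (Q : Polynomial F) (hQ : Polynomial.aeval (dd F u) Q (UniversalEnvelopingAlgebra.ι F l) = 0) :
    Polynomial.aeval (tau b wt r (sg 0 u 1) - sg 0 u 1) Q = 0 := by
  have hu : u ∈ UG b wt 0 := by rw [UG_zero]; trivial
  have h1 : ∀ i, sg 1 ((dd F u ^ i) (UniversalEnvelopingAlgebra.ι F l)) 1 =
      v * (tau b wt r (sg 0 u 1) - sg 0 u 1) ^ i := by
    intro i
    have h2 : sg (i * 0 + 1) ((dd F u ^ i) (UniversalEnvelopingAlgebra.ι F l)) =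
      (dd F (sg 0 u) ^ i) (sg 1 (UniversalEnvelopingAlgebra.ι F l)) := (sg_dd_pow hsg hu hlU i).2
    rw [mul_zero, zero_add, hlM] at h2
    rw [h2]
    exact dd_pow_PT hr (hsg.mem hu) (hsg.mem0 u) hv i
  rw [Polynomial.aeval_eq_sum_range] at hQ ⊢
  have h2 := congrArg (fun y => sg 1 y 1) hQ
  simp only [LinearMap.sum_apply, LinearMap.smul_apply, map_sum, map_smul, map_zero, LinearMap.zero_apply, h1] at h2
  have h3 : v * ∑ i ∈ Finset.range (Q.natDegree + 1), Q.coeff i • (tau b wt r (sg 0 u 1) - sg 0 u 1) ^ i = 0 := by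
    rw [← h2, Finset.mul_sum]
    refine Finset.sum_congr rfl fun i _ => ?_
    rw [mul_smul_comm]
  exact (mul_eq_zero.1 h3).resolve_left hv0

variable (b wt) in
omit [LinearOrder I] in
theorem mem_UG_one_of {sg : ℕ → UniversalEnvelopingAlgebra F L →ₗ[F] Module.End F (MvPolynomial I F)}
    (hsg : IsSym b wt sg) (u : UniversalEnvelopingAlgebra F L) (c : F) (l : L)
    (h : sg 0 u 1 = MvPolynomial.C c + tl b wt l) :
    u - algebraMap F _ c - UniversalEnvelopingAlgebra.ι F l ∈ UG b wt 1 := by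
  apply hsg.inj0
  rw [map_sub, map_sub, hsg.iota0, LinearMap.sub_apply, LinearMap.sub_apply, TT_one, h,
    Algebra.algebraMap_eq_smul_one, map_smul, hsg.one, LinearMap.smul_apply, Module.End.one_apply,
    MvPolynomial.smul_eq_C_mul, mul_one]
  ring

omit [LinearOrder I] in
/-- An ad-locally nilpotent element is a scalar modulo weight `1`. -/
theorem locnil [CharZero F] [IsAlgClosed F] [Fintype I] (hwt : WOk b wt) (hA : HA b wt)
    (hN3 : ∀ l, (∃ N : ℕ, ∀ p ∈ W0 b wt, ((Ad b wt l : MvPolynomial I F →ₗ[F] MvPolynomial I F) ^ N) p = 0) →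
      l ∈ Gw b wt 1)
    {sg : ℕ → UniversalEnvelopingAlgebra F L →ₗ[F] Module.End F (MvPolynomial I F)} (hsg : IsSym b wt sg)
    (u : UniversalEnvelopingAlgebra F L) (h : LN F u) :
    ∃ c : F, u - algebraMap F _ c ∈ UG b wt 1 := by
  have h1 : ∀ r ∈ SW b wt, tau b wt r (sg 0 u 1) = sg 0 u 1 := by
    rintro r ⟨v, hvW, hv0, hv⟩
    obtain ⟨l, hl, hlw, hlU, hlM⟩ := sg_W0 hsg hvW
    obtain ⟨m, hm⟩ := h (UniversalEnvelopingAlgebra.ι F l)
    have h2 := aeval_shift hsg (Kills_of_IsEig b wt hwt hv0 hv) hv hv0 hlU hlM u (Polynomial.X ^ m) (by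
      rw [map_pow, Polynomial.aeval_X]
      exact hm)
    rw [map_pow, Polynomial.aeval_X] at h2
    exact sub_eq_zero.1 ((pow_eq_zero_iff (by
      rintro rfl
      rw [pow_zero] at h2
      exact one_ne_zero h2)).1 h2)
  have h2 := ev0_of_tau b wt (SW b wt) (SW_detect b wt hwt hA hN3) _ h1
  obtain ⟨c, hc⟩ := ev0_PT wt (hsg.mem0 u)
  refine ⟨c, ?_⟩
  have h3 := mem_UG_one_of b wt hsg u c 0 (by rw [map_zero, add_zero, ← hc, h2])
  rwa [map_zero, sub_zero] at h3

omit [LinearOrder I] in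
/-- An ad-locally finite element is a scalar plus an element of `L` modulo weight `1`. -/
theorem locfin [CharZero F] [IsAlgClosed F] [Fintype I] (hwt : WOk b wt) (hA : HA b wt)
    (hN3 : ∀ l, (∃ N : ℕ, ∀ p ∈ W0 b wt, ((Ad b wt l : MvPolynomial I F →ₗ[F] MvPolynomial I F) ^ N) p = 0) →
      l ∈ Gw b wt 1)
    {sg : ℕ → UniversalEnvelopingAlgebra F L →ₗ[F] Module.End F (MvPolynomial I F)} (hsg : IsSym b wt sg)
    (u : UniversalEnvelopingAlgebra F L) (h : LFin F u) :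
    ∃ (c : F) (l : L), u - algebraMap F _ c - UniversalEnvelopingAlgebra.ι F l ∈ UG b wt 1 := by
  classical
  have hfd : FiniteDimensional F L := Module.Finite.of_basis b
  have h1 : ∀ r ∈ SW b wt, ∃ z : F, tau b wt r (sg 0 u 1) = sg 0 u 1 + MvPolynomial.C z := by
    rintro r ⟨v, hvW, hv0, hv⟩
    obtain ⟨l, hl, hlw, hlU, hlM⟩ := sg_W0 hsg hvW
    obtain ⟨Q, hQ0, hQ⟩ := h (UniversalEnvelopingAlgebra.ι F l)
    have h2 := aeval_shift hsg (Kills_of_IsEig b wt hwt hv0 hv) hv hv0 hlU hlM u Q hQ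
    obtain ⟨z, hz, -⟩ := scalar_of_aeval _ Q hQ0 h2
    refine ⟨z, ?_⟩
    rw [sub_eq_iff_eq_add] at hz
    rw [hz, add_comm]
    rfl
  obtain ⟨T, hT, hT1, hT2⟩ := exists_values (SW b wt)
  choose! z hz using h1
  obtain ⟨l, hl⟩ := hT2 z
  have hkill : ∀ r ∈ SW b wt, Kills b wt r := by
    rintro r ⟨v, hvW, hv0, hv⟩
    exact Kills_of_IsEig b wt hwt hv0 hv
  have h2 : ev0 wt F (sg 0 u 1 - tl b wt l) = sg 0 u 1 - tl b wt l := by
    refine ev0_of_tau b wt T (fun l' hl' => SW_detect b wt hwt hA hN3 l' (hT1 l' hl')) _ fun r hr => ?_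
    rw [map_sub, hz r (hT hr), tau_tl b wt (hkill r (hT hr)), hl r hr]
    ring
  obtain ⟨c, hc⟩ := ev0_PT wt (sub_mem (hsg.mem0 u) (tl_mem_PT b wt l))
  refine ⟨c, l, mem_UG_one_of b wt hsg u c l ?_⟩
  rw [← hc, h2]
  ring

end MP_a5a771_alC
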