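import Mathlib
import Pool.Agent.Lib.MP_a5a771_alC.Defs

/-!
# Leaf LT1: weights
-/

set_option autoImplicit false

noncomputable section

open Module PBWB

namespace MP_a5a771_alC

attribute [local instance 100] LieRing.ofAssociativeRing

/-- The line spanned by a common eigenvector is a Lie submodule. -/
private def LT1_line {F L : Type*} [Field F] [LieRing L] [LieAlgebra F L] {V : Type*} [AddCommGroup V] [Module F V]
    [LieRingModule L V] [LieModule F L V] (v : V) (chi : L →ₗ[F] F) (h : ∀ x : L, ⁅x, v⁆ = chi x • v) :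
    LieSubmodule F L V where
  toSubmodule := F ∙ v
  lie_mem := by
    intro x m hm
    obtain ⟨c, rfl⟩ := Submodule.mem_span_singleton.1 hm
    rw [lie_smul, h x, smul_smul]
    exact Submodule.smul_mem _ _ (Submodule.mem_span_singleton_self v)

private theorem LT1_mem_line {F L : Type*} [Field F] [LieRing L] [LieAlgebra F L] {V : Type*} [AddCommGroup V]
    [Module F V] [LieRingModule L V] [LieModule F L V] (v : V) (chi : L →ₗ[F] F) (h : ∀ x : L, ⁅x, v⁆ = chi x • v)
    (m : V) : m ∈ LT1_line v chi h ↔ ∃ c : F, c • v = m :=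
  Submodule.mem_span_singleton

private theorem LT1_pow_mk {F L : Type*} [Field F] [LieRing L] [LieAlgebra F L] {V : Type*} [AddCommGroup V]
    [Module F V] [LieRingModule L V] [LieModule F L V] (N : LieSubmodule F L V) (l : L) (k : ℕ) (w : V) :
    (LieModule.toEnd F L (V ⧸ N) l ^ k) (LieSubmodule.Quotient.mk' N w) =
      LieSubmodule.Quotient.mk' N ((LieModule.toEnd F L V l ^ k) w) := by
  induction k with
  | zero => simp
  | succ k ih =>
    rw [pow_succ', pow_succ', Module.End.mul_apply, Module.End.mul_apply, ih]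
    rfl

private theorem LT1_pow_eig {F L : Type*} [Field F] [LieRing L] [LieAlgebra F L] {V : Type*} [AddCommGroup V]
    [Module F V] [LieRingModule L V] [LieModule F L V] (v : V) (chi : L →ₗ[F] F) (h : ∀ x : L, ⁅x, v⁆ = chi x • v)
    (l : L) (k : ℕ) : (LieModule.toEnd F L V l ^ k) v = chi l ^ k • v := by
  induction k with
  | zero => simp
  | succ k ih =>
    rw [pow_succ', Module.End.mul_apply, ih, map_smul, LieModule.toEnd_apply_apply, h, smul_smul, pow_succ]

private theorem LT1_nil {F L : Type*} [Field F] [LieRing L] [LieAlgebra F L] {V : Type*} [AddCommGroup V]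
    [Module F V] [LieRingModule L V] [LieModule F L V] (v : V) (hv : v ≠ 0) (chi : L →ₗ[F] F)
    (h : ∀ x : L, ⁅x, v⁆ = chi x • v) (l : L) :
    IsNilpotent (LieModule.toEnd F L V l) ↔
      chi l = 0 ∧ IsNilpotent (LieModule.toEnd F L (V ⧸ LT1_line v chi h) l) := by
  constructor
  · rintro ⟨k, hk⟩
    refine ⟨?_, k, ?_⟩
    · have h1 := LT1_pow_eig v chi h l k
      rw [hk, LinearMap.zero_apply] at h1
      exact eq_zero_of_pow_eq_zero ((smul_eq_zero.1 h1.symm).resolve_right hv)
    · refine LinearMap.ext fun q => ?_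
      obtain ⟨w, rfl⟩ := LieSubmodule.Quotient.surjective_mk' (LT1_line v chi h) q
      rw [LT1_pow_mk, hk, LinearMap.zero_apply, LinearMap.zero_apply, map_zero]
  · rintro ⟨h0, k, hk⟩
    refine ⟨k + 1, LinearMap.ext fun w => ?_⟩
    have h1 := LT1_pow_mk (LT1_line v chi h) l k w
    rw [hk, LinearMap.zero_apply] at h1
    obtain ⟨c, hc⟩ := (LT1_mem_line v chi h _).1 ((LieSubmodule.Quotient.mk_eq_zero _).1 h1.symm)
    rw [pow_succ', Module.End.mul_apply, ← hc, map_smul, LieModule.toEnd_apply_apply, h, h0, zero_smul, smul_zero,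
      LinearMap.zero_apply]

private theorem LT1_main {F L : Type*} [Field F] [IsAlgClosed F] [CharZero F] [LieRing L] [LieAlgebra F L]
    [FiniteDimensional F L] [LieAlgebra.IsSolvable L] (n : ℕ) : ∀ (V : Type*) [AddCommGroup V] [Module F V]
    [LieRingModule L V] [LieModule F L V] [FiniteDimensional F V], finrank F V = n →
    ∃ s : Set (L →ₗ[F] F), (∀ chi ∈ s, ∀ x y : L, chi ⁅x, y⁆ = 0) ∧
      ∀ l : L, IsNilpotent (LieModule.toEnd F L V l) ↔ ∀ chi ∈ s, chi l = 0 := by
  induction n with
  | zero =>
    intro V _ _ _ _ _ hn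
    have hs : Subsingleton V := finrank_zero_iff.1 hn
    refine ⟨∅, by simp, fun l => ⟨by simp, fun _ => ⟨1, ?_⟩⟩⟩
    exact LinearMap.ext fun w => Subsingleton.elim _ _
  | succ n ih =>
    intro V _ _ _ _ _ hn
    have hnt : Nontrivial V := by
      apply nontrivial_of_finrank_pos (R := F)
      omega
    obtain ⟨chi, hchi⟩ := LieModule.exists_nontrivial_weightSpace_of_isSolvable F L V
    obtain ⟨⟨v, hv⟩, hv0⟩ := exists_ne (0 : LieModule.weightSpace V chi)
    have hv1 : v ≠ 0 := fun h0 => hv0 (Subtype.ext h0)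
    have h : ∀ x : L, ⁅x, v⁆ = chi x • v := (LieModule.mem_weightSpace chi v).1 hv
    have hdim : finrank F (V ⧸ LT1_line v chi h) = n := by
      have h1 := Submodule.finrank_quotient_add_finrank (F ∙ v)
      rw [finrank_span_singleton hv1] at h1
      have h2 : finrank F (V ⧸ LT1_line v chi h) = finrank F (V ⧸ (F ∙ v)) := rfl
      omega
    obtain ⟨s, hs1, hs2⟩ := ih (V ⧸ LT1_line v chi h) hdim
    refine ⟨insert chi s, ?_, fun l => ?_⟩
    · intro psi hpsi x y
      rcases Set.mem_insert_iff.1 hpsi with rfl | hpsi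
      · have h1 : psi ⁅x, y⁆ • v = 0 := by
          rw [← h, lie_lie, h, h, lie_smul, lie_smul, h, h, smul_smul, smul_smul, mul_comm, sub_self]
        exact (smul_eq_zero.1 h1).resolve_right hv1
      · exact hs1 psi hpsi x y
    · rw [LT1_nil v hv1 chi h l, hs2 l]
      constructor
      · rintro ⟨h0, h1⟩ psi hpsi
        rcases Set.mem_insert_iff.1 hpsi with rfl | hpsi
        · exact h0
        · exact h1 psi hpsi
      · intro h1
        exact ⟨h1 chi (Set.mem_insert _ _), fun psi hpsi => h1 psi (Set.mem_insert_of_mem _ hpsi)⟩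

/-- A finite-dimensional module of a solvable Lie algebra (algebraically closed field of characteristic zero) has a
set of weights which are zero on the brackets and which detect the elements acting nilpotently.
Proof. Induction on the dimension of `V`. For `V ≠ 0` Lie's theorem (Mathlib: `LieModule.exists_nontrivial_weightSpace_of_isSolvable`)
gives a common eigenvector `v ≠ 0` with a linear form `chi`; `chi ⁅x, y⁆ = 0` (commutator of scalars; direct computation on `v`). `F v` is a Lie
submodule; by induction `V / F v` has a set `s`; take `insert chi s`. `l` is nilpotent on `V` iff it is nilpotent on `V / F v` and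
`chi l = 0`. -/
theorem exists_weights {F L : Type*} [Field F] [IsAlgClosed F] [CharZero F] [LieRing L] [LieAlgebra F L]
    [FiniteDimensional F L] [LieAlgebra.IsSolvable L] (V : Type*) [AddCommGroup V] [Module F V]
    [LieRingModule L V] [LieModule F L V] [FiniteDimensional F V] :
    ∃ s : Set (L →ₗ[F] F), (∀ chi ∈ s, ∀ x y : L, chi ⁅x, y⁆ = 0) ∧
      ∀ l : L, IsNilpotent (LieModule.toEnd F L V l) ↔ ∀ chi ∈ s, chi l = 0 :=
  LT1_main (F := F) (L := L) _ V rfl

end MP_a5a771_alC
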