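import Pool.Agent.Lib.MP_a5a771_alC.Defs

/-!
# Leaf LT2: the filtration by the lower central series of n
-/

set_option autoImplicit false

noncomputable section

open Module PBWB

namespace MP_a5a771_alC

attribute [local instance 100] LieRing.ofAssociativeRing

variable {F L : Type*} [Field F] [LieRing L] [LieAlgebra F L]

/-- The filtration `L, n, [n, n], [n, [n, n]], ...`. -/
def gam (n : Submodule F L) : ℕ → Submodule F L
  | 0 => ⊤
  | 1 => n
  | (k + 2) => Submodule.span F {z | ∃ x ∈ n, ∃ y ∈ gam n (k + 1), z = ⁅x, y⁆}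

private theorem LT2_A (n : Submodule F L) (hid : ∀ x : L, ∀ y ∈ n, ⁅x, y⁆ ∈ n) :
    ∀ (k : ℕ) (x y : L), y ∈ gam n k → ⁅x, y⁆ ∈ gam n k := by
  intro k
  induction k with
  | zero => intro x y _; exact Submodule.mem_top
  | succ k ih =>
    rcases k with _ | k
    · intro x y hy
      exact hid x y hy
    · intro x y hy
      have hy' : y ∈ Submodule.span F {z | ∃ x ∈ n, ∃ y ∈ gam n (k + 1), z = ⁅x, y⁆} := hy
      show ⁅x, y⁆ ∈ Submodule.span F {z | ∃ x ∈ n, ∃ y ∈ gam n (k + 1), z = ⁅x, y⁆}
      induction hy' using Submodule.span_induction with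
      | mem z hz =>
        obtain ⟨u, hu, v, hv, rfl⟩ := hz
        rw [leibniz_lie]
        exact Submodule.add_mem _ (Submodule.subset_span ⟨_, hid x u hu, v, hv, rfl⟩)
          (Submodule.subset_span ⟨u, hu, _, ih x v hv, rfl⟩)
      | zero => rw [lie_zero]; exact Submodule.zero_mem _
      | add a b ha hb iha ihb =>
        rw [lie_add]
        exact Submodule.add_mem _ (iha ha) (ihb hb)
      | smul c a ha iha =>
        rw [lie_smul]
        exact Submodule.smul_mem _ c (iha ha)

private theorem LT2_C (n : Submodule F L) (hid : ∀ x : L, ∀ y ∈ n, ⁅x, y⁆ ∈ n) {c : ℕ} {x y : L} (hx : x ∈ n)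
    (hy : y ∈ gam n c) : ⁅x, y⁆ ∈ gam n (c + 1) := by
  rcases c with _ | c
  · show ⁅x, y⁆ ∈ n
    rw [← lie_skew]
    exact n.neg_mem (hid y x hx)
  · exact Submodule.subset_span ⟨x, hx, y, hy, rfl⟩

/-- The filtration is compatible with the bracket.
Proof. `hid`: `n` is an ideal. First `⁅L, gam n k⁆ ⊆ gam n k` by induction on `k` (Jacobi), then `⁅gam n a, gam n c⁆ ⊆ gam n (a + c)` by
induction on `a` (Jacobi: `⁅⁅x, y⁆, z⁆ = ⁅x, ⁅y, z⁆⁆ - ⁅y, ⁅x, z⁆⁆`, with the case `a = 1` by definition, for `c = 0`: antisymmetry and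
the ideal property). -/
theorem gam_lie (n : Submodule F L) (hid : ∀ x : L, ∀ y ∈ n, ⁅x, y⁆ ∈ n) {a c : ℕ} {x y : L} (hx : x ∈ gam n a)
    (hy : y ∈ gam n c) : ⁅x, y⁆ ∈ gam n (a + c) := by
  induction a generalizing x y c with
  | zero =>
    rw [zero_add]
    exact LT2_A n hid c x y hy
  | succ a ih =>
    rcases a with _ | a
    · rw [zero_add, add_comm]
      exact LT2_C n hid hx hy
    · have hx' : x ∈ Submodule.span F {z | ∃ x ∈ n, ∃ y ∈ gam n (a + 1), z = ⁅x, y⁆} := hx
      clear hx
      induction hx' using Submodule.span_induction with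
      | mem z hz =>
        obtain ⟨u, hu, v, hv, rfl⟩ := hz
        rw [lie_lie]
        refine Submodule.sub_mem _ ?_ ?_
        · have h1 := LT2_C n hid hu (ih hv hy)
          have e : a + 1 + 1 + c = a + 1 + c + 1 := by omega
          rw [e]
          exact h1
        · have h1 := ih hv (LT2_C n hid hu hy)
          have e : a + 1 + 1 + c = a + 1 + (c + 1) := by omega
          rw [e]
          exact h1
      | zero => rw [zero_lie]; exact Submodule.zero_mem _
      | add a b _ _ iha ihb =>
        rw [add_lie]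
        exact Submodule.add_mem _ iha ihb
      | smul c a _ iha =>
        rw [smul_lie]
        exact Submodule.smul_mem _ c iha

/-- The filtration is decreasing. -/
theorem gam_anti (n : Submodule F L) (hid : ∀ x : L, ∀ y ∈ n, ⁅x, y⁆ ∈ n) : Antitone (gam n) := by
  refine antitone_nat_of_succ_le fun k => ?_
  rcases k with _ | k
  · exact le_top
  · refine Submodule.span_le.2 ?_
    rintro z ⟨x, -, y, hy, rfl⟩
    exact LT2_A n hid (k + 1) x y hy

/-- The filtration is finite if `n` consists of the ad-nilpotent elements.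
Proof. Engel's theorem (Mathlib: `LieAlgebra.isNilpotent_iff_forall`) for the Lie subalgebra (ideal) `n`: for `x ∈ n`, `ad x` on `n` is the
restriction of a nilpotent operator. So the lower central series of the Lie algebra `n` is zero from some `k` on; by
induction `gam n (k + 1)` is the image of the `k`-th term (or is contained in it). -/
theorem gam_fin [FiniteDimensional F L] (n : Submodule F L) (hid : ∀ x : L, ∀ y ∈ n, ⁅x, y⁆ ∈ n)
    (hnil : ∀ x ∈ n, IsNilpotent (LieAlgebra.ad F L x)) : ∃ N, gam n N = ⊥ := by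
  obtain ⟨I, hI⟩ : ∃ I : LieIdeal F L, ∀ x, x ∈ I ↔ x ∈ n :=
    ⟨{ n with lie_mem := fun {x m} hm => hid x m hm }, fun _ => Iff.rfl⟩
  have hN : LieModule.IsNilpotent I L := by
    refine (LieModule.isNilpotent_iff_forall (R := F)).2 ?_
    rintro ⟨x, hx⟩
    have h := hnil x ((hI x).1 hx)
    exact h
  obtain ⟨k, hk⟩ := (LieModule.isNilpotent_iff F I L).1 hN
  have key : ∀ (k : ℕ) (y : L), y ∈ gam n (k + 1) → y ∈ LieModule.lowerCentralSeries F I L k := by
    intro k
    induction k with
    | zero => intro y _; rw [LieModule.lowerCentralSeries_zero]; exact LieSubmodule.mem_top y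
    | succ k ih =>
      intro y hy
      have hle : gam n (k + 1 + 1) ≤ (LieModule.lowerCentralSeries F I L (k + 1)).toSubmodule := by
        refine Submodule.span_le.2 ?_
        rintro z ⟨u, hu, v, hv, rfl⟩
        rw [LieModule.lowerCentralSeries_succ]
        exact LieSubmodule.lie_mem_lie (x := (⟨u, (hI u).2 hu⟩ : I)) (LieSubmodule.mem_top _) (ih v hv)
      exact hle hy
  refine ⟨k + 1, ?_⟩
  rw [eq_bot_iff]
  intro y hy
  have h := key k y hy
  rw [hk] at h
  exact (LieSubmodule.mem_bot y).1 h

end MP_a5a771_alC
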