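import Pool.Agent.Lib.MP_a5a771_alC.Defs

/-!
# Leaf RAT
-/

set_option autoImplicit false

noncomputable section

open Module PBWB

namespace MP_a5a771_alC

attribute [local instance 100] LieRing.ofAssociativeRing

private theorem RAT_aux {R K : Type*} [CommRing R] [IsDomain R] [Field K] [CharZero K] (φ : R →+* K)
    (hφ : Function.Injective φ) (y : ℕ → R) (hy0 : ∀ n, y n ≠ 0)
    (q : Polynomial R) (hq : ∀ n : ℕ, q.eval (n : R) = y n) (m₀ : ℕ)
    (h : ∀ m, m₀ ≤ m → ∑ j ∈ Finset.range (m + 1), (-1) ^ j * (m.choose j : R) *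
      ∏ i ∈ (Finset.range (m + 1)).erase j, y i = 0) (n : ℕ) : y n = y 0 := by
  classical
  let g : ℕ → K := fun n => (φ (y n))⁻¹
  have hy : ∀ n, φ (y n) ≠ 0 := fun n hn => hy0 n (hφ (by rw [hn, map_zero]))
  -- the finite differences of large order are zero
  have h1 : ∀ m, m₀ ≤ m → ∑ j ∈ Finset.range (m + 1), (-1 : K) ^ j * (m.choose j : K) * g j = 0 := by
    intro m hm
    have h2 := congrArg φ (h m hm)
    rw [map_sum, map_zero] at h2
    have h3 : (∏ i ∈ Finset.range (m + 1), φ (y i)) ≠ 0 := Finset.prod_ne_zero_iff.2 fun i _ => hy i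
    refine (mul_eq_zero.1 ?_).resolve_left h3
    rw [Finset.mul_sum, ← h2]
    refine Finset.sum_congr rfl fun j hj => ?_
    rw [map_mul, map_mul, map_pow, map_neg, map_one, map_natCast, map_prod,
      ← Finset.mul_prod_erase (Finset.range (m + 1)) (fun i => φ (y i)) hj]
    have h4 : φ (y j) * g j = 1 := mul_inv_cancel₀ (hy j)
    calc φ (y j) * (∏ i ∈ (Finset.range (m + 1)).erase j, φ (y i)) * ((-1) ^ j * (m.choose j : K) * g j)
        = (-1) ^ j * (m.choose j : K) * (∏ i ∈ (Finset.range (m + 1)).erase j, φ (y i)) * (φ (y j) * g j) := by ring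
      _ = (-1) ^ j * (m.choose j : K) * ∏ i ∈ (Finset.range (m + 1)).erase j, φ (y i) := by rw [h4, mul_one]
  have h5 : ∀ m, m₀ ≤ m → (fwdDiff (1 : ℕ))^[m] g 0 = 0 := by
    intro m hm
    rw [fwdDiff_iter_eq_sum_shift]
    have h6 : ∑ k ∈ Finset.range (m + 1), ((-1 : ℤ) ^ (m - k) * (m.choose k : ℤ)) • g (0 + k • 1) =
        (-1 : K) ^ m * ∑ j ∈ Finset.range (m + 1), (-1 : K) ^ j * (m.choose j : K) * g j := by
      rw [Finset.mul_sum]
      refine Finset.sum_congr rfl fun j hj => ?_
      have hjm : j ≤ m := Nat.lt_succ_iff.1 (Finset.mem_range.1 hj)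
      rw [zero_add, smul_eq_mul, mul_one, zsmul_eq_mul]
      push_cast
      have h7 : (-1 : K) ^ m = (-1 : K) ^ (m - j) * (-1 : K) ^ j := by rw [← pow_add, Nat.sub_add_cancel hjm]
      have h8 : (-1 : K) ^ j * (-1 : K) ^ j = 1 := by rw [← mul_pow, neg_one_mul, neg_neg, one_pow]
      rw [h7]
      calc (-1 : K) ^ (m - j) * (m.choose j : K) * g j
          = (-1 : K) ^ (m - j) * (m.choose j : K) * g j * 1 := by rw [mul_one]
        _ = (-1 : K) ^ (m - j) * (m.choose j : K) * g j * ((-1 : K) ^ j * (-1 : K) ^ j) := by rw [h8]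
        _ = _ := by ring
    rw [h6, h1 m hm, mul_zero]
  -- the inverses are given by a polynomial
  let a : ℕ → K := fun k => (fwdDiff (1 : ℕ))^[k] g 0
  let Q : Polynomial K := ∑ k ∈ Finset.range m₀, Polynomial.C (a k / (k.factorial : K)) * descPochhammer K k
  have hQ : ∀ n : ℕ, Q.eval (n : K) = g n := by
    intro n
    have h9 : g n = ∑ k ∈ Finset.range (n + 1), n.choose k • a k := by
      have := shift_eq_sum_fwdDiff_iter (1 : ℕ) g n 0
      rw [zero_add, smul_eq_mul, mul_one] at this
      exact this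
    have h10 : ∀ N, n + 1 ≤ N → ∑ k ∈ Finset.range N, n.choose k • a k = g n := by
      intro N hN
      rw [h9]
      symm
      refine Finset.sum_subset (Finset.range_mono hN) fun k _ hk => ?_
      rw [Nat.choose_eq_zero_of_lt (by rw [Finset.mem_range] at hk; omega), zero_smul]
    have h11 : ∑ k ∈ Finset.range m₀, n.choose k • a k = g n := by
      rw [← h10 (m₀ + (n + 1)) (Nat.le_add_left _ _)]
      refine Finset.sum_subset (Finset.range_mono (Nat.le_add_right _ _)) fun k _ hk => ?_
      have h12 : a k = 0 := h5 k (by rw [Finset.mem_range] at hk; omega)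
      rw [h12, smul_zero]
    rw [← h11, Polynomial.eval_finsetSum]
    refine Finset.sum_congr rfl fun k _ => ?_
    rw [Polynomial.eval_mul, Polynomial.eval_C, descPochhammer_eval_eq_descFactorial, Nat.descFactorial_eq_factorial_mul_choose,
      nsmul_eq_mul]
    have h13 : (k.factorial : K) ≠ 0 := Nat.cast_ne_zero.2 k.factorial_ne_zero
    rw [div_mul_eq_mul_div, Nat.cast_mul]
    rw [div_eq_iff h13]
    ring
  -- so the polynomial is a unit
  have hQq : Q * q.map φ = 1 := by
    refine Polynomial.eq_of_infinite_eval_eq _ _ ?_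
    refine Set.Infinite.mono ?_ (Set.infinite_range_of_injective (Nat.cast_injective (R := K)))
    rintro _ ⟨n, rfl⟩
    show Polynomial.eval (n : K) (Q * q.map φ) = Polynomial.eval (n : K) 1
    have h14 : Polynomial.eval (n : K) (q.map φ) = φ (y n) := by
      rw [← hq n, ← Polynomial.eval_natCast_map]
    rw [Polynomial.eval_mul, Polynomial.eval_one, hQ n, h14]
    exact inv_mul_cancel₀ (hy n)
  have h15 : (q.map φ).natDegree = 0 :=
    Polynomial.natDegree_eq_zero_of_isUnit (IsUnit.of_mul_eq_one Q (by rw [mul_comm]; exact hQq))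
  rw [Polynomial.natDegree_map_eq_of_injective hφ] at h15
  rw [← hq n, ← hq 0, Polynomial.eq_C_of_natDegree_eq_zero h15, Polynomial.eval_C, Polynomial.eval_C]

/-- A sequence of nonzero elements of a domain given by a polynomial, whose inverses have zero finite differences
of large order, is constant.
Proof. Let `K` be the fraction field and `g n = 1 / y n`. Dividing `h` by the product of the `y i`, `i ≤ m`, one gets
`∑ j in range (m+1), (-1)^j * choose m j * g j = 0` for all `m ≥ m₀`, that is, the finite differences of `g` at `0` of order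
`m ≥ m₀` are zero (`fwdDiff_iter_eq_sum_shift`). By Newton's formula (`shift_eq_sum_fwdDiff_iter`) `g n = ∑ k < m₀, choose n k * (Δ^k g) 0`
for all `n`, a polynomial in `n` over `K` (`K` has characteristic zero: the binomial coefficients as polynomials, `Ring.choose` or
`descPochhammer`). So there is a polynomial `Q` over `K` with `Q(n) * q(n) = 1` for all natural numbers `n`, hence `Q * q = 1`
(`Polynomial.funext` on an infinite set), so `q` has degree 0. -/
theorem rat {R : Type*} [CommRing R] [IsDomain R] [CharZero R] (y : ℕ → R) (hy0 : ∀ n, y n ≠ 0)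
    (q : Polynomial R) (hq : ∀ n : ℕ, q.eval (n : R) = y n) (m₀ : ℕ)
    (h : ∀ m, m₀ ≤ m → ∑ j ∈ Finset.range (m + 1), (-1) ^ j * (m.choose j : R) *
      ∏ i ∈ (Finset.range (m + 1)).erase j, y i = 0) (n : ℕ) : y n = y 0 := by
  have : CharZero (FractionRing R) :=
    charZero_of_injective_algebraMap (IsFractionRing.injective R (FractionRing R))
  exact RAT_aux (algebraMap R (FractionRing R)) (IsFractionRing.injective R (FractionRing R)) y hy0 q hq m₀ h n

end MP_a5a771_alC
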