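import Pool.Agent.Lib.MP_a5a771_alC.Defs

/-!
# Leaf S: the symbol maps
-/

set_option autoImplicit false

noncomputable section

open Module PBWB

namespace MP_a5a771_alC

attribute [local instance 100] LieRing.ofAssociativeRing

variable {F L I : Type*} [Field F] [LieRing L] [LieAlgebra F L] [LinearOrder I] (b : Basis I F L) (wt : I → ℕ)

/-- The symbol of a letter. -/
private def S_g (i : I) : Module.End F (MvPolynomial I F) :=
  if wt i = 0 then TT b wt (b i) else if wt i = 1 then MM (MvPolynomial.X i) else 0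

/-- The symbol of a word. -/
private def S_gw (w : List I) : Module.End F (MvPolynomial I F) := (w.map (S_g b wt)).prod

/-- The map to the polynomials with coefficients in the algebra of the endomorphisms. -/
private def S_Q : FreeAlgebra F I →ₐ[F] Polynomial (Module.End F (MvPolynomial I F)) :=
  FreeAlgebra.lift F fun i => Polynomial.monomial (wt i) (S_g b wt i)

omit [LinearOrder I] in
private theorem S_Q_fw (w : List I) : S_Q b wt (fw F w) = Polynomial.monomial (wgt wt w) (S_gw b wt w) := by
  induction w with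
  | nil =>
    rw [fw_nil, map_one]
    rfl
  | cons i w ih =>
    rw [fw_cons, map_mul, ih, S_Q, FreeAlgebra.lift_ι_apply, Polynomial.monomial_mul_monomial, wgt_cons]
    rfl

/-- The coefficients of small degree are zero. -/
private def S_Z {A : Type*} [Ring A] (n : ℕ) (p : Polynomial A) : Prop := ∀ j < n, p.coeff j = 0

private theorem S_Z_mul {A : Type*} [Ring A] {m n : ℕ} {p q : Polynomial A} (hp : S_Z m p) (hq : S_Z n q) :
    S_Z (m + n) (p * q) := by
  intro j hj
  rw [Polynomial.coeff_mul]
  refine Finset.sum_eq_zero fun x hx => ?_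
  rw [Finset.HasAntidiagonal.mem_antidiagonal] at hx
  by_cases h : x.1 < m
  · rw [hp _ h, zero_mul]
  · rw [hq x.2 (by omega), mul_zero]

private theorem S_coeff_mul {A : Type*} [Ring A] {m n : ℕ} {p q : Polynomial A} (hp : S_Z m p) (hq : S_Z n q) :
    (p * q).coeff (m + n) = p.coeff m * q.coeff n := by
  rw [Polynomial.coeff_mul, Finset.sum_eq_single (m, n)]
  · rintro ⟨i, j⟩ hx hne
    rw [Finset.HasAntidiagonal.mem_antidiagonal] at hx
    simp only at hx
    by_cases h : i < m
    · rw [hp _ h, zero_mul]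
    · rw [hq j (by
        by_contra h1
        apply hne
        have h2 : i = m := by omega
        have h3 : j = n := by omega
        rw [h2, h3]), mul_zero]
  · intro h
    exfalso
    apply h
    rw [Finset.HasAntidiagonal.mem_antidiagonal]

private theorem S_Z_monomial {A : Type*} [Ring A] {m n : ℕ} (h : m ≤ n) (a : A) :
    S_Z m (Polynomial.monomial n a) := by
  intro j hj
  rw [Polynomial.coeff_monomial, if_neg (by omega)]

omit [LinearOrder I] in
private theorem S_Z_FG {k : ℕ} {x : FreeAlgebra F I} (hx : x ∈ FG F wt k) : S_Z k (S_Q b wt x) := by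
  induction hx using Submodule.span_induction with
  | mem x hx =>
    obtain ⟨w, hw, rfl⟩ := hx
    rw [S_Q_fw]
    exact S_Z_monomial hw _
  | zero =>
    intro j _
    rw [map_zero, Polynomial.coeff_zero]
  | add x y _ _ hx hy =>
    intro j hj
    rw [map_add, Polynomial.coeff_add, hx j hj, hy j hj, add_zero]
  | smul c x _ hx =>
    intro j hj
    rw [map_smul, Polynomial.coeff_smul, hx j hj, smul_zero]

omit [LinearOrder I] in
private theorem S_tl_b (i : I) : tl b wt (b i) = if wt i = 0 then MvPolynomial.X i else 0 := by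
  rw [tl, Basis.constr_basis]

omit [LinearOrder I] in
private theorem S_wl_b (i : I) : wl b wt (b i) = if wt i = 1 then MvPolynomial.X i else 0 := by
  rw [wl, Basis.constr_basis]

omit [LinearOrder I] in
private theorem S_wl_eq (l : L) :
    wl b wt l = (b.repr l).sum fun i a => a • (if wt i = 1 then MvPolynomial.X i else 0 : MvPolynomial I F) := by
  rw [wl, Basis.constr_apply]

omit [LinearOrder I] in
private theorem S_wl_zero {l : L} (h : ∀ i, b.repr l i ≠ 0 → wt i ≠ 1) : wl b wt l = 0 := by
  rw [S_wl_eq]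
  refine Finset.sum_eq_zero fun i hi => ?_
  show b.repr l i • (if wt i = 1 then MvPolynomial.X i else 0 : MvPolynomial I F) = 0
  rw [if_neg (h i (Finsupp.mem_support_iff.1 hi)), smul_zero]

omit [LinearOrder I] in
private theorem S_Ad_X (l : L) (j : I) :
    Ad b wt l (MvPolynomial.X j) = if wt j = 1 then wl b wt ⁅l, b j⁆ else 0 := by
  rw [Ad, MvPolynomial.mkDerivation_X]

omit [LinearOrder I] in
private theorem S_mem_bracket (hwt : WOk b wt) {x y : L} {m n : ℕ} (hx : x ∈ Gw b wt m) (hy : y ∈ Gw b wt n) :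
    ⁅x, y⁆ ∈ Gw b wt (m + n) := by
  have hx' : x = ∑ i ∈ (b.repr x).support, b.repr x i • b i := by
    conv_lhs => rw [← b.linearCombination_repr x, Finsupp.linearCombination_apply, Finsupp.sum]
  have hy' : y = ∑ i ∈ (b.repr y).support, b.repr y i • b i := by
    conv_lhs => rw [← b.linearCombination_repr y, Finsupp.linearCombination_apply, Finsupp.sum]
  rw [hx', hy', sum_lie]
  refine Submodule.sum_mem _ fun i hi => ?_
  rw [lie_sum]
  refine Submodule.sum_mem _ fun j hj => ?_
  rw [smul_lie, lie_smul]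
  refine Submodule.smul_mem _ _ (Submodule.smul_mem _ _ ?_)
  intro k hk
  have h1 := hwt i j k hk
  have h2 := hx i (Finsupp.mem_support_iff.1 hi)
  have h3 := hy j (Finsupp.mem_support_iff.1 hj)
  omega

omit [LinearOrder I] in
private theorem S_b_mem (i : I) : b i ∈ Gw b wt (wt i) := by
  classical
  intro j hj
  rw [Basis.repr_self, Finsupp.single_apply] at hj
  split_ifs at hj with h
  · rw [h]
  · exact absurd rfl hj

omit [LinearOrder I] in
private theorem S_wl_Gw {l : L} (h : l ∈ Gw b wt 2) : wl b wt l = 0 :=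
  S_wl_zero b wt fun i hi h1 => by
    have h2 := h i hi
    omega

omit [LinearOrder I] in
private theorem S_Ad_wl (hwt : WOk b wt) (l : L) {y : L} (hy : y ∈ Gw b wt 1) :
    Ad b wt l (wl b wt y) = wl b wt ⁅l, y⁆ := by
  have hy' : y = ∑ i ∈ (b.repr y).support, b.repr y i • b i := by
    conv_lhs => rw [← b.linearCombination_repr y, Finsupp.linearCombination_apply, Finsupp.sum]
  have h1 : wl b wt ⁅l, y⁆ = ∑ i ∈ (b.repr y).support, b.repr y i • wl b wt ⁅l, b i⁆ := by
    conv_lhs => rw [hy', lie_sum, map_sum]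
    refine Finset.sum_congr rfl fun i _ => ?_
    rw [lie_smul, map_smul]
  rw [h1, S_wl_eq, Finsupp.sum, map_sum]
  refine Finset.sum_congr rfl fun i hi => ?_
  rw [Derivation.map_smul]
  congr 1
  have h2 := hy i (Finsupp.mem_support_iff.1 hi)
  split_ifs with h3
  · rw [S_Ad_X, if_pos h3]
  · rw [map_zero]
    have h4 : l ∈ Gw b wt 0 := fun _ _ => Nat.zero_le _
    have h5 := S_mem_bracket b wt hwt h4 (S_b_mem b wt i)
    refine (S_wl_zero b wt fun k hk h6 => ?_).symm
    have h7 := h5 k hk
    omega

omit [LinearOrder I] in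
private theorem S_TT_apply (l : L) (p : MvPolynomial I F) :
    TT b wt l p = tl b wt l * p + Ad b wt l p := rfl

omit [LinearOrder I] in
private theorem S_MM_apply (p q : MvPolynomial I F) : MM p q = p * q := rfl

omit [LinearOrder I] in
private theorem S_TT_MM (l : L) (p : MvPolynomial I F) :
    TT b wt l * MM p - MM p * TT b wt l = MM (Ad b wt l p) := by
  refine LinearMap.ext fun q => ?_
  rw [LinearMap.sub_apply, Module.End.mul_apply, Module.End.mul_apply, S_TT_apply, S_TT_apply, S_MM_apply,
    S_MM_apply, S_MM_apply, Derivation.leibniz, smul_eq_mul, smul_eq_mul]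
  ring

omit [LinearOrder I] in
private theorem S_MM_comm (p q : MvPolynomial I F) : MM p * MM q = MM q * MM p := by
  refine LinearMap.ext fun r => ?_
  rw [Module.End.mul_apply, Module.End.mul_apply, S_MM_apply, S_MM_apply, S_MM_apply, S_MM_apply]
  ring

omit [LinearOrder I] in
private theorem S_Ad_comm (hwt : WOk b wt) (hA : HA b wt) (i j : I) (p : MvPolynomial I F) :
    Ad b wt (b i) (Ad b wt (b j) p) = Ad b wt (b j) (Ad b wt (b i) p) := by
  have h0 : ∀ l : L, l ∈ Gw b wt 0 := fun _ _ _ => Nat.zero_le _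
  have h1 : ⁅b i, b j⁆ ∈ Gw b wt 1 := fun k hk => hA i j k hk
  have h2 : ⁅(Ad b wt (b i)), (Ad b wt (b j))⁆ = 0 := by
    refine MvPolynomial.derivation_ext fun k => ?_
    rw [Derivation.commutator_apply, Derivation.zero_apply, S_Ad_X, S_Ad_X]
    by_cases hk : wt k = 1
    · rw [if_pos hk, if_pos hk]
      have hb : b k ∈ Gw b wt 1 := by
        have h3 := S_b_mem b wt k
        rwa [hk] at h3
      have hb1 : ∀ l : L, ⁅l, b k⁆ ∈ Gw b wt 1 := fun l => by
        have h3 := S_mem_bracket b wt hwt (h0 l) hb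
        rwa [zero_add] at h3
      rw [S_Ad_wl b wt hwt _ (hb1 _), S_Ad_wl b wt hwt _ (hb1 _), ← map_sub, ← lie_lie]
      exact S_wl_Gw b wt (S_mem_bracket b wt hwt h1 hb)
    · rw [if_neg hk, if_neg hk, map_zero, map_zero, sub_zero]
  have h3 := congrArg (fun D : Derivation F (MvPolynomial I F) (MvPolynomial I F) => D p) h2
  simp only [Derivation.commutator_apply, Derivation.zero_apply] at h3
  exact sub_eq_zero.1 h3

omit [LinearOrder I] in
/-- The leading part of the relation. -/
private theorem S_lead (hwt : WOk b wt) (hA : HA b wt) (i j : I) :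
    S_g b wt i * S_g b wt j - S_g b wt j * S_g b wt i =
      (b.repr ⁅b i, b j⁆).sum fun l a => if wt l = wt i + wt j then a • S_g b wt l else 0 := by
  have hsum2 : 2 ≤ wt i + wt j → ((b.repr ⁅b i, b j⁆).sum fun l a =>
      if wt l = wt i + wt j then a • S_g b wt l else 0) = 0 := by
    intro h
    refine Finset.sum_eq_zero fun l _ => ?_
    show (if wt l = wt i + wt j then b.repr ⁅b i, b j⁆ l • S_g b wt l else 0) = 0
    split_ifs with h1
    · rw [S_g, if_neg (by omega), if_neg (by omega), smul_zero]
    · rfl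
  have key : ∀ i j, wt i = 0 → wt j = 1 → S_g b wt i * S_g b wt j - S_g b wt j * S_g b wt i =
      (b.repr ⁅b i, b j⁆).sum fun l a => if wt l = 1 then a • S_g b wt l else 0 := by
    intro i j hi hj
    rw [S_g, S_g, if_pos hi, if_neg (by omega), if_pos hj, S_TT_MM, S_Ad_X, if_pos hj, S_wl_eq, Finsupp.sum,
      Finsupp.sum]
    have h1 : ∀ (s : Finset I) (f : I → MvPolynomial I F), MM (∑ l ∈ s, f l) = ∑ l ∈ s, MM (f l) := by
      intro s f
      refine LinearMap.ext fun q => ?_
      rw [S_MM_apply, Finset.sum_mul, LinearMap.sum_apply]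
      rfl
    rw [h1]
    refine Finset.sum_congr rfl fun l _ => ?_
    by_cases hl : wt l = 1
    · rw [if_pos hl, if_pos hl, S_g, if_neg (by omega), if_pos hl]
      refine LinearMap.ext fun q => ?_
      rw [S_MM_apply, LinearMap.smul_apply, S_MM_apply, smul_mul_assoc]
    · rw [if_neg hl, if_neg hl, smul_zero]
      refine LinearMap.ext fun q => ?_
      rw [S_MM_apply, zero_mul, LinearMap.zero_apply]
  by_cases hi2 : 2 ≤ wt i
  · have h1 : S_g b wt i = 0 := by rw [S_g, if_neg (by omega), if_neg (by omega)]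
    rw [hsum2 (by omega), h1, zero_mul, mul_zero, sub_zero]
  by_cases hj2 : 2 ≤ wt j
  · have h1 : S_g b wt j = 0 := by rw [S_g, if_neg (by omega), if_neg (by omega)]
    rw [hsum2 (by omega), h1, zero_mul, mul_zero, sub_zero]
  by_cases hi1 : wt i = 1
  · by_cases hj1 : wt j = 1
    · rw [hsum2 (by omega), S_g, S_g, if_neg (by omega), if_pos hi1, if_neg (by omega), if_pos hj1, S_MM_comm,
        sub_self]
    · have hj0 : wt j = 0 := by omega
      have h1 := key j i hj0 hi1
      rw [← neg_sub, h1, ← lie_skew (b i) (b j), map_neg, Finsupp.sum, Finsupp.sum, Finsupp.support_neg,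
        ← Finset.sum_neg_distrib]
      refine Finset.sum_congr rfl fun l _ => ?_
      rw [hi1, hj0, add_zero]
      split_ifs
      · rw [Finsupp.neg_apply]
        exact (neg_smul (b.repr ⁅b j, b i⁆ l) (S_g b wt l)).symm
      · rw [neg_zero]
  · have hi0 : wt i = 0 := by omega
    by_cases hj1 : wt j = 1
    · rw [key i j hi0 hj1]
      refine Finset.sum_congr rfl fun l _ => ?_
      rw [hi0, hj1, zero_add]
    · have hj0 : wt j = 0 := by omega
      have h1 : ((b.repr ⁅b i, b j⁆).sum fun l a => if wt l = wt i + wt j then a • S_g b wt l else 0) = 0 := by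
        refine Finset.sum_eq_zero fun l hl => ?_
        show (if wt l = wt i + wt j then b.repr ⁅b i, b j⁆ l • S_g b wt l else 0) = 0
        rw [if_neg]
        have h2 := hA i j l (Finsupp.mem_support_iff.1 hl)
        omega
      rw [h1, S_g, S_g, if_pos hi0, if_pos hj0]
      refine LinearMap.ext fun q => ?_
      rw [LinearMap.sub_apply, Module.End.mul_apply, Module.End.mul_apply, S_TT_apply, S_TT_apply, S_TT_apply,
        S_TT_apply, S_tl_b, S_tl_b, if_pos hi0, if_pos hj0, map_add, map_add, Derivation.leibniz, Derivation.leibniz,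
        S_Ad_X, S_Ad_X, if_neg hi1, if_neg hj1, S_Ad_comm b wt hwt hA i j q, LinearMap.zero_apply, smul_eq_mul,
        smul_eq_mul, smul_eq_mul]
      ring

omit [LinearOrder I] in
private theorem S_Z_rel (hwt : WOk b wt) (hA : HA b wt) (i j : I) : S_Z (wt i + wt j + 1) (S_Q b wt (rel b i j)) := by
  have h1 : S_Q b wt (rel b i j) = Polynomial.monomial (wt i + wt j) (S_g b wt i * S_g b wt j) -
      Polynomial.monomial (wt i + wt j) (S_g b wt j * S_g b wt i) -
      (b.repr ⁅b i, b j⁆).sum fun l a => a • Polynomial.monomial (wt l) (S_g b wt l) := by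
    have h2 : ∀ l, S_Q b wt (FreeAlgebra.ι F l) = Polynomial.monomial (wt l) (S_g b wt l) := fun l =>
      FreeAlgebra.lift_ι_apply _ l
    rw [rel, map_sub, map_sub, map_mul, map_mul, h2, h2, Polynomial.monomial_mul_monomial,
      Polynomial.monomial_mul_monomial, add_comm (wt j) (wt i), lin, Basis.constr_apply, Finsupp.sum, Finsupp.sum,
      map_sum]
    congr 1
    refine Finset.sum_congr rfl fun l _ => ?_
    rw [map_smul, h2]
  intro n hn
  rw [h1, Polynomial.coeff_sub, Polynomial.coeff_sub, Polynomial.coeff_monomial, Polynomial.coeff_monomial,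
    Finsupp.sum, Polynomial.finsetSum_coeff]
  by_cases hn1 : n = wt i + wt j
  · subst hn1
    rw [if_pos rfl, if_pos rfl, S_lead b wt hwt hA i j, Finsupp.sum, sub_eq_zero]
    refine Finset.sum_congr rfl fun l _ => ?_
    rw [Polynomial.coeff_smul, Polynomial.coeff_monomial]
    split_ifs
    · rfl
    · rw [smul_zero]
  · rw [if_neg (by omega), if_neg (by omega), sub_zero, zero_sub, neg_eq_zero]
    refine Finset.sum_eq_zero fun l hl => ?_
    have h2 := hwt i j l (Finsupp.mem_support_iff.1 hl)
    rw [Polynomial.coeff_smul, Polynomial.coeff_monomial, if_neg (by omega), smul_zero]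

private theorem S_coeff_ker (hwt : WOk b wt) (hA : HA b wt) {k : ℕ} {x : FreeAlgebra F I} (hx : x ∈ FG F wt k)
    (h0 : toU b x = 0) : (S_Q b wt x).coeff k = 0 := by
  have h1 := ker_mem b wt hwt hx h0
  clear hx h0
  induction h1 using Submodule.span_induction with
  | mem x hx =>
    obtain ⟨u, i, j, v, h, rfl⟩ := hx
    rw [map_mul, map_mul, S_Q_fw, S_Q_fw]
    exact S_Z_mul (S_Z_mul (S_Z_monomial le_rfl _) (S_Z_rel b wt hwt hA i j)) (S_Z_monomial le_rfl _) k (by omega)
  | zero => rw [map_zero, Polynomial.coeff_zero]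
  | add x y _ _ hx hy => rw [map_add, Polynomial.coeff_add, hx, hy, add_zero]
  | smul c x _ hx => rw [map_smul, Polynomial.coeff_smul, hx, smul_zero]

/-- The symbol map. -/
private def S_sg (k : ℕ) : UniversalEnvelopingAlgebra F L →ₗ[F] Module.End F (MvPolynomial I F) :=
  (pbw b).constr F fun w => if wgt wt w.1 = k then S_gw b wt w.1 else 0

private theorem S_sg_eq (k : ℕ) (u : UniversalEnvelopingAlgebra F L) : S_sg b wt k u =
    ∑ w ∈ ((pbw b).repr u).support, (pbw b).repr u w • (if wgt wt w.1 = k then S_gw b wt w.1 else 0) := by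
  rw [S_sg, Basis.constr_apply, Finsupp.sum]

private theorem S_sg_toU (hwt : WOk b wt) (hA : HA b wt) {k : ℕ} {x : FreeAlgebra F I} (hx : x ∈ FG F wt k) :
    S_sg b wt k (toU b x) = (S_Q b wt x).coeff k := by
  have hu : toU b x ∈ UG b wt k := by
    rw [← map_FG]
    exact ⟨x, hx, rfl⟩
  obtain ⟨y, hy⟩ : ∃ y : FreeAlgebra F I, y = ∑ w ∈ ((pbw b).repr (toU b x)).support,
      (pbw b).repr (toU b x) w • fw F w.1 := ⟨_, rfl⟩
  have hyU : toU b y = toU b x := by
    rw [hy, map_sum]
    conv_rhs => rw [← (pbw b).linearCombination_repr (toU b x), Finsupp.linearCombination_apply, Finsupp.sum]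
    refine Finset.sum_congr rfl fun w _ => ?_
    rw [map_smul, toU_fw, pbw_apply]
  have hyk : y ∈ FG F wt k := by
    rw [hy]
    refine Submodule.sum_mem _ fun w hw => Submodule.smul_mem _ _ (Submodule.subset_span ⟨w.1, ?_, rfl⟩)
    exact (mem_UG_iff b wt hwt).1 hu w (Finsupp.mem_support_iff.1 hw)
  have h1 : (S_Q b wt (x - y)).coeff k = 0 :=
    S_coeff_ker b wt hwt hA (sub_mem hx hyk) (by rw [map_sub, hyU, sub_self])
  rw [map_sub, Polynomial.coeff_sub, sub_eq_zero] at h1
  rw [h1, S_sg_eq, hy, map_sum, Polynomial.finsetSum_coeff]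
  refine Finset.sum_congr rfl fun w _ => ?_
  rw [map_smul, S_Q_fw, Polynomial.coeff_smul, Polynomial.coeff_monomial]

private theorem S_mul (hwt : WOk b wt) (hA : HA b wt) {k l : ℕ} {u v : UniversalEnvelopingAlgebra F L}
    (hu : u ∈ UG b wt k) (hv : v ∈ UG b wt l) : S_sg b wt (k + l) (u * v) = S_sg b wt k u * S_sg b wt l v := by
  rw [← map_FG] at hu hv
  obtain ⟨x, hx, rfl⟩ := hu
  obtain ⟨y, hy, rfl⟩ := hv
  show S_sg b wt (k + l) (toU b x * toU b y) = S_sg b wt k (toU b x) * S_sg b wt l (toU b y)
  rw [← map_mul, S_sg_toU b wt hwt hA (FG_mul wt hx hy), S_sg_toU b wt hwt hA hx, S_sg_toU b wt hwt hA hy, map_mul]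
  exact S_coeff_mul (S_Z_FG b wt hx) (S_Z_FG b wt hy)

private theorem S_zero (hwt : WOk b wt) {k : ℕ} {u : UniversalEnvelopingAlgebra F L} (hu : u ∈ UG b wt (k + 1)) :
    S_sg b wt k u = 0 := by
  rw [S_sg_eq]
  refine Finset.sum_eq_zero fun w hw => ?_
  have h1 := (mem_UG_iff b wt hwt).1 hu w (Finsupp.mem_support_iff.1 hw)
  rw [if_neg (by omega), smul_zero]

omit [LinearOrder I] in
private theorem S_g_mem (i : I) : S_g b wt i ∈ BB b wt := by
  rw [S_g]
  split_ifs with h h1
  · exact Algebra.subset_adjoin (Or.inl ⟨b i, rfl⟩)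
  · refine Algebra.subset_adjoin (Or.inr ⟨b i, ?_⟩)
    show MM (wl b wt (b i)) = MM (MvPolynomial.X i)
    rw [S_wl_b, if_pos h1]
  · exact zero_mem _

omit [LinearOrder I] in
private theorem S_gw_mem (w : List I) : S_gw b wt w ∈ BB b wt := by
  rw [S_gw]
  refine Subalgebra.list_prod_mem _ fun x hx => ?_
  obtain ⟨i, -, rfl⟩ := List.mem_map.1 hx
  exact S_g_mem b wt i

private theorem S_mem (k : ℕ) (u : UniversalEnvelopingAlgebra F L) : S_sg b wt k u ∈ BB b wt := by
  rw [S_sg_eq]
  refine Subalgebra.sum_mem _ fun w _ => Subalgebra.smul_mem _ ?_ _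
  split_ifs
  · exact S_gw_mem b wt w.1
  · exact zero_mem _

private theorem S_sg_wp (k : ℕ) (w : List I) (hw : w.Pairwise (· ≤ ·)) :
    S_sg b wt k (wp b w) = if wgt wt w = k then S_gw b wt w else 0 := by
  have h1 := Basis.constr_basis (pbw b) F (fun w => if wgt wt w.1 = k then S_gw b wt w.1 else 0) ⟨w, hw⟩
  rw [pbw_apply] at h1
  exact h1

omit [LinearOrder I] in
/-- The monomial of a word. -/
private def S_mo (F : Type*) [Field F] (w : List I) : MvPolynomial I F := (w.map MvPolynomial.X).prod

omit [LinearOrder I] in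
private theorem S_Ad_mo (l : L) (w : List I) (hw : wgt wt w = 0) : Ad b wt l (S_mo F w) = 0 := by
  induction w with
  | nil => exact (Ad b wt l).map_one_eq_zero
  | cons i w ih =>
    rw [wgt_cons] at hw
    have h1 : S_mo F (i :: w) = MvPolynomial.X i * S_mo F w := by simp [S_mo]
    rw [h1, Derivation.leibniz, ih (by omega), S_Ad_X, if_neg (by omega), smul_zero, smul_zero, add_zero]

omit [LinearOrder I] in
private theorem S_gw_zero (w : List I) (hw : wgt wt w = 0) : S_gw b wt w 1 = S_mo F w := by
  induction w with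
  | nil => rfl
  | cons i w ih =>
    have hw' := hw
    rw [wgt_cons] at hw'
    have h1 : S_mo F (i :: w) = MvPolynomial.X i * S_mo F w := by simp [S_mo]
    have h2 : S_gw b wt (i :: w) = S_g b wt i * S_gw b wt w := by simp [S_gw]
    rw [h1, h2, Module.End.mul_apply, ih (by omega), S_g, if_pos (by omega), S_TT_apply, S_tl_b, if_pos (by omega),
      S_Ad_mo b wt _ w (by omega), add_zero]

private theorem S_gw_one (hmono : Antitone wt) (w : List I) (hw : w.Pairwise (· ≤ ·)) (h1 : wgt wt w = 1) :
    S_gw b wt w 1 = S_mo F w ∧ ∃ j v, w = j :: v ∧ wt j = 1 ∧ wgt wt v = 0 := by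
  cases w with
  | nil => simp [wgt] at h1
  | cons j v =>
    have h2 : wt j = 1 ∧ wgt wt v = 0 := by
      rw [wgt_cons] at h1
      by_cases hj : wt j = 0
      · exfalso
        have h3 : wgt wt v = 0 := by
          rw [wgt, List.sum_eq_zero_iff]
          intro n hn
          obtain ⟨i, hi, rfl⟩ := List.mem_map.1 hn
          have h4 := hmono ((List.pairwise_cons.1 hw).1 i hi)
          omega
        omega
      · omega
    refine ⟨?_, j, v, rfl, h2.1, h2.2⟩
    have h3 : S_mo F (j :: v) = MvPolynomial.X j * S_mo F v := by simp [S_mo]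
    have h4 : S_gw b wt (j :: v) = S_g b wt j * S_gw b wt v := by simp [S_gw]
    rw [h3, h4, Module.End.mul_apply, S_gw_zero b wt v h2.2, S_g, if_neg (by omega), if_pos h2.1, S_MM_apply]

private theorem S_sg_one_apply (hmono : Antitone wt) (k : ℕ) (hk : k ≤ 1) (u : UniversalEnvelopingAlgebra F L) :
    S_sg b wt k u 1 = ∑ w ∈ ((pbw b).repr u).support, (if wgt wt w.1 = k then (pbw b).repr u w else 0) • S_mo F w.1 := by
  rw [S_sg_eq, LinearMap.sum_apply]
  refine Finset.sum_congr rfl fun w _ => ?_
  rw [LinearMap.smul_apply]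
  by_cases hw : wgt wt w.1 = k
  · rw [if_pos hw, if_pos hw]
    congr 1
    rcases Nat.le_one_iff_eq_zero_or_eq_one.1 hk with rfl | rfl
    · exact S_gw_zero b wt w.1 hw
    · exact (S_gw_one b wt hmono w.1 w.2 hw).1
  · rw [if_neg hw, if_neg hw, LinearMap.zero_apply, smul_zero, zero_smul]

private theorem S_mo_li : LinearIndependent F fun w : {w : List I // w.Pairwise (· ≤ ·)} => S_mo F w.1 := by
  classical
  have h1 : (fun w : {w : List I // w.Pairwise (· ≤ ·)} => S_mo F w.1) =
      (MvPolynomial.basisMonomials I F) ∘ fun w : {w : List I // w.Pairwise (· ≤ ·)} =>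
        Multiset.toFinsupp (w.1 : Multiset I) := by
    funext w
    rw [Function.comp_apply, MvPolynomial.coe_basisMonomials]
    obtain ⟨w, hw⟩ := w
    simp only
    clear hw
    induction w with
    | nil => simp [S_mo]
    | cons i w ih =>
      have h2 : S_mo F (i :: w) = MvPolynomial.X i * S_mo F w := by simp [S_mo]
      rw [h2, ih, ← Multiset.cons_coe, ← Multiset.singleton_add, Multiset.toFinsupp_add,
        Multiset.toFinsupp_singleton, MvPolynomial.X, MvPolynomial.monomial_mul, one_mul]
  rw [h1]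
  refine (MvPolynomial.basisMonomials I F).linearIndependent.comp _ fun v w h => ?_
  have h2 : (v.1 : Multiset I) = (w.1 : Multiset I) := Multiset.toFinsupp.injective h
  exact Subtype.ext (List.Perm.eq_of_pairwise' v.2 w.2 (Multiset.coe_eq_coe.1 h2))

private theorem S_inj (hmono : Antitone wt) (k : ℕ) (hk : k ≤ 1) (u : UniversalEnvelopingAlgebra F L)
    (h : S_sg b wt k u 1 = 0) (w : {w : List I // w.Pairwise (· ≤ ·)}) (hw : wgt wt w.1 = k) :
    (pbw b).repr u w = 0 := by
  rw [S_sg_one_apply b wt hmono k hk] at h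
  have h1 := linearIndependent_iff'.1 (S_mo_li (F := F) (I := I)) _ _ h w
  by_cases h2 : w ∈ ((pbw b).repr u).support
  · have h3 := h1 h2
    rwa [if_pos hw] at h3
  · exact Finsupp.notMem_support_iff.1 h2

omit [LinearOrder I] in
private theorem S_mo_mem (w : List I) (hw : wgt wt w = 0) : S_mo F w ∈ PT wt F := by
  rw [S_mo]
  refine Subalgebra.list_prod_mem _ fun x hx => ?_
  obtain ⟨i, hi, rfl⟩ := List.mem_map.1 hx
  refine MvPolynomial.X_mem_supported.2 ?_
  show wt i = 0
  rw [wgt, List.sum_eq_zero_iff] at hw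
  exact hw _ (List.mem_map.2 ⟨i, hi, rfl⟩)

omit [LinearOrder I] in
private theorem S_Ad_add (l m : L) : Ad b wt (l + m) = Ad b wt l + Ad b wt m := by
  refine MvPolynomial.derivation_ext fun k => ?_
  rw [Derivation.add_apply, S_Ad_X, S_Ad_X, S_Ad_X]
  split_ifs
  · rw [add_lie, map_add]
  · rw [add_zero]

omit [LinearOrder I] in
private theorem S_Ad_smul (c : F) (l : L) : Ad b wt (c • l) = c • Ad b wt l := by
  refine MvPolynomial.derivation_ext fun k => ?_
  rw [Derivation.smul_apply, S_Ad_X, S_Ad_X]
  split_ifs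
  · rw [smul_lie, map_smul]
  · rw [smul_zero]

/-- `TT` as a linear map. -/
private def S_TTl : L →ₗ[F] Module.End F (MvPolynomial I F) where
  toFun := TT b wt
  map_add' l m := by
    refine LinearMap.ext fun p => ?_
    rw [LinearMap.add_apply, S_TT_apply, S_TT_apply, S_TT_apply, map_add, S_Ad_add, Derivation.add_apply]
    ring
  map_smul' c l := by
    refine LinearMap.ext fun p => ?_
    rw [RingHom.id_apply, LinearMap.smul_apply, S_TT_apply, S_TT_apply, map_smul, S_Ad_smul, Derivation.smul_apply,
      smul_add, smul_mul_assoc]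

/-- `MM` of the part of weight `1` as a linear map. -/
private def S_MMl : L →ₗ[F] Module.End F (MvPolynomial I F) where
  toFun l := MM (wl b wt l)
  map_add' l m := by
    refine LinearMap.ext fun p => ?_
    rw [LinearMap.add_apply, S_MM_apply, S_MM_apply, S_MM_apply, map_add, add_mul]
  map_smul' c l := by
    refine LinearMap.ext fun p => ?_
    rw [RingHom.id_apply, LinearMap.smul_apply, S_MM_apply, S_MM_apply, map_smul, smul_mul_assoc]

/-- The symbol maps exist.
Proof. Let `q : FreeAlgebra F I →ₐ[F] End P` send the letter `i` to `TT (b i)` if `wt i = 0`, to `MM (X i)` if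
`wt i = 1`, to `0` otherwise, and `hw k : FreeAlgebra F I →ₗ[F] FreeAlgebra F I` be the component of weight `k`
(on words). For `u` in `UG b wt k` choose `x ∈ FG F wt k` with `toU b x = u`; `sg k u = q (hw k x)`. Well defined: if
`toU b x = 0`, `x ∈ FG F wt k`, then by `ker_mem` `x` is a combination of the `u * rel b i j * v` of weight at least
`k`; the part of weight `k` of such an element is zero or `u * (lead i j) * v`, where `lead i j` is the part of weight
`wt i + wt j` of `rel b i j`, and `q (lead i j) = 0`: both weights 0: the `TT (b i)` commute (`Ad (b i)`, `Ad (b j)` commute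
on the letters of weight 1 by the Jacobi identity, as `⁅⁅b i, b j⁆, b k⁆` has weight at least 2 by `hA` and `hwt`; and
`⁅b i, b j⁆` has no part of weight 0 by `hA`); weights 0 and 1: `TT (b i) * MM p - MM p * TT (b i) = MM (Ad (b i) p)`;
weights 1, 1: multiplications commute; a letter of weight at least 2: everything is zero. Extend `sg k` linearly to
all of `U(L)` (`LinearMap.exists_extend`). For `inj0`, `inj1`, `mem0`, `mem1`: sorted words (`pbw b`, `mem_UG_iff`); `hmono`: in a sorted
word of weight `1` the letter `j` of weight `1` comes first, the others have weight `0`, and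
`MM (X j) * TT i_1 * ... * TT i_r` applied to `1` is the monomial `X j * X i_1 * ... * X i_r`. -/
theorem exists_sym (hmono : Antitone wt) (hwt : WOk b wt) (hA : HA b wt) :
    ∃ sg : ℕ → UniversalEnvelopingAlgebra F L →ₗ[F] Module.End F (MvPolynomial I F), IsSym b wt sg := by
  refine ⟨S_sg b wt, ⟨fun hu hv => S_mul b wt hwt hA hu hv, fun hu => S_zero b wt hwt hu,
    fun {k u} _ => S_mem b wt k u, ?_, fun l => ?_, fun l _ => ?_, fun u => ?_, fun u h => ?_, fun u _ => ?_,
    fun u hu h => ?_⟩⟩
  · rw [← wp_nil b, S_sg_wp b wt 0 [] List.Pairwise.nil, if_pos (wgt_nil wt)]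
    rfl
  · have h1 : S_sg b wt 0 ∘ₗ ((UniversalEnvelopingAlgebra.ι F : L →ₗ⁅F⁆ UniversalEnvelopingAlgebra F L) :
        L →ₗ[F] UniversalEnvelopingAlgebra F L) = S_TTl b wt := by
      refine b.ext fun i => ?_
      show S_sg b wt 0 (UniversalEnvelopingAlgebra.ι F (b i)) = TT b wt (b i)
      rw [← wp_single, S_sg_wp b wt 0 [i] (List.pairwise_singleton _ i)]
      have h2 : wgt wt [i] = wt i := by simp [wgt]
      have h3 : S_gw b wt [i] = S_g b wt i := by simp [S_gw]
      rw [h2, h3]
      split_ifs with hi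
      · rw [S_g, if_pos hi]
      · refine LinearMap.ext fun p => ?_
        rw [S_TT_apply, S_tl_b, if_neg hi, zero_mul, zero_add, LinearMap.zero_apply]
        have h4 : Ad b wt (b i) = 0 := by
          refine MvPolynomial.derivation_ext fun k => ?_
          rw [S_Ad_X, Derivation.zero_apply]
          split_ifs with hk
          · refine S_wl_Gw b wt fun j hj => ?_
            have h5 := hwt i k j hj
            omega
          · rfl
        rw [h4, Derivation.zero_apply]
    exact congrArg (fun f => f l) h1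
  · have h1 : S_sg b wt 1 ∘ₗ ((UniversalEnvelopingAlgebra.ι F : L →ₗ⁅F⁆ UniversalEnvelopingAlgebra F L) :
        L →ₗ[F] UniversalEnvelopingAlgebra F L) = S_MMl b wt := by
      refine b.ext fun i => ?_
      show S_sg b wt 1 (UniversalEnvelopingAlgebra.ι F (b i)) = MM (wl b wt (b i))
      rw [← wp_single, S_sg_wp b wt 1 [i] (List.pairwise_singleton _ i), S_wl_b]
      have h2 : wgt wt [i] = wt i := by simp [wgt]
      have h3 : S_gw b wt [i] = S_g b wt i := by simp [S_gw]
      rw [h2, h3]
      split_ifs with hi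
      · rw [S_g, if_neg (by omega), if_pos hi]
      · refine LinearMap.ext fun p => ?_
        rw [S_MM_apply, zero_mul, LinearMap.zero_apply]
    exact congrArg (fun f => f l) h1
  · rw [S_sg_one_apply b wt hmono 0 (by omega)]
    refine Subalgebra.sum_mem _ fun w _ => ?_
    by_cases hw : wgt wt w.1 = 0
    · exact Subalgebra.smul_mem _ (S_mo_mem wt w.1 hw) _
    · rw [if_neg hw, zero_smul]
      exact zero_mem _
  · rw [mem_UG_iff b wt hwt]
    intro w hw
    by_contra h1
    exact hw (S_inj b wt hmono 0 (by omega) u h w (by omega))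
  · rw [S_sg_one_apply b wt hmono 1 le_rfl]
    refine Submodule.sum_mem _ fun w _ => ?_
    by_cases hw : wgt wt w.1 = 1
    · refine Submodule.smul_mem _ _ ?_
      obtain ⟨-, j, v, h1, h2, h3⟩ := S_gw_one b wt hmono w.1 w.2 hw
      refine Submodule.subset_span ⟨MvPolynomial.X j, ⟨b j, by rw [S_wl_b, if_pos h2]⟩, S_mo F v,
        S_mo_mem wt v h3, ?_⟩
      rw [h1]
      simp [S_mo]
    · rw [if_neg hw, zero_smul]
      exact zero_mem _
  · rw [mem_UG_iff b wt hwt]
    intro w hw
    by_contra h1
    have h2 := (mem_UG_iff b wt hwt).1 hu w hw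
    exact hw (S_inj b wt hmono 1 le_rfl u h w (by omega))

end MP_a5a771_alC
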