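import Pool.Agent.Lib.MP_a5a771_alC.E3
import Pool.Agent.Lib.MP_a5a771_alC.RAT

/-!
# Leaf ST1: step 1
-/

set_option autoImplicit false
set_option linter.unusedSectionVars false

noncomputable section

open Module PBWB

namespace MP_a5a771_alC

attribute [local instance 100] LieRing.ofAssociativeRing

variable {F L I : Type*} [Field F] [CharZero F] [LieRing L] [LieAlgebra F L] (b : Basis I F L) (wt : I → ℕ)

/-- The product without one factor. -/
private theorem ST1_erase {R : Type*} [CommRing R] [IsDomain R] (y : ℕ → R) (hy0 : ∀ n, y n ≠ 0) {m j : ℕ}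
    (hj : j ≤ m) : ∏ i ∈ (Finset.range (m + 1)).erase j, y i =
      (∏ i ∈ Finset.range (m - j), y (j + 1 + i)) * ∏ i ∈ Finset.range j, y i := by
  refine mul_left_cancel₀ (hy0 j) ?_
  rw [Finset.mul_prod_erase _ _ (Finset.mem_range.2 (by omega)), show m + 1 = j + 1 + (m - j) by omega,
    Finset.prod_range_add, Finset.prod_range_succ]
  ring

/-- The shifts are given by a polynomial. -/
private theorem ST1_poly (s : L →ₗ[F] F) (Y : MvPolynomial I F) :
    ∃ q : Polynomial (MvPolynomial I F), ∀ n : ℕ, q.eval (n : MvPolynomial I F) = tau b wt (n • s) Y := by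
  let θ : MvPolynomial I F →ₐ[F] Polynomial (MvPolynomial I F) := MvPolynomial.aeval fun i =>
    if wt i = 0 then Polynomial.C (MvPolynomial.X i) + Polynomial.C (MvPolynomial.C (s (b i))) * Polynomial.X
    else Polynomial.C (MvPolynomial.X i)
  refine ⟨θ Y, fun n => ?_⟩
  have h : (Polynomial.evalRingHom (n : MvPolynomial I F)).comp (θ : MvPolynomial I F →+* _) =
      (tau b wt (n • s) : MvPolynomial I F →+* MvPolynomial I F) := by
    refine MvPolynomial.ringHom_ext (fun a => ?_) fun i => ?_
    · have h1 : θ (MvPolynomial.C a) = algebraMap F _ a := θ.commutes a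
      have h2 : (algebraMap F (Polynomial (MvPolynomial I F)) a) = Polynomial.C (MvPolynomial.C a) := rfl
      rw [RingHom.comp_apply, RingHom.coe_coe, RingHom.coe_coe, h1, h2, tau_C,
        Polynomial.coe_evalRingHom, Polynomial.eval_C]
    · have h1 : θ (MvPolynomial.X i) = if wt i = 0 then
          Polynomial.C (MvPolynomial.X i) + Polynomial.C (MvPolynomial.C (s (b i))) * Polynomial.X
          else Polynomial.C (MvPolynomial.X i) := MvPolynomial.aeval_X _ _
      rw [RingHom.comp_apply, RingHom.coe_coe, RingHom.coe_coe, h1, Polynomial.coe_evalRingHom, tau,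
        MvPolynomial.aeval_X]
      by_cases h3 : wt i = 0
      · rw [if_pos h3, if_pos h3, Polynomial.eval_add, Polynomial.eval_mul, Polynomial.eval_C,
          Polynomial.eval_C, Polynomial.eval_X, LinearMap.smul_apply, nsmul_eq_mul, map_mul, map_natCast,
          mul_comm (n : MvPolynomial I F)]
      · rw [if_neg h3, if_neg h3, Polynomial.eval_C]
  exact congrArg (fun f : MvPolynomial I F →+* MvPolynomial I F => f Y) h

/-- Step 1, first half.
Proof. Let `Y = x 1`; if `Y = 0` it is trivial. By `dd_pow_apply_one` with `r = s`, for `m ≥ m₀` and dividing by `b₀ ≠ 0`,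
`∑ j, (-1)^j * choose m j * ∏ i in (range (m+1)).erase j, y i = 0` with `y i = tau (i • s) Y` (the product over `i < m - j` of
`tau (s + (j + i) • s) Y` is the product over `j < i ≤ m`). `y n ≠ 0` by `tau_inj`; `y n` is the value at `n` of the
image of `Y` under the ring homomorphism `P → P[X]`, `X i ↦ C (X i) + s (b i) * X` for `wt i = 0`, `X i ↦ C (X i)` otherwise
(evaluation at `n` of that homomorphism is `tau (n • s)`: `MvPolynomial.algHom_ext`). `rat` gives `y 1 = y 0`. -/
theorem step1a {s : L →ₗ[F] F} (hs : Kills b wt s) {x : Module.End F (MvPolynomial I F)} (hx : x ∈ BB b wt)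
    (hY : IsEig b wt s (x 1)) {b₀ : MvPolynomial I F} (hb0 : b₀ ≠ 0) (hb : IsEig b wt s b₀) (m₀ : ℕ)
    (hnil : ∀ m, m₀ ≤ m → (dd F x ^ m) (MM b₀) = 0) : tau b wt s (x 1) = x 1 := by
  by_cases hY0 : x 1 = 0
  · rw [hY0, map_zero]
  have hy0 : ∀ n : ℕ, tau b wt (n • s) (x 1) ≠ 0 := by
    intro n h
    exact hY0 (tau_inj b wt (n • s) (by rw [h, map_zero]))
  obtain ⟨q, hq⟩ := ST1_poly b wt s (x 1)
  have h := rat (fun n : ℕ => tau b wt (n • s) (x 1)) hy0 q hq m₀ (by
    intro m hm
    have h1 := dd_pow_apply_one b wt hs hs hx hY hb m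
    rw [hnil m hm, LinearMap.zero_apply] at h1
    have h2 := (mul_eq_zero.1 h1.symm).resolve_left hb0
    rw [← h2]
    refine Finset.sum_congr rfl fun j hj => ?_
    rw [ST1_erase _ hy0 (Nat.lt_succ_iff.1 (Finset.mem_range.1 hj))]
    have h3 : ∀ i : ℕ, (j + 1 + i) • s = s + (j + i) • s := by
      intro i
      rw [show j + 1 + i = 1 + (j + i) by omega, add_smul, one_smul]
    simp only [h3]) 1
  simpa only [one_smul, zero_smul, tau_zero] using h

/-- Step 1, second half.
Proof. With `tau s Y = Y` (so `tau (i • s) Y = Y`, `tau (r + (j + i) • s) Y = tau r Y`), `dd_pow_apply_one` gives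
`0 = v * ∑ j, (-1)^j * choose m j * (tau r Y)^(m-j) * Y^j = v * (tau r Y - Y)^m`. -/
theorem step1b {s r : L →ₗ[F] F} (hs : Kills b wt s) (hr : Kills b wt r)
    {x : Module.End F (MvPolynomial I F)} (hx : x ∈ BB b wt) (hY : IsEig b wt s (x 1))
    (ht : tau b wt s (x 1) = x 1) {v : MvPolynomial I F} (hv0 : v ≠ 0) (hv : IsEig b wt r v) (m : ℕ)
    (hnil : (dd F x ^ m) (MM v) = 0) : tau b wt r (x 1) = x 1 := by
  have h1 : ∀ i : ℕ, tau b wt (i • s) (x 1) = x 1 := by
    intro i
    induction i with
    | zero => rw [zero_smul, tau_zero]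
    | succ i ih => rw [add_smul, one_smul, ← tau_tau, ht, ih]
  have h2 := dd_pow_apply_one b wt hs hr hx hY hv m
  rw [hnil, LinearMap.zero_apply] at h2
  have h3 := (mul_eq_zero.1 h2.symm).resolve_left hv0
  have h4 : (tau b wt r (x 1) - x 1) ^ m = 0 := by
    rw [← h3, sub_eq_add_neg, add_comm, add_pow]
    refine Finset.sum_congr rfl fun j _ => ?_
    simp only [← tau_tau, h1]
    rw [Finset.prod_const, Finset.prod_const, Finset.card_range, Finset.card_range, neg_pow]
    ring
  exact sub_eq_zero.1 (eq_zero_of_pow_eq_zero h4)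

end MP_a5a771_alC
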