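import Pool.Agent.Lib.MP_a5a771_alC.E2

/-!
# Leaf ST2: step 2
-/

set_option autoImplicit false

noncomputable section

open Module PBWB

namespace MP_a5a771_alC

attribute [local instance 100] LieRing.ofAssociativeRing

variable {F L I : Type*} [Field F] [LieRing L] [LieAlgebra F L] [LinearOrder I] (b : Basis I F L) (wt : I → ℕ)

private theorem ST2_key (hwt : WOk b wt) (hA : HA b wt) {r : L →ₗ[F] F} (hr : Kills b wt r)
    {x : Module.End F (MvPolynomial I F)} (hx : x ∈ BB b wt) {c ka g : MvPolynomial I F} (hc : c ∈ W0 b wt)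
    (h1 : x 1 = c + ka) (hg : g ∈ W0 b wt) (hgr : tau b wt r ka - ka = g) {v : MvPolynomial I F}
    (hvW : v ∈ W0 b wt) (hv : IsEig b wt r v) : dd F x (MM v) = MM (v * g) := by
  rw [dd_apply, MM_mul, ← sub_eq_zero]
  apply BB_inj b wt hwt hA
  · have h2 := MM_mem_BB b wt hvW
    have h3 := MM_mem_BB b wt hg
    exact sub_mem (sub_mem (mul_mem hx h2) (mul_mem h2 hx)) (mul_mem h2 h3)
  · rw [LinearMap.sub_apply, LinearMap.sub_apply, Module.End.mul_apply, Module.End.mul_apply, Module.End.mul_apply,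
      MM_apply, MM_apply, MM_apply, MM_apply, mul_one, mul_one, act_eig b wt hr hv hx, h1, map_add,
      tau_W0 b wt r hc, ← hgr]
    ring

private theorem ST2_leib (x p q : Module.End F (MvPolynomial I F)) :
    dd F x (p * q) = dd F x p * q + p * dd F x q := by
  rw [dd_apply, dd_apply, dd_apply, sub_mul, mul_sub]
  simp only [mul_assoc]
  abel

/-- Step 2.
Proof. (a) for an eigenvector `v` for `r` (with `Kills r`), `v ∈ W0`, with `tau r ka - ka = g ∈ W0`: `x * MM v - MM v * x = MM v * MM g`.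
Indeed `y := tauL r * x * tauL (-r) - x` (`tauL r` = `tau b wt r` as a linear map) is in `BB` (conjugation by `tauL r` sends `TT l` to
`TT l + r l • 1`: `tau_tl`, `Ad_tau`; and `MM w` to `MM w`; adjoin_induction), `y 1 = tau r (x 1) - x 1 = g`, so `y = MM g` by `BB_inj`;
and `x * MM v = MM v * tauL r * x * tauL (-r)` by `tau_act`. (b) apply (a) with `v`, `r`, `g = gr`, and with every eigenvector `v'` for `la` in `W0`:
`dd x (MM v') = MM v' * MM gl`. `gr` and `gl` are eigenvectors for `la` (`IsEig_tau`, `IsEig_sub`) in `W0`. `dd x` is a derivation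
(Leibniz), so by induction on `m`, `(dd x ^ m) (MM v) = MM (v * ∏ i < m, (gr + i • gl))`. (c) this is `0`, `v ≠ 0`, so a factor is zero. -/
theorem step2 (hwt : WOk b wt) (hA : HA b wt) {la r : L →ₗ[F] F} (hla : Kills b wt la) (hr : Kills b wt r)
    {x : Module.End F (MvPolynomial I F)} (hx : x ∈ BB b wt) {c ka : MvPolynomial I F} (hc : c ∈ W0 b wt)
    (hk : IsEig b wt la ka) (h1 : x 1 = c + ka) (hgr : tau b wt r ka - ka ∈ W0 b wt)
    (hgl : tau b wt la ka - ka ∈ W0 b wt) {v : MvPolynomial I F} (hvW : v ∈ W0 b wt) (hv0 : v ≠ 0)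
    (hv : IsEig b wt r v) (m : ℕ) (hnil : (dd F x ^ m) (MM v) = 0) :
    ∃ i : ℕ, (tau b wt r ka - ka) + i • (tau b wt la ka - ka) = 0 := by
  obtain ⟨gr, hgr'⟩ : ∃ gr, tau b wt r ka - ka = gr := ⟨_, rfl⟩
  obtain ⟨gl, hgl'⟩ : ∃ gl, tau b wt la ka - ka = gl := ⟨_, rfl⟩
  have hegr : IsEig b wt la gr := by
    rw [← hgr']
    exact IsEig_sub b wt (IsEig_tau b wt r hk) hk
  have hegl : IsEig b wt la gl := by
    rw [← hgl']
    exact IsEig_sub b wt (IsEig_tau b wt la hk) hk
  rw [hgr'] at hgr
  rw [hgl'] at hgl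
  rw [hgr', hgl']
  have hdv : dd F x (MM v) = MM (v * gr) := ST2_key b wt hwt hA hr hx hc h1 hgr hgr' hvW hv
  have hdr : dd F x (MM gr) = MM (gr * gl) := ST2_key b wt hwt hA hla hx hc h1 hgl hgl' hgr hegr
  have hdl : dd F x (MM gl) = MM (gl * gl) := ST2_key b wt hwt hA hla hx hc h1 hgl hgl' hgl hegl
  have hnat : ∀ (i : ℕ) (p : MvPolynomial I F), MM (i • p) = i • MM p := by
    intro i p
    induction i with
    | zero =>
      rw [zero_smul, zero_smul]
      exact LinearMap.ext fun q => by rw [MM_apply, zero_mul, LinearMap.zero_apply]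
    | succ i ih => rw [succ_nsmul, succ_nsmul, MM_add, ih]
  have hdp : ∀ i : ℕ, dd F x (MM (gr + i • gl)) = MM ((gr + i • gl) * gl) := by
    intro i
    rw [MM_add, hnat, map_add, map_nsmul, hdr, hdl, add_mul, MM_add, smul_mul_assoc, hnat]
  have hdprod : ∀ n : ℕ, dd F x (MM (∏ i ∈ Finset.range n, (gr + i • gl))) =
      MM (n • (gl * ∏ i ∈ Finset.range n, (gr + i • gl))) := by
    intro n
    induction n with
    | zero =>
      rw [Finset.prod_range_zero, zero_smul, MM_one, dd_apply, mul_one, one_mul, sub_self]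
      exact LinearMap.ext fun q => by rw [MM_apply, zero_mul, LinearMap.zero_apply]
    | succ n ih =>
      rw [Finset.prod_range_succ, MM_mul, ST2_leib, ih, hdp, ← MM_mul, ← MM_mul, ← MM_add]
      refine congrArg MM ?_
      rw [succ_nsmul, smul_mul_assoc]
      have h2 : ∀ P Q : MvPolynomial I F, n • (gl * P * Q) + P * (Q * gl) = n • (gl * (P * Q)) + gl * (P * Q) := by
        intro P Q
        rw [mul_assoc gl P Q]
        ring
      exact h2 _ _
  have hpow : ∀ n : ℕ, (dd F x ^ n) (MM v) = MM (v * ∏ i ∈ Finset.range n, (gr + i • gl)) := by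
    intro n
    induction n with
    | zero => rw [pow_zero, Module.End.one_apply, Finset.prod_range_zero, mul_one]
    | succ n ih =>
      rw [pow_succ', Module.End.mul_apply, ih, MM_mul, ST2_leib, hdv, hdprod, ← MM_mul, ← MM_mul, ← MM_add,
        Finset.prod_range_succ]
      refine congrArg MM ?_
      have h2 : ∀ P : MvPolynomial I F, v * gr * P + v * (n • (gl * P)) = v * (P * (gr + n • gl)) := by
        intro P
        simp only [nsmul_eq_mul]
        ring
      exact h2 _
  rw [hpow m] at hnil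
  have h3 : v * ∏ i ∈ Finset.range m, (gr + i • gl) = 0 := by
    have h4 := congrArg (fun f : Module.End F (MvPolynomial I F) => f 1) hnil
    simp only [MM_apply, mul_one, LinearMap.zero_apply] at h4
    exact h4
  rcases mul_eq_zero.1 h3 with h4 | h4
  · exact absurd h4 hv0
  · obtain ⟨i, _, hi⟩ := Finset.prod_eq_zero_iff.1 h4
    exact ⟨i, hi⟩

end MP_a5a771_alC
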