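import Pool.Agent.Lib.MP_a5a771_alC.ST1
import Pool.Agent.Lib.MP_a5a771_alC.ST2
import Pool.Agent.Lib.MP_a5a771_alC.E4
import Pool.Agent.Lib.MP_a5a771_alC.E5
import Pool.Agent.Lib.MP_a5a771_alC.E6
import Pool.Agent.Lib.MP_a5a771_alC.EIG

/-!
# The twist: a Lie algebra of ad-locally nilpotent elements

`M` is a finite-dimensional Lie subalgebra of `U(L)` of ad-locally nilpotent elements of weight at least `1`, stable
under lifts of `L / n`, which generates the ideal of `n`. Then every element of `M` is an element of `n` modulo weight `2`.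
-/

set_option autoImplicit false

noncomputable section

open Module PBWB

namespace MP_a5a771_alC

attribute [local instance 100] LieRing.ofAssociativeRing

section ddpow

variable {F A : Type*} [Field F] [Ring A] [Algebra F A]

/-- The element is ad-locally nilpotent. -/
def LN (F : Type*) {A : Type*} [Field F] [Ring A] [Algebra F A] (u : A) : Prop := ∀ y : A, ∃ m : ℕ, (dd F u ^ m) y = 0

theorem dd_pow_zero_of_le {u y : A} {m m' : ℕ} (h : (dd F u ^ m) y = 0) (hm : m ≤ m') : (dd F u ^ m') y = 0 := by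
  obtain ⟨k, rfl⟩ := Nat.exists_eq_add_of_le hm
  rw [add_comm, pow_add, Module.End.mul_apply, h, map_zero]

end ddpow

variable {F L I : Type*} [Field F] [LieRing L] [LieAlgebra F L] [LinearOrder I] (b : Basis I F L) (wt : I → ℕ)

/-- The weights of `W0`. -/
def SW : Set (L →ₗ[F] F) := {r | ∃ v ∈ W0 b wt, v ≠ 0 ∧ IsEig b wt r v}

omit [LinearOrder I] in
theorem UG_cast {k l : ℕ} (h : k = l) {u : UniversalEnvelopingAlgebra F L} (hu : u ∈ UG b wt k) : u ∈ UG b wt l := h ▸ hu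

variable {b wt}

omit [LinearOrder I] in
/-- Symbols of iterated commutators. -/
theorem sg_dd_pow {sg : ℕ → UniversalEnvelopingAlgebra F L →ₗ[F] Module.End F (MvPolynomial I F)}
    (hsg : IsSym b wt sg) {k k' : ℕ} {u z : UniversalEnvelopingAlgebra F L} (hu : u ∈ UG b wt k)
    (hz : z ∈ UG b wt k') (m : ℕ) :
    (dd F u ^ m) z ∈ UG b wt (m * k + k') ∧
      sg (m * k + k') ((dd F u ^ m) z) = (dd F (sg k u) ^ m) (sg k' z) := by
  induction m with
  | zero =>
    rw [pow_zero, pow_zero, Module.End.one_apply, Module.End.one_apply, zero_mul, zero_add]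
    exact ⟨hz, rfl⟩
  | succ m ih =>
    obtain ⟨h1, h2⟩ := ih
    rw [pow_succ', pow_succ', Module.End.mul_apply, Module.End.mul_apply, dd_apply, dd_apply, ← h2]
    have e1 : k + (m * k + k') = (m + 1) * k + k' := by ring
    have e2 : (m * k + k') + k = (m + 1) * k + k' := by ring
    have h3 := UG_mul b wt hu h1
    have h4 := UG_mul b wt h1 hu
    have h5 := hsg.mul hu h1
    have h6 := hsg.mul h1 hu
    rw [e1] at h3 h5
    rw [e2] at h4 h6
    exact ⟨sub_mem h3 h4, by rw [map_sub, h5, h6]⟩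

omit [LinearOrder I] in
theorem sg_W0 {sg : ℕ → UniversalEnvelopingAlgebra F L →ₗ[F] Module.End F (MvPolynomial I F)}
    (hsg : IsSym b wt sg) {w : MvPolynomial I F} (hw : w ∈ W0 b wt) :
    ∃ l ∈ Gw b wt 1, wl b wt l = w ∧ UniversalEnvelopingAlgebra.ι F l ∈ UG b wt 1 ∧
      sg 1 (UniversalEnvelopingAlgebra.ι F l) = MM w := by
  obtain ⟨l, hl, rfl⟩ := exists_rep b wt hw
  exact ⟨l, hl, rfl, iota_mem_UG' b wt hl, hsg.iota1 l hl⟩

omit [LinearOrder I] in
/-- Step 1. -/
theorem step1 [CharZero F] (hwt : WOk b wt)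
    {sg : ℕ → UniversalEnvelopingAlgebra F L →ₗ[F] Module.End F (MvPolynomial I F)}
    (hsg : IsSym b wt sg) {k : ℕ} {u : UniversalEnvelopingAlgebra F L} (hu : u ∈ UG b wt k) (hLN : LN F u)
    {s : L →ₗ[F] F} (hs : Kills b wt s) (hY : IsEig b wt s (sg k u 1)) {b₀ : MvPolynomial I F} (hb0 : b₀ ≠ 0)
    (hb : IsEig b wt s b₀) {k' : ℕ} {z : UniversalEnvelopingAlgebra F L} (hz : z ∈ UG b wt k')
    (hzb : sg k' z = MM b₀) {r : L →ₗ[F] F} (hr : r ∈ SW b wt) :
    tau b wt r (sg k u 1) = sg k u 1 := by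
  have hx : sg k u ∈ BB b wt := hsg.mem hu
  have key : ∀ {k'' : ℕ} {z' : UniversalEnvelopingAlgebra F L}, z' ∈ UG b wt k'' →
      ∃ m₀ : ℕ, ∀ m, m₀ ≤ m → (dd F (sg k u) ^ m) (sg k'' z') = 0 := by
    intro k'' z' hz'
    obtain ⟨m₀, h0⟩ := hLN z'
    refine ⟨m₀, fun m hm => ?_⟩
    rw [← (sg_dd_pow hsg hu hz' m).2, dd_pow_zero_of_le h0 hm, map_zero]
  obtain ⟨m₀, h0⟩ := key hz
  rw [hzb] at h0
  have ht := step1a b wt hs hx hY hb0 hb m₀ h0
  obtain ⟨v, hvW, hv0, hv⟩ := hr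
  obtain ⟨l, hl, hlw, hlU, hlM⟩ := sg_W0 hsg hvW
  obtain ⟨m₁, h1⟩ := key hlU
  rw [hlM] at h1
  exact step1b b wt hs (Kills_of_IsEig b wt hwt hv0 hv) hx hY ht hv0 hv m₁ (h1 m₁ le_rfl)

variable (b wt)

/-- The derivations as operators on a stable subspace. -/
def resAd (V : Submodule F (MvPolynomial I F)) (hV : ∀ l, ∀ v ∈ V, Ad b wt l v ∈ V) : L →ₗ[F] Module.End F V where
  toFun l := (Ad b wt l : MvPolynomial I F →ₗ[F] MvPolynomial I F).restrict (hV l)
  map_add' l l' := by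
    refine LinearMap.ext fun v => Subtype.ext ?_
    exact Ad_add b wt l l' v.1
  map_smul' c l := by
    refine LinearMap.ext fun v => Subtype.ext ?_
    exact Ad_smul b wt c l v.1

omit [LinearOrder I] in
theorem resAd_apply (V : Submodule F (MvPolynomial I F)) (hV : ∀ l, ∀ v ∈ V, Ad b wt l v ∈ V) (l : L) (v : V) :
    (resAd b wt V hV l v : MvPolynomial I F) = Ad b wt l v := rfl

omit [LinearOrder I] in
theorem resAd_comm (hwt : WOk b wt) (hA : HA b wt) (V : Submodule F (MvPolynomial I F))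
    (hV : ∀ l, ∀ v ∈ V, Ad b wt l v ∈ V) (l l' : L) :
    resAd b wt V hV l * resAd b wt V hV l' = resAd b wt V hV l' * resAd b wt V hV l := by
  refine LinearMap.ext fun v => Subtype.ext ?_
  exact Ad_comm b wt hwt hA l l' v.1

omit [LinearOrder I] in
theorem resAd_pow (V : Submodule F (MvPolynomial I F)) (hV : ∀ l, ∀ v ∈ V, Ad b wt l v ∈ V) (l : L) (N : ℕ) (v : V) :
    ((resAd b wt V hV l ^ N) v : MvPolynomial I F) =
      ((Ad b wt l : MvPolynomial I F →ₗ[F] MvPolynomial I F) ^ N) v.1 := by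
  induction N generalizing v with
  | zero => rfl
  | succ N ih =>
    rw [pow_succ, pow_succ, Module.End.mul_apply, Module.End.mul_apply, ih]
    rfl

omit [LinearOrder I] in
/-- If an element is killed by all the weights of a stable subspace then it is nilpotent on it. -/
theorem nil_of_weights [IsAlgClosed F] (hwt : WOk b wt) (hA : HA b wt) (V : Submodule F (MvPolynomial I F))
    [FiniteDimensional F V] (hV : ∀ l, ∀ v ∈ V, Ad b wt l v ∈ V) (l : L)
    (h : ∀ mu : L →ₗ[F] F, (∃ v ∈ V, v ≠ 0 ∧ IsEig b wt mu v) → mu l = 0) :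
    ∃ N : ℕ, ∀ v ∈ V, ((Ad b wt l : MvPolynomial I F →ₗ[F] MvPolynomial I F) ^ N) v = 0 := by
  obtain ⟨N, hN⟩ := eig_nil (resAd b wt V hV) (resAd_comm b wt hwt hA V hV) l (by
    rintro mu ⟨v, hv0, hv⟩
    refine h mu ⟨v.1, v.2, fun h => hv0 (Subtype.ext h), fun l' => ?_⟩
    exact congrArg Subtype.val (hv l'))
  refine ⟨N, fun v hv => ?_⟩
  have h1 := resAd_pow b wt V hV l N ⟨v, hv⟩
  rw [hN] at h1
  exact h1.symm

omit [LinearOrder I] in
/-- The weights of `W0` separate the elements of `L / n`. -/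
theorem SW_detect [IsAlgClosed F] [Fintype I] (hwt : WOk b wt) (hA : HA b wt)
    (hN3 : ∀ l, (∃ N : ℕ, ∀ p ∈ W0 b wt, ((Ad b wt l : MvPolynomial I F →ₗ[F] MvPolynomial I F) ^ N) p = 0) →
      l ∈ Gw b wt 1) (l : L) (h : ∀ mu ∈ SW b wt, mu l = 0) : l ∈ Gw b wt 1 := by
  have : FiniteDimensional F L := Module.Finite.of_basis b
  have : FiniteDimensional F (W0 b wt) := by unfold W0; infer_instance
  apply hN3
  exact nil_of_weights b wt hwt hA (W0 b wt) (fun l v hv => Ad_W0 b wt l hv) l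
    fun mu ⟨v, hv, hv0, he⟩ => h mu ⟨v, hv, hv0, he⟩

end MP_a5a771_alC
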